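import Mathlib

/-!
# Automorphy factor of weight one half and the inhomogeneity
-/

open Complex

namespace Pool.Agent.Helper45.FU

/-- the inverse of the principal square root of `-i w` -/
noncomputable def J (w : ℂ) : ℂ := 1 / (-I * w) ^ (1 / 2 : ℂ)

theorem re_negI_mul (w : ℂ) : (-I * w).re = w.im := by simp

theorem ne_zero_of_im_pos {w : ℂ} (hw : 0 < w.im) : w ≠ 0 := by
  rintro rfl; simp at hw

theorem negI_mul_ne_zero {w : ℂ} (hw : 0 < w.im) : -I * w ≠ 0 :=
  mul_ne_zero (by simp) (ne_zero_of_im_pos hw)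

theorem im_neg_inv {w : ℂ} : (-1 / w).im = w.im / ‖w‖ ^ 2 := by
  rw [← Complex.normSq_eq_norm_sq]
  simp [neg_div]

theorem im_neg_inv_pos {w : ℂ} (hw : 0 < w.im) : 0 < (-1 / w).im := by
  rw [im_neg_inv]
  have := norm_pos_iff.mpr (ne_zero_of_im_pos hw)
  positivity

theorem neg_inv_neg_inv (w : ℂ) : -1 / (-1 / w) = w := by
  by_cases h : w = 0
  · simp [h]
  · field_simp

theorem mul_cpow_of_re {a b : ℂ} (ha : 0 < a.re) (hb : 0 ≤ b.re) (hb0 : b ≠ 0) (s : ℂ) :
    (a * b) ^ s = a ^ s * b ^ s := by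
  have ha0 : a ≠ 0 := by rintro rfl; simp at ha
  have h1 := Complex.abs_arg_lt_pi_div_two_iff.mpr (Or.inl ha)
  have h2 : |b.arg| ≤ Real.pi / 2 := Complex.abs_arg_le_pi_div_two_iff.mpr hb
  rw [abs_lt] at h1
  rw [abs_le] at h2
  have hlog : Complex.log (a * b) = Complex.log a + Complex.log b := by
    rw [Complex.log_mul_eq_add_log_iff ha0 hb0]
    constructor <;> linarith [h1.1, h1.2, h2.1, h2.2]
  rw [cpow_def_of_ne_zero (mul_ne_zero ha0 hb0), cpow_def_of_ne_zero ha0,
    cpow_def_of_ne_zero hb0, hlog, ← Complex.exp_add, add_mul]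

theorem J_mul_J {w : ℂ} (hw : 0 < w.im) : J w * J (-1 / w) = 1 := by
  have h0 := ne_zero_of_im_pos hw
  have h1 : (-I * w) * (-I * (-1 / w)) = 1 := by
    field_simp
    simp
  have h2 := mul_cpow_of_re (a := -I * w) (b := -I * (-1 / w)) (by rw [re_negI_mul]; exact hw)
    (by rw [re_negI_mul]; exact (im_neg_inv_pos hw).le) (negI_mul_ne_zero (im_neg_inv_pos hw))
    (1 / 2 : ℂ)
  rw [h1, one_cpow] at h2
  unfold J
  rw [div_mul_div_comm, ← h2]
  simp

theorem norm_J (w : ℂ) : ‖J w‖ = ‖w‖ ^ (-(1 / 2) : ℝ) := by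
  have h : (1 / 2 : ℂ) = ((1 / 2 : ℝ) : ℂ) := by push_cast; ring
  unfold J
  rw [norm_div, norm_one, h, Complex.norm_cpow_real, norm_mul, norm_neg, norm_I, one_mul,
    Real.rpow_neg (norm_nonneg _), one_div]

theorem J_ne_zero {w : ℂ} (hw : 0 < w.im) : J w ≠ 0 := by
  intro h
  have := J_mul_J hw
  rw [h] at this
  simp at this

theorem negI_cpow_half : (-I) ^ (1 / 2 : ℂ) = cexp (-(Real.pi / 4 : ℝ) * I) := by
  rw [cpow_def_of_ne_zero (by simp), Complex.log_neg_I]
  congr 1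
  push_cast
  ring

theorem J_one : J 1 = cexp ((Real.pi / 4 : ℝ) * I) := by
  unfold J
  rw [mul_one, negI_cpow_half, one_div, ← Complex.exp_neg]
  congr 1
  ring

theorem I_cpow_half : (I) ^ (1 / 2 : ℂ) = cexp ((Real.pi / 4 : ℝ) * I) := by
  rw [cpow_def_of_ne_zero (by simp), Complex.log_I]
  congr 1
  push_cast
  ring

theorem J_neg_one : J (-1) = cexp (-(Real.pi / 4 : ℝ) * I) := by
  unfold J
  have : -I * -1 = I := by ring
  rw [this, I_cpow_half, one_div, ← Complex.exp_neg]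
  congr 1
  ring

theorem J_one_mul_J_neg_one : J 1 * J (-1) = 1 := by
  rw [J_one, J_neg_one, ← Complex.exp_add]
  simp

/-- the value `e^{iπ/4}` -/
theorem J_cusp {z : ℂ} (hz : 0 < z.im) : J (z + 1) * J (z / (z + 1)) = J 1 * J z := by
  have h1 : 0 < (z + 1).im := by simpa using hz
  have h10 := ne_zero_of_im_pos h1
  have hq : 0 < (z / (z + 1)).im := by
    have : z / (z + 1) = 1 + -1 / (z + 1) := by field_simp; ring
    rw [this, Complex.add_im, Complex.one_im, zero_add]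
    exact im_neg_inv_pos h1
  have e1 := mul_cpow_of_re (a := -I * (z + 1)) (b := -I * (z / (z + 1)))
    (by rw [re_negI_mul]; exact h1) (by rw [re_negI_mul]; exact hq.le) (negI_mul_ne_zero hq)
    (1 / 2 : ℂ)
  have e2 := mul_cpow_of_re (a := -I * z) (b := -I) (by rw [re_negI_mul]; exact hz)
    (by simp) (by simp) (1 / 2 : ℂ)
  have e3 : (-I * (z + 1)) * (-I * (z / (z + 1))) = (-I * z) * (-I) := by
    field_simp
  rw [e3] at e1
  unfold J
  rw [div_mul_div_comm, div_mul_div_comm, ← e1, e2, mul_one (-I), mul_comm ((-I) ^ (1 / 2 : ℂ))]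

theorem slitPlane_of_im_pos {w : ℂ} (hw : 0 < w.im) : -I * w ∈ slitPlane := by
  left
  rw [re_negI_mul]
  exact hw

theorem differentiableAt_J_of {w : ℂ} (hw : -I * w ∈ slitPlane) : DifferentiableAt ℂ J w := by
  unfold J
  refine DifferentiableAt.div (differentiableAt_const _) ?_ ?_
  · exact (DifferentiableAt.const_mul differentiableAt_id _).cpow_const hw
  · rw [Ne, cpow_eq_zero_iff]
    intro h
    rw [h.1] at hw
    simp [slitPlane] at hw

theorem differentiableAt_J {w : ℂ} (hw : 0 < w.im) : DifferentiableAt ℂ J w :=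
  differentiableAt_J_of (slitPlane_of_im_pos hw)

theorem differentiableAt_J_one : DifferentiableAt ℂ J 1 :=
  differentiableAt_J_of (by right; simp)

theorem differentiableAt_J_neg_one : DifferentiableAt ℂ J (-1) :=
  differentiableAt_J_of (by right; simp)

/-- the twisted slash action of the inversion -/
noncomputable def sl (ε : ℂ) (φ : ℂ → ℂ) (w : ℂ) : ℂ := -(ε * J w * φ (-1 / w))

/-- the upper half plane as a subset of the complex plane -/
def HH : Set ℂ := {w | 0 < w.im}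

theorem isOpen_HH : IsOpen HH := isOpen_lt continuous_const Complex.continuous_im

theorem differentiableOn_sl {ε : ℂ} {φ : ℂ → ℂ} (hφ : DifferentiableOn ℂ φ HH) :
    DifferentiableOn ℂ (sl ε φ) HH := by
  intro w hw
  apply DifferentiableAt.differentiableWithinAt
  unfold sl
  refine DifferentiableAt.fun_neg (DifferentiableAt.mul
    (DifferentiableAt.mul (differentiableAt_const _) (differentiableAt_J hw)) ?_)
  have h1 : DifferentiableAt ℂ φ (-1 / w) :=
    (hφ (-1 / w) (im_neg_inv_pos hw)).differentiableAt (isOpen_HH.mem_nhds (im_neg_inv_pos hw))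
  exact h1.comp w (DifferentiableAt.div (differentiableAt_const _) differentiableAt_id
    (ne_zero_of_im_pos hw))

theorem sl_sl {ε : ℂ} (hε : ε * ε = 1) {φ : ℂ → ℂ} {w : ℂ} (hw : 0 < w.im) :
    sl ε (sl ε φ) w = φ w := by
  unfold sl
  rw [neg_inv_neg_inv]
  calc -(ε * J w * -(ε * J (-1 / w) * φ w)) = (ε * ε) * (J w * J (-1 / w)) * φ w := by ring
    _ = φ w := by rw [hε, J_mul_J hw]; ring

theorem im_rpow_mul_norm_J {w : ℂ} (hw : 0 < w.im) :
    w.im ^ (1 / 4 : ℝ) * ‖J w‖ = (-1 / w).im ^ (1 / 4 : ℝ) := by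
  have h0 := norm_pos_iff.mpr (ne_zero_of_im_pos hw)
  rw [norm_J, im_neg_inv, Real.div_rpow hw.le (by positivity),
    ← Real.rpow_natCast, ← Real.rpow_mul h0.le, Real.rpow_neg h0.le, div_eq_mul_inv]
  norm_num [div_eq_mul_inv]

theorem im_rpow_mul_norm_sl {ε : ℂ} (hε : ‖ε‖ = 1) {φ : ℂ → ℂ} {w : ℂ} (hw : 0 < w.im) :
    w.im ^ (1 / 4 : ℝ) * ‖sl ε φ w‖ = (-1 / w).im ^ (1 / 4 : ℝ) * ‖φ (-1 / w)‖ := by
  unfold sl
  rw [norm_neg, norm_mul, norm_mul, hε, one_mul, ← mul_assoc, im_rpow_mul_norm_J hw]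

end Pool.Agent.Helper45.FU
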