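import Pool.Agent.Helper45.FU.ExistsM

/-!
# Pointwise bound for the dual generating function
-/

open Complex Filter Topology

namespace Pool.Agent.Helper45.FU

theorem sq_norm_eq (w : ℂ) : ‖w‖ ^ 2 = w.re ^ 2 + w.im ^ 2 := by
  rw [Complex.sq_norm, Complex.normSq_apply]; ring

theorem geom_one {w : ℂ} (h0 : 0 < w.im) (h1 : w.im < 1) (hr : |w.re| ≤ 1)
    (hp : 2 * w.im < ‖w - 1‖ ^ 2) (hm : 2 * w.im < ‖w + 1‖ ^ 2) : ‖w‖ ^ 2 < 1 := by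
  rw [sq_norm_eq] at hp hm ⊢
  simp only [Complex.sub_re, Complex.sub_im, Complex.add_re, Complex.add_im, Complex.one_re,
    Complex.one_im, sub_zero, add_zero] at hp hm
  obtain ⟨hr1, hr2⟩ := abs_le.mp hr
  set x := w.re
  set y := w.im
  rcases le_total 0 x with hx | hx
  · have e1 : 0 ≤ x * (1 - x) := mul_nonneg hx (by linarith)
    have e2 : 0 < y * (1 - y) := mul_pos h0 (by linarith)
    nlinarith
  · have e1 : 0 ≤ (-x) * (1 + x) := mul_nonneg (by linarith) (by linarith)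
    have e2 : 0 < y * (1 - y) := mul_pos h0 (by linarith)
    nlinarith

theorem geom_two_real {x y : ℝ} (hx : 0 ≤ x) (hx1 : x ≤ 1) (h0 : 0 < y) (h1 : y < 1)
    (hp : 2 * y < (x - 1) ^ 2 + y ^ 2) (hq : y < x ^ 2 + y ^ 2) :
    ((x - 1) ^ 2 + y ^ 2) * 4 ≤ (3 * (1 - (x ^ 2 + y ^ 2))) ^ 2 ∧ 0 ≤ 1 - (x ^ 2 + y ^ 2) := by
  have hy3 : y < 1 / 3 := by
    by_contra hcon
    push Not at hcon
    have k1 : x < (1 - y) ^ 2 := by nlinarith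
    have k2 : x ^ 2 < (1 - y) ^ 4 := by
      calc x ^ 2 < ((1 - y) ^ 2) ^ 2 := by gcongr
        _ = _ := by ring
    have k3 : y * (1 - y) < (1 - y) ^ 3 * (1 - y) := by nlinarith
    have k4 : y < (1 - y) ^ 3 := lt_of_mul_lt_mul_right k3 (by linarith)
    have k5 : (1 - y) ^ 3 ≤ (2 / 3) ^ 3 := by
      have : 0 ≤ 1 - y := by linarith
      gcongr
      linarith
    norm_num at k5
    linarith
  set a : ℝ := 1 - x with ha
  have ha0 : 0 ≤ a := by rw [ha]; linarith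
  have ha1 : a ≤ 1 := by rw [ha]; linarith
  have hxa : x = 1 - a := by rw [ha]; ring
  have h5 : y * (5 / 3) < a ^ 2 := by
    have : y * (5 / 3) ≤ y * (2 - y) := by nlinarith
    have : y * (2 - y) < a ^ 2 := by nlinarith
    linarith
  have h6 : 4 / 5 * a ≤ 1 - (x ^ 2 + y ^ 2) := by
    rw [hxa]
    nlinarith
  have h7 : (x - 1) ^ 2 + y ^ 2 ≤ 36 / 25 * a ^ 2 := by
    rw [hxa]
    have h8 : y ^ 2 ≤ 1 / 3 * (3 / 5 * a ^ 2) := by nlinarith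
    nlinarith
  refine ⟨?_, by nlinarith⟩
  have h9 : (3 * (4 / 5 * a)) ^ 2 ≤ (3 * (1 - (x ^ 2 + y ^ 2))) ^ 2 := by
    gcongr
  nlinarith

theorem geom_two {w : ℂ} (h0 : 0 < w.im) (h1 : w.im < 1) (hr : |w.re| ≤ 1)
    (hp : 2 * w.im < ‖w - 1‖ ^ 2) (hm : 2 * w.im < ‖w + 1‖ ^ 2) (hq : w.im < ‖w‖ ^ 2) :
    ‖w ^ 2 - 1‖ ≤ 12 * (1 - ‖w‖ ^ (1 / 2 : ℝ)) := by
  have hlt := geom_one h0 h1 hr hp hm
  have hn := norm_nonneg w
  have hn1 : ‖w‖ < 1 := by nlinarith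
  have hw1 : ‖w ^ 2 - 1‖ ^ 2 = ‖w - 1‖ ^ 2 * ‖w + 1‖ ^ 2 := by
    rw [← mul_pow, ← norm_mul]; congr 2; ring
  have hle2 : ∀ u : ℂ, ‖u‖ = 1 → ‖w + u‖ ^ 2 ≤ 4 := by
    intro u hu
    have : ‖w + u‖ ≤ 2 := by
      calc ‖w + u‖ ≤ ‖w‖ + ‖u‖ := norm_add_le _ _
        _ ≤ 2 := by rw [hu]; linarith
    nlinarith [norm_nonneg (w + u)]
  have key : ‖w ^ 2 - 1‖ ^ 2 ≤ (3 * (1 - ‖w‖ ^ 2)) ^ 2 ∧ 0 ≤ 1 - ‖w‖ ^ 2 := by
    obtain ⟨hr1, hr2⟩ := abs_le.mp hr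
    rcases le_total 0 w.re with hx | hx
    · rw [sq_norm_eq] at hp hq
      simp only [Complex.sub_re, Complex.sub_im, Complex.one_re, Complex.one_im, sub_zero] at hp
      obtain ⟨g1, g2⟩ := geom_two_real hx hr2 h0 h1 hp hq
      rw [← sq_norm_eq] at g2
      refine ⟨?_, g2⟩
      rw [hw1]
      calc ‖w - 1‖ ^ 2 * ‖w + 1‖ ^ 2 ≤ ‖w - 1‖ ^ 2 * 4 := by
            gcongr; exact hle2 1 (by simp)
        _ = ((w.re - 1) ^ 2 + w.im ^ 2) * 4 := by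
            rw [sq_norm_eq]; simp
        _ ≤ _ := by rw [sq_norm_eq w]; exact g1
    · rw [sq_norm_eq] at hm hq
      simp only [Complex.add_re, Complex.add_im, Complex.one_re, Complex.one_im, add_zero] at hm
      obtain ⟨g1, g2⟩ := geom_two_real (x := -w.re) (y := w.im) (by linarith) (by linarith) h0 h1
        (by nlinarith) (by nlinarith)
      have e : (-w.re) ^ 2 + w.im ^ 2 = ‖w‖ ^ 2 := by rw [sq_norm_eq]; ring
      rw [e] at g1 g2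
      refine ⟨?_, g2⟩
      rw [hw1]
      calc ‖w - 1‖ ^ 2 * ‖w + 1‖ ^ 2 ≤ 4 * ‖w + 1‖ ^ 2 := by
            gcongr
            have := hle2 (-1) (by simp)
            rwa [← sub_eq_add_neg] at this
        _ = ((-w.re - 1) ^ 2 + w.im ^ 2) * 4 := by
            rw [sq_norm_eq]; simp; ring
        _ ≤ _ := g1
  obtain ⟨k1, k2⟩ := key
  have k3 : ‖w ^ 2 - 1‖ ≤ 3 * (1 - ‖w‖ ^ 2) := by
    have := abs_le_of_sq_le_sq' k1 (by linarith)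
    exact this.2
  set s : ℝ := ‖w‖ ^ (1 / 2 : ℝ) with hs
  have hs0 : 0 ≤ s := Real.rpow_nonneg hn _
  have hs1 : s ≤ 1 := Real.rpow_le_one hn hn1.le (by norm_num)
  have hs4 : ‖w‖ ^ 2 = s ^ 4 := by
    rw [hs, ← Real.rpow_natCast, ← Real.rpow_natCast, ← Real.rpow_mul hn]
    norm_num
  rw [hs4] at k3
  have k4 : 1 - s ^ 4 ≤ 4 * (1 - s) := by
    have e : 4 * (1 - s) - (1 - s ^ 4) = (1 - s) * ((1 - s) * (3 + 2 * s + s ^ 2)) := by ring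
    have : 0 ≤ (1 - s) * ((1 - s) * (3 + 2 * s + s ^ 2)) := by
      have : 0 ≤ 1 - s := by linarith
      positivity
    linarith
  linarith

/-! ## The counting measure for the induction -/

/-- pairs with small value -/
def Sset (w : ℂ) : Set (ℤ × ℤ) := {p | ‖lin w p‖ < 1}

theorem Sset_finite {w : ℂ} (hw : 0 < w.im) : (Sset w).Finite := by
  have hr := rho_pos hw
  obtain ⟨n, hn⟩ := exists_nat_gt (1 / rho w)
  refine (Set.finite_Icc ((-(n : ℤ), -(n : ℤ)) : ℤ × ℤ) ((n : ℤ), (n : ℤ))).subset ?_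
  intro p hp
  have h1 : ‖lin w p‖ < 1 := hp
  have h2 := rho_mul_mx_le hw p
  have h3 : mx p < n := by
    have : mx p < 1 / rho w := by
      rw [lt_div_iff₀ hr]
      linarith
    linarith
  have h4 : |(p.1 : ℝ)| < n := (le_max_left _ _).trans_lt h3
  have h5 : |(p.2 : ℝ)| < n := (le_max_right _ _).trans_lt h3
  have h6 : |p.1| < (n : ℤ) := by exact_mod_cast h4
  have h7 : |p.2| < (n : ℤ) := by exact_mod_cast h5
  rw [abs_lt] at h6 h7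
  exact ⟨⟨h6.1.le, h7.1.le⟩, ⟨h6.2.le, h7.2.le⟩⟩

theorem Sset_add (w : ℂ) (k : ℤ) : (Sset (w + k)).ncard = (Sset w).ncard := by
  have : Sset w = (eT k) '' Sset (w + k) := by
    ext p
    constructor
    · intro hp
      refine ⟨(eT k).symm p, ?_, by simp⟩
      change ‖lin (w + k) ((eT k).symm p)‖ < 1
      rw [lin_add, Equiv.apply_symm_apply]
      exact hp
    · rintro ⟨q, hq, rfl⟩
      change ‖lin w (eT k q)‖ < 1
      rw [← lin_add]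
      exact hq
  rw [this, Set.ncard_image_of_injective _ (eT k).injective]

theorem Sset_inv {w : ℂ} (hw : 0 < w.im) (hw1 : ‖w‖ < 1) :
    (Sset (-1 / w)).ncard < (Sset w).ncard := by
  have h0 := ne_zero_of_im_pos hw
  have hn : 0 < ‖w‖ := norm_pos_iff.mpr h0
  have hsub : Sset (-1 / w) ⊆ eS '' (Sset w \ {(1, 0)}) := by
    intro q hq
    refine ⟨eS.symm q, ?_, by simp⟩
    have h1 : ‖lin (-1 / w) (eS (eS.symm q))‖ < 1 := by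
      rw [Equiv.apply_symm_apply]; exact hq
    rw [lin_inv hw, norm_div, div_lt_one hn] at h1
    refine ⟨h1.trans hw1, ?_⟩
    intro h2
    have h3 : eS.symm q = (1, 0) := h2
    rw [h3] at h1
    simp [lin] at h1
  have hfin := Sset_finite hw
  have hmem : ((1, 0) : ℤ × ℤ) ∈ Sset w := by
    change ‖lin w (1, 0)‖ < 1
    simpa [lin] using hw1
  calc (Sset (-1 / w)).ncard ≤ (eS '' (Sset w \ {(1, 0)})).ncard :=
        Set.ncard_le_ncard hsub ((hfin.sdiff).image _)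
    _ = (Sset w \ {(1, 0)}).ncard := Set.ncard_image_of_injective _ eS.injective
    _ < (Sset w).ncard := Set.ncard_sdiff_singleton_lt_of_mem hmem hfin

/-- the invariant norm -/
noncomputable def bb (M : ℂ → ℂ) (w : ℂ) : ℝ := w.im ^ (1 / 4 : ℝ) * ‖M w‖

theorem bb_cusp {M : ℂ → ℂ} {B : ℝ}
    (hB : ∀ z : ℂ, 1 / 2 ≤ z.im → ‖loc M z‖ ≤ B * z.im ^ (-(1 / 4) : ℝ)) {w : ℂ} (hw : 0 < w.im)
    (hd : ‖w - 1‖ ^ 2 ≤ 2 * w.im) : bb M w ≤ B := by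
  set z : ℂ := -1 / (w - 1) with hz
  have hw1 : 0 < (w - 1).im := by simpa using hw
  have hzim : 0 < z.im := im_neg_inv_pos hw1
  have hn : 0 < ‖w - 1‖ := norm_pos_iff.mpr (ne_zero_of_im_pos hw1)
  have hzi : z.im = w.im / ‖w - 1‖ ^ 2 := by
    rw [hz, im_neg_inv]; simp
  have hz2 : 1 / 2 ≤ z.im := by
    rw [hzi, le_div_iff₀ (by positivity)]; linarith
  have hinv : -1 / z = w - 1 := by rw [hz]; exact neg_inv_neg_inv _
  have h1 := hB z hz2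
  have hpt : (1 : ℂ) - 1 / z = w := by
    have : (1 : ℂ) - 1 / z = -1 / z + 1 := by ring
    rw [this, hinv]; ring
  unfold loc at h1
  rw [hpt, norm_mul] at h1
  have h2 := im_rpow_mul_norm_J hzim
  rw [hinv] at h2
  have hwi : (w - 1).im = w.im := by simp
  rw [hwi] at h2
  have hzr : 0 < z.im ^ (1 / 4 : ℝ) := Real.rpow_pos_of_pos hzim _
  unfold bb
  rw [← h2]
  calc z.im ^ (1 / 4 : ℝ) * ‖J z‖ * ‖M w‖ = z.im ^ (1 / 4 : ℝ) * (‖J z‖ * ‖M w‖) := by ring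
    _ ≤ z.im ^ (1 / 4 : ℝ) * (B * z.im ^ (-(1 / 4) : ℝ)) := by gcongr
    _ = B := by
        rw [Real.rpow_neg hzim.le]
        field_simp

theorem bb_add {M : ℂ → ℂ} (hper : ∀ w, M (w + 2) = M w) (w : ℂ) (k : ℤ) :
    bb M (w + ((2 * k : ℤ) : ℂ)) = bb M w := by
  have h : Function.Periodic M 2 := hper
  have h2 : M (w + ((2 * k : ℤ) : ℂ)) = M w := by
    rw [← h.int_mul k w]
    congr 1
    push_cast
    ring
  unfold bb
  rw [h2]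
  congr 2
  simp

theorem step_bound {ε : ℂ} (hε1 : ‖ε‖ = 1) {M Q : ℂ → ℂ} {C : ℝ}
    (heq : ∀ w : ℂ, 0 < w.im → M w = sl ε M w + Q w)
    (hQ : ∀ w : ℂ, 0 < w.im → ‖Q w‖ ≤ C * ‖w ^ 2 - 1‖ * (1 + ‖J w‖)) (hC : 0 < C)
    {w : ℂ} (hw : 0 < w.im) (hw1 : ‖w‖ ^ 2 < 1) :
    bb M w ≤ bb M (-1 / w) + 2 * C * ‖w ^ 2 - 1‖ * (-1 / w).im ^ (1 / 4 : ℝ) := by
  have h1 := heq w hw
  have h2 := hQ w hw
  have h3 := im_rpow_mul_norm_sl hε1 (φ := M) hw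
  have h4 := im_rpow_mul_norm_J hw
  have hn : 0 < ‖w‖ := norm_pos_iff.mpr (ne_zero_of_im_pos hw)
  have h5 : w.im ^ (1 / 4 : ℝ) ≤ (-1 / w).im ^ (1 / 4 : ℝ) := by
    apply Real.rpow_le_rpow hw.le _ (by norm_num)
    rw [im_neg_inv, le_div_iff₀ (by positivity)]
    nlinarith
  have hwr : 0 ≤ w.im ^ (1 / 4 : ℝ) := Real.rpow_nonneg hw.le _
  unfold bb
  calc w.im ^ (1 / 4 : ℝ) * ‖M w‖ = w.im ^ (1 / 4 : ℝ) * ‖sl ε M w + Q w‖ := by rw [← h1]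
    _ ≤ w.im ^ (1 / 4 : ℝ) * (‖sl ε M w‖ + ‖Q w‖) := by gcongr; exact norm_add_le _ _
    _ = w.im ^ (1 / 4 : ℝ) * ‖sl ε M w‖ + w.im ^ (1 / 4 : ℝ) * ‖Q w‖ := by ring
    _ ≤ (-1 / w).im ^ (1 / 4 : ℝ) * ‖M (-1 / w)‖ +
        w.im ^ (1 / 4 : ℝ) * (C * ‖w ^ 2 - 1‖ * (1 + ‖J w‖)) := by
        rw [h3]; gcongr
    _ = (-1 / w).im ^ (1 / 4 : ℝ) * ‖M (-1 / w)‖ +
        C * ‖w ^ 2 - 1‖ * (w.im ^ (1 / 4 : ℝ) + w.im ^ (1 / 4 : ℝ) * ‖J w‖) := by ring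
    _ ≤ (-1 / w).im ^ (1 / 4 : ℝ) * ‖M (-1 / w)‖ +
        C * ‖w ^ 2 - 1‖ * ((-1 / w).im ^ (1 / 4 : ℝ) + (-1 / w).im ^ (1 / 4 : ℝ)) := by
        rw [h4]; gcongr
    _ = _ := by ring

theorem exists_reduce_two (w : ℂ) : ∃ (k : ℤ) (v : ℂ), w = v + ((2 * k : ℤ) : ℂ) ∧
    v.im = w.im ∧ |v.re| ≤ 1 := by
  refine ⟨⌊(w.re + 1) / 2⌋, w - ((2 * ⌊(w.re + 1) / 2⌋ : ℤ) : ℂ), by ring, by simp, ?_⟩
  have h1 := Int.floor_le ((w.re + 1) / 2)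
  have h2 := Int.lt_floor_add_one ((w.re + 1) / 2)
  rw [Complex.sub_re, Complex.intCast_re, abs_le]
  push_cast
  constructor <;> linarith

theorem main_bound {ε : ℂ} (hε1 : ‖ε‖ = 1) {M Q : ℂ → ℂ} {C B1 B2 : ℝ}
    (hC : 0 < C) (hB1 : 0 < B1) (hB2 : 0 < B2)
    (hper : ∀ w, M (w + 2) = M w)
    (heq : ∀ w : ℂ, 0 < w.im → M w = sl ε M w + Q w)
    (hQ : ∀ w : ℂ, 0 < w.im → ‖Q w‖ ≤ C * ‖w ^ 2 - 1‖ * (1 + ‖J w‖))
    (hb1 : ∀ w : ℂ, 1 ≤ w.im → ‖M w‖ ≤ B1)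
    (hb2 : ∀ z : ℂ, 1 / 2 ≤ z.im → ‖loc M z‖ ≤ B2 * z.im ^ (-(1 / 4) : ℝ)) :
    ∀ (n : ℕ) (w : ℂ), 0 < w.im → (Sset w).ncard ≤ n →
      bb M w + 24 * C * w.im ^ (1 / 4 : ℝ) ≤
        (B1 + B2 + 28 * C) * (1 + Hs w ^ (1 / 4 : ℝ)) := by
  intro n
  induction n using Nat.strong_induction_on with
  | _ n ih =>
  intro w0 hw0 hn0
  obtain ⟨k, w, hk, hwim, hre⟩ := exists_reduce_two w0
  have hw : 0 < w.im := by rw [hwim]; exact hw0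
  rw [hk, bb_add hper, Hs_add]
  have him2 : (w + ((2 * k : ℤ) : ℂ)).im = w.im := by simp
  rw [him2]
  have hn : (Sset w).ncard ≤ n := by
    rw [← Sset_add w (2 * k), ← hk]; exact hn0
  have hH : w.im ^ (1 / 4 : ℝ) ≤ Hs w ^ (1 / 4 : ℝ) :=
    Real.rpow_le_rpow hw.le (im_le_Hs hw) (by norm_num)
  have hHn : 0 ≤ Hs w ^ (1 / 4 : ℝ) := Real.rpow_nonneg (Hs_pos hw).le _
  have hyn : 0 ≤ w.im ^ (1 / 4 : ℝ) := Real.rpow_nonneg hw.le _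
  -- good cases
  by_cases hA : 1 ≤ w.im
  · have h1 : bb M w ≤ B1 * Hs w ^ (1 / 4 : ℝ) := by
      unfold bb
      calc w.im ^ (1 / 4 : ℝ) * ‖M w‖ ≤ w.im ^ (1 / 4 : ℝ) * B1 := by gcongr; exact hb1 w hA
        _ = B1 * w.im ^ (1 / 4 : ℝ) := by ring
        _ ≤ _ := by gcongr
    have h2 : 24 * C * w.im ^ (1 / 4 : ℝ) ≤ 24 * C * Hs w ^ (1 / 4 : ℝ) := by gcongr
    nlinarith [mul_nonneg hB2.le hHn, mul_nonneg hC.le hHn, mul_nonneg hB1.le hHn]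
  push Not at hA
  have hgood : ∀ v : ℂ, 0 < v.im → v.im = w.im → bb M v = bb M w → ‖v - 1‖ ^ 2 ≤ 2 * v.im →
      bb M w + 24 * C * w.im ^ (1 / 4 : ℝ) ≤
        (B1 + B2 + 28 * C) * (1 + Hs w ^ (1 / 4 : ℝ)) := by
    intro v hv _ hvb hd
    have h1 := bb_cusp hb2 hv hd
    rw [hvb] at h1
    have h2 : 24 * C * w.im ^ (1 / 4 : ℝ) ≤ 24 * C * Hs w ^ (1 / 4 : ℝ) := by gcongr
    nlinarith [mul_nonneg hB2.le hHn, mul_nonneg hC.le hHn, mul_nonneg hB1.le hHn]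
  by_cases hp : ‖w - 1‖ ^ 2 ≤ 2 * w.im
  · exact hgood w hw rfl rfl hp
  by_cases hm : ‖w + 1‖ ^ 2 ≤ 2 * w.im
  · refine hgood (w + ((2 * 1 : ℤ) : ℂ)) (by simpa using hw) (by simp) (bb_add hper w 1) ?_
    have e : w + ((2 * 1 : ℤ) : ℂ) - 1 = w + 1 := by push_cast; ring
    rw [e]
    simpa using hm
  push Not at hp hm
  have hlt := geom_one hw hA hre hp hm
  have hnn := norm_nonneg w
  have hn1 : ‖w‖ < 1 := by nlinarith
  have hnpos : 0 < ‖w‖ := norm_pos_iff.mpr (ne_zero_of_im_pos hw)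
  have hstep := step_bound hε1 heq hQ hC hw hlt
  set w' : ℂ := -1 / w with hw'
  have hw'0 : 0 < w'.im := im_neg_inv_pos hw
  have hw'n : 0 ≤ w'.im ^ (1 / 4 : ℝ) := Real.rpow_nonneg hw'0.le _
  have hHw' : Hs w' = Hs w := Hs_inv hw
  have hH' : w'.im ^ (1 / 4 : ℝ) ≤ Hs w ^ (1 / 4 : ℝ) := by
    rw [← hHw']
    exact Real.rpow_le_rpow hw'0.le (im_le_Hs hw'0) (by norm_num)
  by_cases hy' : 1 ≤ w'.im
  · -- final step
    have h1 : bb M w' ≤ B1 * Hs w ^ (1 / 4 : ℝ) := by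
      unfold bb
      calc w'.im ^ (1 / 4 : ℝ) * ‖M w'‖ ≤ w'.im ^ (1 / 4 : ℝ) * B1 := by
            gcongr; exact hb1 w' hy'
        _ = B1 * w'.im ^ (1 / 4 : ℝ) := by ring
        _ ≤ _ := by gcongr
    have h2 : ‖w ^ 2 - 1‖ ≤ 2 := by
      calc ‖w ^ 2 - 1‖ ≤ ‖w ^ 2‖ + ‖(1 : ℂ)‖ := norm_sub_le _ _
        _ ≤ 2 := by rw [norm_pow, norm_one]; linarith
    have h3 : 2 * C * ‖w ^ 2 - 1‖ * w'.im ^ (1 / 4 : ℝ) ≤ 4 * C * Hs w ^ (1 / 4 : ℝ) := by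
      calc 2 * C * ‖w ^ 2 - 1‖ * w'.im ^ (1 / 4 : ℝ) ≤ 2 * C * 2 * Hs w ^ (1 / 4 : ℝ) := by
            gcongr
        _ = _ := by ring
    have h4 : 24 * C * w.im ^ (1 / 4 : ℝ) ≤ 24 * C * Hs w ^ (1 / 4 : ℝ) := by gcongr
    nlinarith [mul_nonneg hB2.le hHn, mul_nonneg hC.le hHn, mul_nonneg hB1.le hHn]
  · -- intermediate step
    push Not at hy'
    have hq : w.im < ‖w‖ ^ 2 := by
      rw [hw', im_neg_inv, div_lt_one (by positivity)] at hy'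
      exact hy'
    have hg := geom_two hw hA hre hp hm hq
    have hcard : (Sset w').ncard < (Sset w).ncard := Sset_inv hw hn1
    have hih := ih (Sset w').ncard (by omega) w' hw'0 le_rfl
    rw [hHw'] at hih
    have hrel : w.im ^ (1 / 4 : ℝ) = w'.im ^ (1 / 4 : ℝ) * ‖w‖ ^ (1 / 2 : ℝ) := by
      have h4 := im_rpow_mul_norm_J hw
      rw [norm_J, Real.rpow_neg hnpos.le] at h4
      rw [← hw'] at h4
      rw [← h4]
      have : 0 < ‖w‖ ^ (1 / 2 : ℝ) := Real.rpow_pos_of_pos hnpos _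
      field_simp
    have h5 : 2 * C * ‖w ^ 2 - 1‖ * w'.im ^ (1 / 4 : ℝ) ≤
        24 * C * (w'.im ^ (1 / 4 : ℝ) - w.im ^ (1 / 4 : ℝ)) := by
      rw [hrel]
      calc 2 * C * ‖w ^ 2 - 1‖ * w'.im ^ (1 / 4 : ℝ)
          ≤ 2 * C * (12 * (1 - ‖w‖ ^ (1 / 2 : ℝ))) * w'.im ^ (1 / 4 : ℝ) := by gcongr
        _ = _ := by ring
    linarith

end Pool.Agent.Helper45.FU
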