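import Pool.Agent.Helper45.FU.Coeff

/-!
# Superposition of Gaussians along a circle
-/

open Complex Filter Topology MeasureTheory

namespace Pool.Agent.Helper45.FU

theorem hasSum_integral_of_bound {α ι : Type*} [MeasurableSpace α] [Countable ι]
    {μ : Measure α} [IsFiniteMeasure μ] {F : ι → α → ℂ} {f : α → ℂ} {u : ι → ℝ} (hu : Summable u)
    (hmeas : ∀ i, AEStronglyMeasurable (F i) μ) (hb : ∀ i a, ‖F i a‖ ≤ u i)
    (hs : ∀ a, HasSum (fun i => F i a) (f a)) :
    HasSum (fun i => ∫ a, F i a ∂μ) (∫ a, f a ∂μ) :=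
  hasSum_integral_of_dominated_convergence (fun i _ => u i) hmeas
    (fun i => Eventually.of_forall (hb i)) (Eventually.of_forall fun _ => hu)
    (integrable_const _) (Eventually.of_forall hs)

/-- the measure on the parameter circle -/
noncomputable def mc : Measure ℝ := volume.restrict (Set.Ioc 0 (2 * Real.pi))

instance : IsFiniteMeasure mc := by
  unfold mc
  infer_instance

theorem integral_mc (f : ℝ → ℂ) : ∫ t, f t ∂mc = ∫ t in (0 : ℝ)..(2 * Real.pi), f t := by
  unfold mc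
  rw [intervalIntegral.integral_of_le (by positivity)]

theorem circle_exp (A : ℂ) (j : ℕ) :
    ∫ θ, cexp (A * cexp (θ * I)) * cexp (-(j * (θ * I))) ∂mc =
      2 * Real.pi * (A ^ j / j.factorial) := by
  rw [integral_mc]
  have hd : Differentiable ℂ (fun z : ℂ => cexp (A * z)) := by fun_prop
  have h := DifferentiableOn.circleIntegral_one_div_sub_center_pow_smul (c := 0) (R := 1)
    one_pos j (f := fun z : ℂ => cexp (A * z)) hd.differentiableOn
  rw [iteratedDeriv_cexp_const_mul] at h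
  unfold circleIntegral at h
  simp only [deriv_circleMap, smul_eq_mul, mul_zero, Complex.exp_zero, mul_one, sub_zero] at h
  have h1 : ∫ θ in (0 : ℝ)..(2 * Real.pi), circleMap 0 1 θ * I *
      (1 / circleMap 0 1 θ ^ (j + 1) * cexp (A * circleMap 0 1 θ)) =
      I * ∫ θ in (0 : ℝ)..(2 * Real.pi), cexp (A * cexp (θ * I)) * cexp (-(j * (θ * I))) := by
    rw [← intervalIntegral.integral_const_mul]
    refine intervalIntegral.integral_congr fun θ _ => ?_
    have hne : cexp (θ * I) ≠ 0 := Complex.exp_ne_zero _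
    simp only [circleMap, zero_add, ofReal_one, one_mul]
    rw [Complex.exp_neg, Complex.exp_nat_mul]
    field_simp
    ring
  rw [h1] at h
  have hI : I ≠ 0 := I_ne_zero
  have h2 : I * (∫ θ in (0 : ℝ)..(2 * Real.pi), cexp (A * cexp (θ * I)) * cexp (-(j * (θ * I)))) =
      I * (2 * Real.pi * (A ^ j / j.factorial)) := by
    rw [h]; ring
  exact mul_left_cancel₀ hI h2

/-- the density on the circle -/
noncomputable def Wd (φ : ℕ → ℂ) (θ : ℝ) : ℂ := ∑' j : ℕ, φ j * cexp (-(j * (θ * I)))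

theorem norm_exp_nat (j : ℕ) (θ : ℝ) : ‖cexp (-(j * (θ * I)))‖ = 1 := by
  have : (-(j * (θ * I)) : ℂ) = ((-(j * θ) : ℝ) : ℂ) * I := by push_cast; ring
  rw [this, Complex.norm_exp_ofReal_mul_I]

theorem hasSum_Wd {φ : ℕ → ℂ} (hφ : Summable fun j => ‖φ j‖) (θ : ℝ) :
    HasSum (fun j : ℕ => φ j * cexp (-(j * (θ * I)))) (Wd φ θ) := by
  refine Summable.hasSum (Summable.of_norm ?_)
  refine hφ.congr fun j => ?_
  rw [norm_mul, norm_exp_nat, mul_one]

theorem continuous_Wd {φ : ℕ → ℂ} (hφ : Summable fun j => ‖φ j‖) : Continuous (Wd φ) := by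
  unfold Wd
  refine continuous_tsum (fun j => by fun_prop) hφ fun j θ => ?_
  rw [norm_mul, norm_exp_nat, mul_one]

theorem norm_Wd_le {φ : ℕ → ℂ} (hφ : Summable fun j => ‖φ j‖) (θ : ℝ) :
    ‖Wd φ θ‖ ≤ ∑' j, ‖φ j‖ := by
  unfold Wd
  refine tsum_of_norm_bounded hφ.hasSum fun j => ?_
  rw [norm_mul, norm_exp_nat, mul_one]

theorem circle_superposition {φ : ℕ → ℂ} (hφ : Summable fun j => ‖φ j‖) (A : ℂ) :
    HasSum (fun j : ℕ => 2 * Real.pi * (φ j * A ^ j / j.factorial))
      (∫ θ, cexp (A * cexp (θ * I)) * Wd φ θ ∂mc) := by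
  have hbound : ∀ θ : ℝ, ‖cexp (A * cexp (θ * I))‖ ≤ Real.exp ‖A‖ := by
    intro θ
    refine (Complex.norm_exp_le_exp_norm _).trans ?_
    rw [norm_mul, Complex.norm_exp_ofReal_mul_I, mul_one]
  have h := hasSum_integral_of_bound (μ := mc) (u := fun j => Real.exp ‖A‖ * ‖φ j‖)
    (F := fun (j : ℕ) (θ : ℝ) => cexp (A * cexp (θ * I)) * (φ j * cexp (-(j * (θ * I)))))
    (f := fun θ => cexp (A * cexp (θ * I)) * Wd φ θ) (hφ.mul_left _)
    (fun j => by
      have : Continuous fun θ : ℝ => cexp (A * cexp (θ * I)) * (φ j * cexp (-(j * (θ * I)))) := by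
        fun_prop
      exact this.aestronglyMeasurable)
    (fun j θ => by
      rw [norm_mul, norm_mul, norm_exp_nat, mul_one]
      gcongr
      exact hbound θ)
    (fun θ => (hasSum_Wd hφ θ).mul_left _)
  refine h.congr_fun ?_
  intro j
  have h2 := circle_exp A j
  rw [show (fun θ : ℝ => cexp (A * cexp (θ * I)) * (φ j * cexp (-(j * (θ * I))))) =
    fun θ : ℝ => φ j * (cexp (A * cexp (θ * I)) * cexp (-(j * (θ * I)))) by ext θ; ring,
    integral_const_mul, h2]
  ring

/-- the coefficients giving the hyperbolic cosine -/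
noncomputable def ph (r β : ℝ) (j : ℕ) : ℂ :=
  (j.factorial : ℂ) / ((2 * j).factorial : ℂ) * (4 * Real.pi ^ 2 * β ^ 2) ^ j /
    (Real.pi * I * r) ^ j

theorem summable_ph {r : ℝ} (hr : 0 < r) (β : ℝ) : Summable fun j => ‖ph r β j‖ := by
  have hpi := Real.pi_pos
  set ρ : ℝ := 4 * Real.pi ^ 2 * β ^ 2 / (Real.pi * r) with hρ
  have hρ0 : 0 ≤ ρ := by positivity
  refine Summable.of_nonneg_of_le (fun j => norm_nonneg _) (fun j => ?_)
    (Real.summable_pow_div_factorial ρ)
  have h1 : ‖ph r β j‖ = (j.factorial : ℝ) / ((2 * j).factorial : ℝ) * ρ ^ j := by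
    unfold ph
    rw [norm_div, norm_mul, norm_div, norm_pow, norm_pow, norm_mul, norm_mul, norm_mul, norm_mul,
      norm_I, hρ, div_pow]
    simp only [Complex.norm_natCast, Complex.norm_real, norm_pow, Real.norm_eq_abs, mul_one,
      abs_of_pos hpi, abs_of_pos hr, sq_abs, Complex.norm_ofNat]
    ring
  rw [h1]
  have hf : (0 : ℝ) < j.factorial := by exact_mod_cast j.factorial_pos
  have h2 : (j.factorial : ℝ) / ((2 * j).factorial : ℝ) ≤ 1 / j.factorial := by
    rw [div_le_div_iff₀ (by exact_mod_cast (2 * j).factorial_pos) hf, one_mul]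
    have : j.factorial * j.factorial ≤ (2 * j).factorial := by
      have := Nat.factorial_mul_factorial_dvd_factorial_add j j
      have h3 := Nat.le_of_dvd (Nat.factorial_pos _) this
      rwa [← two_mul] at h3
    exact_mod_cast this
  calc (j.factorial : ℝ) / ((2 * j).factorial : ℝ) * ρ ^ j ≤ 1 / j.factorial * ρ ^ j := by gcongr
    _ = _ := by ring

/-- the point on the circle -/
noncomputable def wc (a r θ : ℝ) : ℂ := a * I + r * cexp (θ * I)

theorem cosh_superposition {r : ℝ} (hr : 0 < r) (a β : ℝ) {t : ℝ} (ht : 0 ≤ t) :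
    ∫ θ, cexp (Real.pi * I * wc a r θ * t) * Wd (ph r β) θ ∂mc =
      2 * Real.pi * (cexp (-(Real.pi * a * t)) * Complex.cosh (2 * Real.pi * β * √t)) := by
  have hpi := Real.pi_pos
  have h1 := circle_superposition (summable_ph hr β) (Real.pi * I * r * t)
  have h2 : HasSum (fun j : ℕ => 2 * Real.pi * (ph r β j * (Real.pi * I * r * t) ^ j / j.factorial))
      (2 * Real.pi * Complex.cosh (2 * Real.pi * β * √t)) := by
    have h3 := (Complex.hasSum_cosh (2 * Real.pi * β * √t)).mul_left (2 * Real.pi : ℂ)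
    refine h3.congr_fun ?_
    intro j
    have hf : (j.factorial : ℂ) ≠ 0 := by exact_mod_cast j.factorial_ne_zero
    have hst : ((√t : ℝ) : ℂ) ^ 2 = t := by exact_mod_cast Real.sq_sqrt ht
    have hne : (Real.pi * I * r : ℂ) ≠ 0 := by
      simp [hpi.ne', hr.ne']
    unfold ph
    have e : (2 * Real.pi * β * ((√t : ℝ) : ℂ)) ^ 2 = (4 * Real.pi ^ 2 * β ^ 2) * t := by
      rw [mul_pow, hst]; ring
    rw [mul_pow (Real.pi * I * r : ℂ), pow_mul, e, mul_pow (4 * Real.pi ^ 2 * β ^ 2 : ℂ) (t : ℂ)]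
    have hne2 : (Real.pi * I * r : ℂ) ^ j ≠ 0 := pow_ne_zero _ hne
    field_simp
  have h4 := h1.unique h2
  have e5 : ∀ θ : ℝ, cexp (Real.pi * I * wc a r θ * t) * Wd (ph r β) θ =
      cexp (-(Real.pi * a * t)) * (cexp (Real.pi * I * r * t * cexp (θ * I)) * Wd (ph r β) θ) := by
    intro θ
    rw [← mul_assoc, ← Complex.exp_add]
    congr 2
    unfold wc
    linear_combination (Real.pi * a * t : ℂ) * I_sq
  simp_rw [e5]
  rw [integral_const_mul, h4]
  ring

end Pool.Agent.Helper45.FU
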