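import Pool.Agent.Helper45.FU.QFun

/-!
# The cocycle attached to bottom rows
-/

open Complex

namespace Pool.Agent.Helper45.FU

/-- coprime pairs of opposite parity -/
def PP (c d : ℤ) : Prop := IsCoprime c d ∧ Odd (c + d)

/-- the centred remainder -/
def rr (c d : ℤ) : ℤ := Int.bmod d (2 * c.natAbs)

/-- the quotient -/
def kk (c d : ℤ) : ℤ := (d - rr c d) / (2 * c)

/-- the cocycle attached to a pair -/
noncomputable def CC (ε : ℂ) (Q : ℂ → ℂ) (c d : ℤ) : ℂ → ℂ :=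
  if _h : (rr c d).natAbs < c.natAbs then
    fun w => sl ε (CC ε Q (-(rr c d)) c) (w + (2 * kk c d : ℤ)) + Q (w + (2 * kk c d : ℤ))
  else fun _ => 0
termination_by c.natAbs
decreasing_by simpa using _h

theorem rr_eq {c d0 k : ℤ} (h : d0.natAbs < c.natAbs) : rr c (d0 + 2 * k * c) = d0 := by
  unfold rr
  have h1 : ∃ s : ℤ, 2 * k * c = ((2 * c.natAbs : ℕ) : ℤ) * s := by
    rcases Int.natAbs_eq c with hc | hc
    · refine ⟨k, ?_⟩
      push_cast
      rw [Int.natCast_natAbs] at hc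
      rw [← hc]
      ring
    · refine ⟨-k, ?_⟩
      push_cast
      rw [Int.natCast_natAbs] at hc
      have : |c| = -c := by linarith
      rw [this]
      ring
  obtain ⟨s, hs⟩ := h1
  rw [hs, Int.add_mul_bmod_self_left]
  apply Int.bmod_eq_of_le <;> simp only [Nat.cast_mul, Nat.cast_ofNat] <;> omega

theorem kk_eq {c d0 k : ℤ} (h : d0.natAbs < c.natAbs) : kk c (d0 + 2 * k * c) = k := by
  unfold kk
  rw [rr_eq h]
  have hc : 2 * c ≠ 0 := by omega
  have : d0 + 2 * k * c - d0 = k * (2 * c) := by ring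
  rw [this, Int.mul_ediv_cancel _ hc]

theorem CC_eq (ε : ℂ) (Q : ℂ → ℂ) {c d0 k : ℤ} (h : d0.natAbs < c.natAbs) (w : ℂ) :
    CC ε Q c (d0 + 2 * k * c) w =
      sl ε (CC ε Q (-d0) c) (w + (2 * k : ℤ)) + Q (w + (2 * k : ℤ)) := by
  rw [CC, rr_eq h, kk_eq h, dif_pos h]

theorem CC_zero (ε : ℂ) (Q : ℂ → ℂ) (d : ℤ) (w : ℂ) : CC ε Q 0 d w = 0 := by
  rw [CC, dif_neg (by simp)]

theorem exists_decomp {c d : ℤ} (hc : c ≠ 0) (h : PP c d) :
    ∃ d0 k : ℤ, d = d0 + 2 * k * c ∧ d0.natAbs < c.natAbs := by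
  have hpos : 0 < 2 * c.natAbs := by omega
  have h1 := Int.bmod_lt (x := d) hpos
  have h2 := Int.le_bmod (x := d) hpos
  have h3 := Int.bmod_add_bdiv d (2 * c.natAbs)
  set r := Int.bmod d (2 * c.natAbs) with hr
  set q := Int.bdiv d (2 * c.natAbs) with hq
  push_cast at h1 h2 h3
  have hk : ∃ k : ℤ, 2 * |c| * q = 2 * k * c := by
    rcases abs_choice c with h | h
    · exact ⟨q, by rw [h]; ring⟩
    · exact ⟨-q, by rw [h]; ring⟩
  obtain ⟨k, hk⟩ := hk
  refine ⟨r, k, by rw [← hk]; exact h3.symm, ?_⟩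
  by_contra hcon
  have hcabs : |c| = (c.natAbs : ℤ) := (Int.natCast_natAbs c).symm
  have hr2 : r = -|c| := by omega
  have hdvd : c ∣ d := by
    rw [← h3, hr2]
    exact (Dvd.dvd.neg_right (by exact (dvd_abs c c).mpr dvd_rfl)).add
      ⟨2 * k, by rw [hk]; ring⟩
  have hunit : IsUnit c := h.1.isUnit_of_dvd' dvd_rfl hdvd
  have hc1 : |c| = 1 := Int.isUnit_iff_abs_eq.mp hunit
  have hodd := h.2
  rw [← h3, hr2, hk, hc1] at hodd
  rcases (abs_eq (by norm_num : (0 : ℤ) ≤ 1)).mp hc1 with h' | h' <;> rw [h'] at hodd <;>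
    · obtain ⟨m, hm⟩ := hodd
      omega

theorem PP.neg {c d : ℤ} (h : PP c d) : PP (-c) (-d) :=
  ⟨h.1.neg_left.neg_right, by
    have := h.2.neg
    rwa [neg_add] at this⟩

theorem PP.swap {c d : ℤ} (h : PP c d) : PP (-d) c :=
  ⟨h.1.symm.neg_left, by
    obtain ⟨m, hm⟩ := h.2
    exact ⟨m - d, by linarith⟩⟩

theorem PP.swap' {c d : ℤ} (h : PP c d) : PP d (-c) := by
  have := h.swap.neg
  rwa [neg_neg] at this

theorem PP.add {c d : ℤ} (k : ℤ) (h : PP c d) : PP c (d + 2 * k * c) :=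
  ⟨by
    have := h.1
    exact (IsCoprime.add_mul_right_right_iff (z := 2 * k)).mpr this, by
    obtain ⟨m, hm⟩ := h.2
    exact ⟨m + k * c, by linarith⟩⟩

theorem PP.of_add {c d : ℤ} (k : ℤ) (h : PP c (d + 2 * k * c)) : PP c d := by
  have := h.add (-k)
  have e : d + 2 * k * c + 2 * -k * c = d := by ring
  rwa [e] at this

theorem PP.ne_zero {c d : ℤ} (h : PP c d) : (c, d) ≠ 0 := by
  intro h0
  have h1 : c = 0 := congrArg Prod.fst h0
  have h2 : d = 0 := congrArg Prod.snd h0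
  have := h.2
  rw [h1, h2] at this
  simp at this

theorem CC_add (ε : ℂ) (Q : ℂ → ℂ) {c d : ℤ} (h : PP c d) (w : ℂ) (m : ℤ) :
    CC ε Q c (d + 2 * m * c) w = CC ε Q c d (w + (2 * m : ℤ)) := by
  by_cases hc : c = 0
  · rw [hc, CC_zero, CC_zero]
  · obtain ⟨d0, k, hd, h0⟩ := exists_decomp hc h
    have e : d + 2 * m * c = d0 + 2 * (k + m) * c := by rw [hd]; ring
    rw [e, CC_eq ε Q h0, hd, CC_eq ε Q h0]
    have e2 : w + ((2 * (k + m) : ℤ) : ℂ) = w + ((2 * m : ℤ) : ℂ) + ((2 * k : ℤ) : ℂ) := by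
      push_cast; ring
    rw [e2]

theorem CC_neg (ε : ℂ) (Q : ℂ → ℂ) : ∀ (n : ℕ) {c d : ℤ}, c.natAbs ≤ n → PP c d → ∀ w : ℂ,
    CC ε Q (-c) (-d) w = CC ε Q c d w := by
  intro n
  induction n with
  | zero =>
    intro c d hn _ w
    have hc : c = 0 := by omega
    rw [hc, neg_zero, CC_zero, CC_zero]
  | succ n ih =>
    intro c d hn h w
    by_cases hc : c = 0
    · rw [hc, neg_zero, CC_zero, CC_zero]
    · obtain ⟨d0, k, hd, h0⟩ := exists_decomp hc h
      have h1 : (-d0).natAbs < (-c).natAbs := by omega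
      have e : -d = -d0 + 2 * k * (-c) := by rw [hd]; ring
      have hP : PP (-d0) c := by
        rw [hd] at h
        exact (h.of_add k).swap
      have e3 : CC ε Q (-(-d0)) (-c) = CC ε Q (-d0) c := by
        ext v
        exact ih (by omega) hP v
      rw [e, CC_eq ε Q h1, hd, CC_eq ε Q h0, e3]

theorem CC_swap {ε : ℂ} (hε : ε * ε = 1) {Q : ℂ → ℂ}
    (hQ : ∀ w : ℂ, 0 < w.im → sl ε Q w = -Q w) {c d : ℤ} (h : PP c d) {w : ℂ} (hw : 0 < w.im) :
    CC ε Q d (-c) w = sl ε (CC ε Q c d) w + Q w := by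
  rcases lt_trichotomy c.natAbs d.natAbs with hlt | heq | hgt
  · have h1 : (-c).natAbs < d.natAbs := by omega
    have := CC_eq ε Q (c := d) (d0 := -c) (k := 0) h1 w
    simpa using this
  · exfalso
    have hdvd : c ∣ d := Int.natAbs_dvd_natAbs.mp (by rw [heq])
    have hunit : IsUnit c := h.1.isUnit_of_dvd' dvd_rfl hdvd
    have hc1 : c.natAbs = 1 := Int.isUnit_iff_natAbs_eq.mp hunit
    obtain ⟨m, hm⟩ := h.2
    omega
  · have h1 := CC_eq ε Q (c := c) (d0 := d) (k := 0) hgt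
    simp only [mul_zero, zero_mul, add_zero, Int.cast_zero] at h1
    have h2 : CC ε Q d (-c) w = CC ε Q (-d) c w := by
      have := CC_neg ε Q _ (le_refl d.natAbs) (h.swap') w
      rw [neg_neg] at this
      exact this.symm
    have h3 := hQ w hw
    have hJ := J_mul_J hw
    rw [h2]
    unfold sl at h3 ⊢
    rw [h1]
    unfold sl
    rw [neg_inv_neg_inv]
    linear_combination -h3 - (J w * J (-1 / w) * CC ε Q (-d) c w) * hε -
      (CC ε Q (-d) c w) * hJ

theorem CC_bound {ε : ℂ} (hε : ‖ε‖ = 1) {Q : ℂ → ℂ} {q : ℝ} (hq : 0 ≤ q)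
    (hQ : ∀ w : ℂ, 0 < w.im → w.im ^ (1 / 4 : ℝ) * ‖Q w‖ ≤ q * Hs w ^ (1 / 4 : ℝ)) :
    ∀ (n : ℕ) {c d : ℤ}, c.natAbs ≤ n → PP c d → ∀ w : ℂ, 0 < w.im →
    w.im ^ (1 / 4 : ℝ) * ‖CC ε Q c d w‖ ≤ q * |(c : ℝ)| * Hs w ^ (1 / 4 : ℝ) := by
  intro n
  induction n with
  | zero =>
    intro c d hn _ w hw
    have hc : c = 0 := by omega
    rw [hc, CC_zero]
    simp
  | succ n ih =>
    intro c d hn h w hw
    by_cases hc : c = 0
    · rw [hc, CC_zero]; simp
    · obtain ⟨d0, k, hd, h0⟩ := exists_decomp hc h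
      have hP : PP (-d0) c := by
        rw [hd] at h
        exact (h.of_add k).swap
      rw [hd, CC_eq ε Q h0]
      set v : ℂ := w + ((2 * k : ℤ) : ℂ) with hv
      have hvim : v.im = w.im := by rw [hv]; simp
      have hv0 : 0 < v.im := by rw [hvim]; exact hw
      have hHs : Hs v = Hs w := Hs_add w (2 * k)
      rw [← hvim]
      have e1 := im_rpow_mul_norm_sl hε (φ := CC ε Q (-d0) c) hv0
      have e2 := ih (by omega) hP (-1 / v) (im_neg_inv_pos hv0)
      rw [Hs_inv hv0, hHs] at e2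
      have e3 := hQ v hv0
      rw [hHs] at e3
      have hle : |((-d0 : ℤ) : ℝ)| + 1 ≤ |(c : ℝ)| := by
        have : |(-d0)| + 1 ≤ |c| := by
          rw [Int.abs_eq_natAbs, Int.abs_eq_natAbs]; omega
        exact_mod_cast this
      have hH := Real.rpow_nonneg (Hs_pos hw).le (1 / 4 : ℝ)
      have hvr := Real.rpow_nonneg hv0.le (1 / 4 : ℝ)
      calc v.im ^ (1 / 4 : ℝ) * ‖sl ε (CC ε Q (-d0) c) v + Q v‖
          ≤ v.im ^ (1 / 4 : ℝ) * (‖sl ε (CC ε Q (-d0) c) v‖ + ‖Q v‖) := by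
            gcongr; exact norm_add_le _ _
        _ = v.im ^ (1 / 4 : ℝ) * ‖sl ε (CC ε Q (-d0) c) v‖ + v.im ^ (1 / 4 : ℝ) * ‖Q v‖ := by
            ring
        _ ≤ q * |((-d0 : ℤ) : ℝ)| * Hs w ^ (1 / 4 : ℝ) + q * Hs w ^ (1 / 4 : ℝ) := by
            rw [e1]; exact add_le_add e2 e3
        _ = q * (|((-d0 : ℤ) : ℝ)| + 1) * Hs w ^ (1 / 4 : ℝ) := by ring
        _ ≤ _ := by gcongr

theorem differentiableOn_CC {ε : ℂ} {Q : ℂ → ℂ} (hQ : DifferentiableOn ℂ Q HH) :
    ∀ (n : ℕ) {c d : ℤ}, c.natAbs ≤ n → PP c d → DifferentiableOn ℂ (CC ε Q c d) HH := by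
  intro n
  induction n with
  | zero =>
    intro c d hn _
    have hc : c = 0 := by omega
    have : CC ε Q c d = fun _ => 0 := by ext w; rw [hc, CC_zero]
    rw [this]
    exact differentiableOn_const 0
  | succ n ih =>
    intro c d hn h
    by_cases hc : c = 0
    · have : CC ε Q c d = fun _ => 0 := by ext w; rw [hc, CC_zero]
      rw [this]
      exact differentiableOn_const 0
    · obtain ⟨d0, k, hd, h0⟩ := exists_decomp hc h
      have hP : PP (-d0) c := by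
        rw [hd] at h
        exact (h.of_add k).swap
      have e : CC ε Q c d = (fun w => sl ε (CC ε Q (-d0) c) w + Q w) ∘
          (fun w => w + ((2 * k : ℤ) : ℂ)) := by
        ext w
        rw [hd, CC_eq ε Q h0]
        rfl
      rw [e]
      refine DifferentiableOn.comp (t := HH)
        ((differentiableOn_sl (ih (by omega) hP)).add hQ) (by fun_prop) ?_
      intro w hw
      simpa [HH] using hw

end Pool.Agent.Helper45.FU
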