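import Pool.Agent.Helper45.FU.MeanSq

/-!
# The dual coefficients
-/

open Complex Filter Topology MeasureTheory
open UpperHalfPlane hiding I
open scoped MatrixGroups

namespace Pool.Agent.Helper45.FU

theorem sq_bound {v K h m : ℝ} (hv : 0 < v) (hh : 0 < h)
    (hb : v ^ (1 / 4 : ℝ) * m ≤ K * (1 + h ^ (1 / 4 : ℝ))) (hm : 0 ≤ m) :
    m ^ 2 ≤ 2 * K ^ 2 * v ^ (-(1 / 2) : ℝ) * (1 + h ^ (1 / 2 : ℝ)) := by
  have h1 : (v ^ (1 / 4 : ℝ) * m) ^ 2 ≤ (K * (1 + h ^ (1 / 4 : ℝ))) ^ 2 := by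
    have : 0 ≤ v ^ (1 / 4 : ℝ) * m := by positivity
    gcongr
  have e1 : (v ^ (1 / 4 : ℝ)) ^ 2 = v ^ (1 / 2 : ℝ) := by
    rw [← Real.rpow_natCast, ← Real.rpow_mul hv.le]; norm_num
  have e2 : (h ^ (1 / 4 : ℝ)) ^ 2 = h ^ (1 / 2 : ℝ) := by
    rw [← Real.rpow_natCast, ← Real.rpow_mul hh.le]; norm_num
  have hvp : 0 < v ^ (1 / 2 : ℝ) := Real.rpow_pos_of_pos hv _
  rw [mul_pow, e1] at h1
  have h2 : (K * (1 + h ^ (1 / 4 : ℝ))) ^ 2 ≤ 2 * K ^ 2 * (1 + h ^ (1 / 2 : ℝ)) := by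
    rw [← e2]
    nlinarith [sq_nonneg (1 - h ^ (1 / 4 : ℝ)), sq_nonneg K,
      mul_nonneg (sq_nonneg K) (sq_nonneg (1 - h ^ (1 / 4 : ℝ)))]
  rw [Real.rpow_neg hv.le]
  calc m ^ 2 = (v ^ (1 / 2 : ℝ) * m ^ 2) / v ^ (1 / 2 : ℝ) := by field_simp
    _ ≤ (2 * K ^ 2 * (1 + h ^ (1 / 2 : ℝ))) / v ^ (1 / 2 : ℝ) := by
        exact div_le_div_of_nonneg_right (h1.trans h2) hvp.le
    _ = _ := by ring

theorem integral_sq_le {F : ℂ → ℂ} {K : ℝ} (hK : 0 < K) (hF : DifferentiableOn ℂ F HH)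
    (hb : ∀ w : ℂ, 0 < w.im → w.im ^ (1 / 4 : ℝ) * ‖F w‖ ≤ K * (1 + Hs w ^ (1 / 4 : ℝ)))
    {v : ℝ} (hv : 0 < v) (hv1 : v ≤ 1) :
    ∫ u in (0 : ℝ)..2, ‖F (pt u v)‖ ^ 2 ≤ 56 * K ^ 2 * v ^ (-(1 / 2) : ℝ) := by
  have hcont : Continuous fun u => F (pt u v) :=
    hF.continuousOn.comp_continuous (continuous_pt v) (fun u => by
      change 0 < (pt u v).im
      rw [pt_im]; exact hv)
  have hc2 : Continuous fun u => ‖F (pt u v)‖ ^ 2 := hcont.norm.pow 2
  rw [intervalIntegral.integral_of_le (by norm_num),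
    integral_eq_lintegral_of_nonneg_ae (Eventually.of_forall fun u => by positivity)
      hc2.aestronglyMeasurable]
  apply ENNReal.toReal_le_of_le_ofReal (by positivity)
  calc ∫⁻ u in Set.Ioc (0 : ℝ) 2, ENNReal.ofReal (‖F (pt u v)‖ ^ 2)
      ≤ ∫⁻ u in Set.Ioc (0 : ℝ) 2, ENNReal.ofReal (2 * K ^ 2 * v ^ (-(1 / 2) : ℝ)) *
          (1 + ENNReal.ofReal (Hs (pt u v) ^ (1 / 2 : ℝ))) := by
        refine lintegral_mono fun u => ?_
        have him : 0 < (pt u v).im := by rw [pt_im]; exact hv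
        have h1 := hb (pt u v) him
        rw [pt_im] at h1
        have h2 := sq_bound hv (Hs_pos him) h1 (norm_nonneg _)
        have h3 : 0 ≤ Hs (pt u v) ^ (1 / 2 : ℝ) := Real.rpow_nonneg (Hs_pos him).le _
        rw [← ENNReal.ofReal_one, ← ENNReal.ofReal_add zero_le_one h3,
          ← ENNReal.ofReal_mul (by positivity)]
        exact ENNReal.ofReal_le_ofReal h2
    _ = ENNReal.ofReal (2 * K ^ 2 * v ^ (-(1 / 2) : ℝ)) * ((∫⁻ _u in Set.Ioc (0 : ℝ) 2, 1) +
          ∫⁻ u in Set.Ioc (0 : ℝ) 2, ENNReal.ofReal (Hs (pt u v) ^ (1 / 2 : ℝ))) := by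
        rw [lintegral_const_mul' _ _ ENNReal.ofReal_ne_top, lintegral_add_left measurable_const]
    _ ≤ ENNReal.ofReal (2 * K ^ 2 * v ^ (-(1 / 2) : ℝ)) * (ENNReal.ofReal 2 +
          ENNReal.ofReal 26) := by
        gcongr
        · simp
        · exact lintegral_Hs_le hv hv1
    _ = ENNReal.ofReal (56 * K ^ 2 * v ^ (-(1 / 2) : ℝ)) := by
        rw [← ENNReal.ofReal_add (by norm_num) (by norm_num), ← ENNReal.ofReal_mul (by positivity)]
        congr 1
        ring

theorem exists_dual {ε : ℂ} (hε : ε = 1 ∨ ε = -1) (x : ℝ) :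
    ∃ B : ℕ → ℂ, ∃ C : ℝ, 0 < C ∧
      (∀ v : ℝ, 0 < v → Summable fun n : ℕ => ‖B n‖ * Real.exp (-(Real.pi * n * v))) ∧
      (∀ w : ℂ, 0 < w.im → ∑' n : ℕ, B n * (cexp (Real.pi * I * w * n) +
          ε * J w * cexp (Real.pi * I * (-1 / w) * n)) =
        cexp (Real.pi * I * w * x ^ 2) + ε * J w * cexp (Real.pi * I * (-1 / w) * x ^ 2)) ∧
      (∀ v : ℝ, 0 < v → v ≤ 1 →
        (Summable fun n : ℕ => ‖B n‖ ^ 2 * Real.exp (-(2 * Real.pi * n * v))) ∧
        ∑' n : ℕ, ‖B n‖ ^ 2 * Real.exp (-(2 * Real.pi * n * v)) ≤ C * v ^ (-(1 / 2) : ℝ)) := by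
  obtain ⟨F, K, hK, hFd, hFper, hFeq, hFb, hFb4⟩ := exists_F hε x
  set f : ℍ → ℂ := fun τ => F τ with hf
  have hfper : Function.Periodic (f ∘ ofComplex) ((2 : ℝ) : ℂ) := by
    intro w
    by_cases hw : 0 < w.im
    · have h2 : 0 < (w + ((2 : ℝ) : ℂ)).im := by simpa using hw
      simp only [Function.comp_apply, ofComplex_apply_of_im_pos h2, ofComplex_apply_of_im_pos hw]
      have e : w + ((2 : ℝ) : ℂ) = w + 2 := by norm_num
      change F (w + ((2 : ℝ) : ℂ)) = F w
      rw [e, hFper]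
    · have h2 : (w + ((2 : ℝ) : ℂ)).im ≤ 0 := by simpa using hw
      simp only [Function.comp_apply, ofComplex_apply_of_im_nonpos h2,
        ofComplex_apply_of_im_nonpos (not_lt.mp hw)]
  have hfhol : MDifferentiable (modelWithCornersSelf ℂ ℂ) (modelWithCornersSelf ℂ ℂ) f := by
    rw [UpperHalfPlane.mdifferentiable_iff]
    refine DifferentiableOn.congr (f := F) hFd (fun z hz => ?_)
    simp [hf, ofComplex_apply_of_im_pos hz]
  have hfbdd : IsBoundedAtImInfty f := by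
    rw [isBoundedAtImInfty_iff]
    exact ⟨K, 1, fun z hz => hFb z hz⟩
  set B : ℕ → ℂ := fun n => (qExpansion 2 f).coeff n with hB
  have hsum : ∀ w : ℂ, 0 < w.im → HasSum (fun n : ℕ => B n * cexp (Real.pi * I * w * n)) (F w) := by
    intro w hw
    have h := hasSum_qExpansion two_pos hfper hfhol hfbdd ⟨w, hw⟩
    refine h.congr_fun ?_ |> fun h' => h'
    intro n
    simp only [smul_eq_mul, hB]
    congr 1
    simp only [Function.Periodic.qParam]
    rw [← Complex.exp_nat_mul]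
    congr 1
    change _ = (n : ℂ) * (2 * Real.pi * I * w / ((2 : ℝ) : ℂ))
    push_cast
    ring
  refine ⟨B, 28 * K ^ 2, by positivity, fun v hv => ?_, fun w hw => ?_, fun v hv hv1 => ?_⟩
  · have h := (hsum (pt 0 v) (by rw [pt_im]; exact hv)).summable.norm
    refine h.congr fun n => ?_
    rw [norm_mul, Complex.norm_exp]
    congr 2
    have : (Real.pi * I * pt 0 v * n : ℂ) = ((-(Real.pi * n * v) : ℝ) : ℂ) := by
      unfold pt
      push_cast
      linear_combination (Real.pi * v * n : ℂ) * I_sq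
    rw [this, Complex.ofReal_re]
  · have h1 := hsum w hw
    have h2 := (hsum (-1 / w) (im_neg_inv_pos hw)).mul_left (ε * J w)
    have h3 := h1.add h2
    rw [← hFeq w hw]
    have h4 : ε * J w * F (-1 / w) = ε * J w * F (-1 / w) := rfl
    rw [← h3.tsum_eq]
    refine tsum_congr fun n => ?_
    ring
  · have hcont : Continuous fun u => F (pt u v) :=
      hFd.continuousOn.comp_continuous (continuous_pt v) (fun u => by
        change 0 < (pt u v).im
        rw [pt_im]; exact hv)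
    obtain ⟨Bd, hBd, hbd⟩ := bounded_of_periodic (f := F) (h := 2) two_pos (fun w => by
      have e : w + ((2 : ℝ) : ℂ) = w + 2 := by norm_num
      rw [e, hFper]) hFd.continuousOn (A := 1) (B := K) hFb hv
    have hmem : MemLp (fun u => F (pt u v)) 2 (volume.restrict (Set.Ioc (0 : ℝ) 2)) :=
      MemLp.of_bound hcont.aestronglyMeasurable Bd (Eventually.of_forall fun u =>
        hbd _ (by rw [pt_im]))
    have hP := hasSum_sq_fourierCoeffOn (a := 0) (b := 2) two_pos hmem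
    have hcoef : ∀ n : ℕ, ‖B n‖ ^ 2 * Real.exp (-(2 * Real.pi * n * v)) =
        ‖fourierCoeffOn (two_pos : (0 : ℝ) < 2) (fun u => F (pt u v)) (n : ℤ)‖ ^ 2 := by
      intro n
      have h1 : B n = (Real.exp (Real.pi * n * v) : ℂ) *
          fourierCoeffOn (two_pos : (0 : ℝ) < 2) (fun u => F (pt u v)) (n : ℤ) := by
        simp only [hB]
        rw [qExpansion_coeff_eq_intervalIntegral two_pos hfper hfhol hfbdd n hv,
          fourierCoeffOn_eq_integral, ← intervalIntegral.integral_smul,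
          ← intervalIntegral.integral_const_mul, ← intervalIntegral.integral_const_mul]
        refine intervalIntegral.integral_congr fun u _ => ?_
        simp only [fourier_coe_apply, smul_eq_mul, real_smul]
        have e1 : (1 : ℂ) / Function.Periodic.qParam 2 (u + v * I) ^ n =
            (Real.exp (Real.pi * n * v) : ℂ) *
              cexp (2 * Real.pi * I * ((-(n : ℤ) : ℤ) : ℂ) * u / ((2 - 0 : ℝ) : ℂ)) := by
          unfold Function.Periodic.qParam
          rw [← Complex.exp_nat_mul, one_div, ← Complex.exp_neg, Complex.ofReal_exp,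
            ← Complex.exp_add]
          congr 1
          push_cast
          linear_combination (-(Real.pi * v * n : ℂ)) * I_sq
        change 1 / ((2 : ℝ) : ℂ) * (1 / Function.Periodic.qParam 2 (u + v * I) ^ n *
          F (u + v * I)) = _
        rw [e1]
        unfold pt
        push_cast
        ring
      rw [h1, norm_mul, mul_pow, Complex.norm_real, Real.norm_eq_abs, Real.abs_exp]
      have e2 : Real.exp (Real.pi * n * v) ^ 2 * Real.exp (-(2 * Real.pi * n * v)) = 1 := by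
        rw [← Real.exp_nat_mul, ← Real.exp_add]
        have : ((2 : ℕ) : ℝ) * (Real.pi * n * v) + -(2 * Real.pi * n * v) = 0 := by
          push_cast; ring
        rw [this, Real.exp_zero]
      calc _ = (Real.exp (Real.pi * n * v) ^ 2 * Real.exp (-(2 * Real.pi * n * v))) *
            ‖fourierCoeffOn (two_pos : (0 : ℝ) < 2) (fun u => F (pt u v)) (n : ℤ)‖ ^ 2 := by ring
        _ = _ := by rw [e2, one_mul]
    have hinj : Function.Injective (fun n : ℕ => (n : ℤ)) := Nat.cast_injective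
    constructor
    · exact (hP.summable.comp_injective hinj).congr fun n => (hcoef n).symm
    · rw [tsum_congr hcoef]
      have h1 := tsum_comp_le_tsum_of_inj hP.summable (fun n => by positivity) hinj
      have h2 := integral_sq_le hK hFd hFb4 hv hv1
      calc _ ≤ ∑' i : ℤ, ‖fourierCoeffOn (two_pos : (0 : ℝ) < 2) (fun u => F (pt u v)) i‖ ^ 2 := h1
        _ = (2 - 0 : ℝ)⁻¹ • ∫ u in (0 : ℝ)..2, ‖F (pt u v)‖ ^ 2 := hP.tsum_eq
        _ ≤ (2 - 0 : ℝ)⁻¹ • (56 * K ^ 2 * v ^ (-(1 / 2) : ℝ)) := by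
            simp only [smul_eq_mul]
            gcongr
        _ = _ := by simp only [smul_eq_mul]; ring

end Pool.Agent.Helper45.FU
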