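import Pool.Agent.Helper45.FU.HOne

/-!
# Local analysis at the second cusp
-/

open Complex Filter Topology

namespace Pool.Agent.Helper45.FU

/-- the local function at the second cusp -/
noncomputable def loc (φ : ℂ → ℂ) (z : ℂ) : ℂ := J z * φ (1 - 1 / z)

/-- the multiplier at the second cusp -/
noncomputable def chi (ε : ℂ) : ℂ := -(ε * J 1)

theorem im_add_one {z : ℂ} : (z + 1).im = z.im := by simp

theorem cusp_im {z : ℂ} (hz : 0 < z.im) : 0 < (1 - 1 / z).im := by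
  rw [cusp_point, im_add_one]
  exact im_neg_inv_pos hz

theorem quot_eq {z : ℂ} (hz : 0 < z.im) : z / (z + 1) = 1 - 1 / (z + 1) := by
  have h : z + 1 ≠ 0 := ne_zero_of_im_pos (by rw [im_add_one]; exact hz)
  field_simp
  ring

theorem quot_im {z : ℂ} (hz : 0 < z.im) : 0 < (z / (z + 1)).im := by
  rw [quot_eq hz]
  exact cusp_im (by rw [im_add_one]; exact hz)

theorem loc_add_one {ε : ℂ} {φ R : ℂ → ℂ} (hper : ∀ w, φ (w + 2) = φ w)
    (heq : ∀ w : ℂ, 0 < w.im → φ w = sl ε φ w + R w) {z : ℂ} (hz : 0 < z.im) :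
    loc φ (z + 1) = chi ε * loc φ z + J (z + 1) * R (z / (z + 1)) := by
  have h0 := ne_zero_of_im_pos hz
  have h1 : z + 1 ≠ 0 := ne_zero_of_im_pos (by rw [im_add_one]; exact hz)
  unfold loc chi
  rw [← quot_eq hz, heq _ (quot_im hz)]
  unfold sl
  have e1 : -1 / (z / (z + 1)) + 2 = 1 - 1 / z := by
    field_simp
    ring
  rw [← hper (-1 / (z / (z + 1))), e1]
  have h2 := J_cusp hz
  linear_combination (-(ε * φ (1 - 1 / z))) * h2

/-- the inhomogeneity at the second cusp -/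
noncomputable def qf (ε : ℂ) (x : ℝ) (z : ℂ) : ℂ :=
  -(J (z + 1) * Qt ε x (cz ε x) (z / (z + 1)))

theorem norm_J_le {z : ℂ} (hz : 0 < z.im) : ‖J (z / (z + 1))‖ ≤ 1 + 1 / z.im := by
  have h0 := ne_zero_of_im_pos hz
  have hn : 0 < ‖z‖ := norm_pos_iff.mpr h0
  have hle : z.im ≤ ‖z‖ := by
    calc z.im ≤ |z.im| := le_abs_self _
      _ ≤ _ := Complex.abs_im_le_norm z
  have h1 : z + 1 ≠ 0 := ne_zero_of_im_pos (by rw [im_add_one]; exact hz)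
  have hn1 : 0 < ‖z + 1‖ := norm_pos_iff.mpr h1
  rw [norm_J, norm_div, Real.rpow_neg (by positivity), ← Real.inv_rpow (by positivity), inv_div]
  have h2 : ‖z + 1‖ / ‖z‖ ≤ 1 + 1 / z.im := by
    rw [div_le_iff₀ hn]
    calc ‖z + 1‖ ≤ ‖z‖ + ‖(1 : ℂ)‖ := norm_add_le _ _
      _ = ‖z‖ + 1 := by rw [norm_one]
      _ ≤ ‖z‖ + 1 / z.im * ‖z‖ := by
          have : 1 ≤ 1 / z.im * ‖z‖ := by
            rw [div_mul_eq_mul_div, one_mul, le_div_iff₀ hz]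
            linarith
          linarith
      _ = _ := by ring
  have h3 : (1 : ℝ) ≤ 1 + 1 / z.im := by
    have : 0 < 1 / z.im := by positivity
    linarith
  calc (‖z + 1‖ / ‖z‖) ^ (1 / 2 : ℝ) ≤ (1 + 1 / z.im) ^ (1 / 2 : ℝ) :=
        Real.rpow_le_rpow (by positivity) h2 (by norm_num)
    _ ≤ (1 + 1 / z.im) ^ (1 : ℝ) := Real.rpow_le_rpow_of_exponent_le h3 (by norm_num)
    _ = _ := Real.rpow_one _

theorem exists_qf_bound {ε : ℂ} (hε : ε * ε = 1) (hε1 : ‖ε‖ = 1) (x : ℝ) :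
    ∃ C : ℝ, 0 < C ∧ ∀ z : ℂ, 0 < z.im →
      ‖qf ε x z‖ ≤ C * (2 + 1 / z.im) * ‖z + 1‖ ^ (-(3 / 2) : ℝ) := by
  obtain ⟨C, hC, h⟩ := exists_norm_Qt_le hε hε1 x
  refine ⟨C, hC, fun z hz => ?_⟩
  have h1 : z + 1 ≠ 0 := ne_zero_of_im_pos (by rw [im_add_one]; exact hz)
  have hn1 : 0 < ‖z + 1‖ := norm_pos_iff.mpr h1
  have hb := (h (z / (z + 1)) (quot_im hz)).1
  have e1 : ‖z / (z + 1) - 1‖ = ‖z + 1‖⁻¹ := by
    have : z / (z + 1) - 1 = -(z + 1)⁻¹ := by field_simp; ring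
    rw [this, norm_neg, norm_inv]
  rw [e1] at hb
  unfold qf
  rw [norm_neg, norm_mul, norm_J]
  have h2 := norm_J_le hz
  calc ‖z + 1‖ ^ (-(1 / 2) : ℝ) * ‖Qt ε x (cz ε x) (z / (z + 1))‖
      ≤ ‖z + 1‖ ^ (-(1 / 2) : ℝ) * (C * ‖z + 1‖⁻¹ * (1 + ‖J (z / (z + 1))‖)) := by gcongr
    _ ≤ ‖z + 1‖ ^ (-(1 / 2) : ℝ) * (C * ‖z + 1‖⁻¹ * (1 + (1 + 1 / z.im))) := by gcongr
    _ = C * (2 + 1 / z.im) * (‖z + 1‖ ^ (-(1 / 2) : ℝ) * ‖z + 1‖ ^ (-1 : ℝ)) := by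
        rw [Real.rpow_neg_one]; ring
    _ = _ := by
        rw [← Real.rpow_add hn1]
        norm_num

theorem summable_max_rpow : Summable fun n : ℤ => (max 1 |(n : ℝ)|) ^ (-(5 / 4) : ℝ) := by
  have h1 := Real.summable_abs_int_rpow (b := 5 / 4) (by norm_num)
  have h2 : Summable fun n : ℤ => if n = 0 then (1 : ℝ) else 0 :=
    summable_of_ne_finset_zero (s := {0}) (fun n hn => by
      rw [if_neg]; simpa using hn)
  refine Summable.of_nonneg_of_le (fun n => by positivity) (fun n => ?_) (h1.add h2)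
  by_cases hn : n = 0
  · rw [hn]; simp
  · rw [if_neg hn, add_zero]
    have : (1 : ℝ) ≤ |(n : ℝ)| := by exact_mod_cast Int.one_le_abs hn
    rw [max_eq_right this]

theorem norm_add_int_ge {w : ℂ} (hw : 0 < w.im) (n : ℤ) :
    rho w * max 1 |(n : ℝ)| ≤ ‖w + n‖ := by
  have := rho_mul_mx_le hw ((1, n) : ℤ × ℤ)
  simpa [mx, lin] using this

theorem rpow_add_int_le {w : ℂ} (hw : 0 < w.im) {r : ℝ} (hr : 0 < r) (hrw : r ≤ rho w) (n : ℤ) :
    ‖w + n‖ ^ (-(5 / 4) : ℝ) ≤ r ^ (-(5 / 4) : ℝ) * (max 1 |(n : ℝ)|) ^ (-(5 / 4) : ℝ) := by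
  have h1 := norm_add_int_ge hw n
  have hm : (0 : ℝ) < max 1 |(n : ℝ)| := by positivity
  rw [← Real.mul_rpow hr.le hm.le]
  apply Real.rpow_le_rpow_of_nonpos (by positivity) _ (by norm_num)
  exact (mul_le_mul_of_nonneg_right hrw hm.le).trans h1

theorem rho_ge_half {v : ℂ} (hw : 1 / 2 ≤ v.im) (h0 : 0 ≤ v.re) (h1 : v.re < 1) :
    1 / 4 ≤ rho v := by
  have hv0 : 0 < v.im := by linarith
  unfold rho
  apply le_min (by linarith)
  have hn : ‖v‖ ≤ 1 + v.im := by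
    calc ‖v‖ ≤ |v.re| + |v.im| := Complex.norm_le_abs_re_add_abs_im v
      _ ≤ 1 + v.im := by rw [abs_of_nonneg h0, abs_of_pos hv0]; linarith
  have := norm_nonneg v
  rw [le_div_iff₀ (by linarith)]
  linarith

theorem exists_int_sum_bound : ∃ K : ℝ, 0 < K ∧ ∀ z : ℂ, 1 / 2 ≤ z.im →
    (Summable fun n : ℤ => ‖z + n‖ ^ (-(5 / 4) : ℝ)) ∧
    ∑' n : ℤ, ‖z + n‖ ^ (-(5 / 4) : ℝ) ≤ K := by
  have hS := summable_max_rpow.mul_left ((1 / 4 : ℝ) ^ (-(5 / 4) : ℝ))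
  refine ⟨∑' n : ℤ, (1 / 4 : ℝ) ^ (-(5 / 4) : ℝ) * (max 1 |(n : ℝ)|) ^ (-(5 / 4) : ℝ) + 1, ?_,
    fun z hz => ?_⟩
  · have : 0 ≤ ∑' n : ℤ, (1 / 4 : ℝ) ^ (-(5 / 4) : ℝ) * (max 1 |(n : ℝ)|) ^ (-(5 / 4) : ℝ) :=
      tsum_nonneg fun n => by positivity
    linarith
  · obtain ⟨k, v, hk, hv, h0, h1⟩ := exists_reduce z
    have hv0 : 0 < v.im := by linarith
    have hle : ∀ n : ℤ, ‖v + n‖ ^ (-(5 / 4) : ℝ) ≤
        (1 / 4 : ℝ) ^ (-(5 / 4) : ℝ) * (max 1 |(n : ℝ)|) ^ (-(5 / 4) : ℝ) :=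
      fun n => rpow_add_int_le hv0 (by norm_num) (rho_ge_half (by rw [hv]; exact hz) h0 h1) n
    have hs : Summable fun n : ℤ => ‖v + n‖ ^ (-(5 / 4) : ℝ) :=
      Summable.of_nonneg_of_le (fun n => by positivity) hle hS
    have e : ∀ n : ℤ, ‖z + n‖ ^ (-(5 / 4) : ℝ) = ‖v + ((Equiv.addRight k n : ℤ) : ℂ)‖ ^
        (-(5 / 4) : ℝ) := by
      intro n
      rw [hk]
      congr 2
      simp only [Equiv.coe_addRight]
      push_cast
      ring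
    constructor
    · have := (Equiv.addRight k).summable_iff.mpr hs
      exact this.congr fun n => (e n).symm
    · rw [tsum_congr e, (Equiv.addRight k).tsum_eq (fun n : ℤ => ‖v + n‖ ^ (-(5 / 4) : ℝ))]
      have := hs.tsum_le_tsum hle hS
      linarith

/-- the particular local solution -/
noncomputable def pf (ε : ℂ) (x : ℝ) (z : ℂ) : ℂ :=
  ∑' j : ℕ, (chi ε)⁻¹ ^ (j + 1) * qf ε x (z + j)

theorem norm_chi {ε : ℂ} (hε1 : ‖ε‖ = 1) : ‖chi ε‖ = 1 := by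
  unfold chi
  rw [norm_neg, norm_mul, hε1, one_mul, norm_J]
  simp

theorem chi_ne_zero {ε : ℂ} (hε1 : ‖ε‖ = 1) : chi ε ≠ 0 := by
  intro h
  have := norm_chi hε1
  rw [h, norm_zero] at this
  norm_num at this

theorem im_add_nat (z : ℂ) (j : ℕ) : (z + j).im = z.im := by simp

theorem term_bound {ε : ℂ} (hε1 : ‖ε‖ = 1) {x : ℝ} {C : ℝ} (hC : 0 < C)
    (h : ∀ z : ℂ, 0 < z.im → ‖qf ε x z‖ ≤ C * (2 + 1 / z.im) * ‖z + 1‖ ^ (-(3 / 2) : ℝ))
    {z : ℂ} (hz : 0 < z.im) (j : ℕ) :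
    ‖(chi ε)⁻¹ ^ (j + 1) * qf ε x (z + j)‖ ≤
      C * (2 + 1 / z.im) * z.im ^ (-(1 / 4) : ℝ) * ‖z + ((j + 1 : ℤ) : ℂ)‖ ^ (-(5 / 4) : ℝ) := by
  rw [norm_mul, norm_pow, norm_inv, norm_chi hε1, inv_one, one_pow, one_mul]
  have h1 := h (z + j) (by rw [im_add_nat]; exact hz)
  rw [im_add_nat] at h1
  have e1 : z + (j : ℂ) + 1 = z + ((j + 1 : ℤ) : ℂ) := by push_cast; ring
  rw [e1] at h1
  set v : ℂ := z + ((j + 1 : ℤ) : ℂ) with hv
  have hvim : v.im = z.im := by rw [hv]; simp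
  have hle : z.im ≤ ‖v‖ := by
    calc z.im = v.im := hvim.symm
      _ ≤ |v.im| := le_abs_self _
      _ ≤ _ := Complex.abs_im_le_norm v
  have hv0 : 0 < ‖v‖ := hz.trans_le hle
  have h2 : ‖v‖ ^ (-(3 / 2) : ℝ) ≤ z.im ^ (-(1 / 4) : ℝ) * ‖v‖ ^ (-(5 / 4) : ℝ) := by
    have : ‖v‖ ^ (-(3 / 2) : ℝ) = ‖v‖ ^ (-(1 / 4) : ℝ) * ‖v‖ ^ (-(5 / 4) : ℝ) := by
      rw [← Real.rpow_add hv0]; norm_num
    rw [this]
    exact mul_le_mul_of_nonneg_right (Real.rpow_le_rpow_of_nonpos hz hle (by norm_num))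
      (by positivity)
  have h3 : 0 < 1 / z.im := by positivity
  calc _ ≤ C * (2 + 1 / z.im) * ‖v‖ ^ (-(3 / 2) : ℝ) := h1
    _ ≤ C * (2 + 1 / z.im) * (z.im ^ (-(1 / 4) : ℝ) * ‖v‖ ^ (-(5 / 4) : ℝ)) := by gcongr
    _ = _ := by ring

theorem summable_nat_of_rho {z : ℂ} (hz : 0 < z.im) :
    Summable fun j : ℕ => ‖z + ((j + 1 : ℤ) : ℂ)‖ ^ (-(5 / 4) : ℝ) := by
  have h1 : Summable fun n : ℤ => ‖z + n‖ ^ (-(5 / 4) : ℝ) :=
    Summable.of_nonneg_of_le (fun n => by positivity)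
      (fun n => rpow_add_int_le hz (rho_pos hz) le_rfl n) (summable_max_rpow.mul_left _)
  have hinj : Function.Injective (fun j : ℕ => (j + 1 : ℤ)) := fun a b h => by
    simpa using h
  exact h1.comp_injective hinj

theorem summable_pf {ε : ℂ} (hε : ε * ε = 1) (hε1 : ‖ε‖ = 1) (x : ℝ) {z : ℂ} (hz : 0 < z.im) :
    Summable fun j : ℕ => (chi ε)⁻¹ ^ (j + 1) * qf ε x (z + j) := by
  obtain ⟨C, hC, h⟩ := exists_qf_bound hε hε1 x
  exact Summable.of_norm_bounded ((summable_nat_of_rho hz).mul_left _)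
    (fun j => term_bound hε1 hC h hz j)

theorem pf_add_one {ε : ℂ} (hε : ε * ε = 1) (hε1 : ‖ε‖ = 1) (x : ℝ) {z : ℂ} (hz : 0 < z.im) :
    pf ε x (z + 1) = chi ε * pf ε x z - qf ε x z := by
  have h0 := chi_ne_zero hε1
  have hs := summable_pf hε hε1 x hz
  unfold pf
  rw [hs.tsum_eq_zero_add, mul_add, ← tsum_mul_left]
  have e1 : ∀ j : ℕ, (chi ε)⁻¹ ^ (j + 1) * qf ε x (z + 1 + j) =
      chi ε * ((chi ε)⁻¹ ^ (j + 1 + 1) * qf ε x (z + ((j + 1 : ℕ) : ℂ))) := by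
    intro j
    have e2 : z + 1 + (j : ℂ) = z + ((j + 1 : ℕ) : ℂ) := by push_cast; ring
    rw [e2, pow_succ (chi ε)⁻¹ (j + 1)]
    field_simp
  rw [tsum_congr e1]
  simp only [zero_add, pow_one, Nat.cast_zero, add_zero]
  field_simp
  ring

theorem exists_pf_bound {ε : ℂ} (hε : ε * ε = 1) (hε1 : ‖ε‖ = 1) (x : ℝ) :
    ∃ C : ℝ, 0 < C ∧ ∀ z : ℂ, 1 / 2 ≤ z.im → ‖pf ε x z‖ ≤ C * z.im ^ (-(1 / 4) : ℝ) := by
  obtain ⟨C, hC, h⟩ := exists_qf_bound hε hε1 x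
  obtain ⟨K, hK, hK2⟩ := exists_int_sum_bound
  refine ⟨C * 4 * K, by positivity, fun z hz => ?_⟩
  have hz0 : 0 < z.im := by linarith
  obtain ⟨hs, hb⟩ := hK2 z hz
  have hinj : Function.Injective (fun j : ℕ => (j + 1 : ℤ)) := fun a b h => by
    simpa using h
  have h1 : ∑' j : ℕ, ‖z + ((j + 1 : ℤ) : ℂ)‖ ^ (-(5 / 4) : ℝ) ≤ K :=
    (tsum_comp_le_tsum_of_inj hs (fun n => by positivity) hinj).trans hb
  have h2 : 1 / z.im ≤ 2 := by
    rw [div_le_iff₀ hz0]; linarith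
  have h3 : 0 ≤ z.im ^ (-(1 / 4) : ℝ) := Real.rpow_nonneg hz0.le _
  have h4 : 0 < 1 / z.im := by positivity
  have h5 : 0 ≤ ∑' j : ℕ, ‖z + ((j + 1 : ℤ) : ℂ)‖ ^ (-(5 / 4) : ℝ) :=
    tsum_nonneg fun j => by positivity
  unfold pf
  calc ‖∑' j : ℕ, (chi ε)⁻¹ ^ (j + 1) * qf ε x (z + j)‖
      ≤ ∑' j : ℕ, C * (2 + 1 / z.im) * z.im ^ (-(1 / 4) : ℝ) *
        ‖z + ((j + 1 : ℤ) : ℂ)‖ ^ (-(5 / 4) : ℝ) :=
        tsum_of_norm_bounded ((summable_nat_of_rho hz0).mul_left _).hasSum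
          (fun j => term_bound hε1 hC h hz0 j)
    _ = C * (2 + 1 / z.im) * z.im ^ (-(1 / 4) : ℝ) *
        ∑' j : ℕ, ‖z + ((j + 1 : ℤ) : ℂ)‖ ^ (-(5 / 4) : ℝ) := tsum_mul_left
    _ ≤ C * (2 + 2) * z.im ^ (-(1 / 4) : ℝ) * K := by gcongr
    _ = _ := by ring

theorem differentiableOn_qf {ε : ℂ} {x : ℝ} : DifferentiableOn ℂ (qf ε x) HH := by
  intro z hz
  apply DifferentiableAt.differentiableWithinAt
  have hz0 : 0 < z.im := hz
  have h1 : 0 < (z + 1).im := by rw [im_add_one]; exact hz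
  have h10 := ne_zero_of_im_pos h1
  unfold qf
  have hJ : DifferentiableAt ℂ (fun z => J (z + 1)) z :=
    differentiableAt_comp_add_const.mpr (differentiableAt_J h1)
  have hdiv : DifferentiableAt ℂ (fun z : ℂ => z / (z + 1)) z :=
    differentiableAt_id.fun_div (differentiableAt_id.add (differentiableAt_const 1)) h10
  have hQ : DifferentiableAt ℂ (fun z => Qt ε x (cz ε x) (z / (z + 1))) z :=
    DifferentiableAt.comp (g := Qt ε x (cz ε x)) z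
      (differentiableAt_Qt (slitPlane_of_im_pos (quot_im hz0))
      (ne_zero_of_im_pos (quot_im hz0))) hdiv
  exact (hJ.mul hQ).fun_neg

theorem differentiableOn_pf {ε : ℂ} (hε : ε * ε = 1) (hε1 : ‖ε‖ = 1) (x : ℝ) :
    DifferentiableOn ℂ (pf ε x) HH := by
  obtain ⟨C, hC, h⟩ := exists_qf_bound hε hε1 x
  intro w hw
  have hw' : 0 < w.im := hw
  set δ : ℝ := w.im / 2 with hδ
  have hδ0 : 0 < δ := by rw [hδ]; linarith
  set A : ℝ := ‖w‖ + 1 with hA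
  have hA0 : 0 < A := by rw [hA]; positivity
  set U : Set ℂ := {v | δ < v.im ∧ ‖v‖ < A} with hU
  have hUo : IsOpen U := (isOpen_lt continuous_const Complex.continuous_im).inter
    (isOpen_lt continuous_norm continuous_const)
  have hwU : w ∈ U := ⟨by rw [hδ]; linarith, by rw [hA]; linarith⟩
  set ρ : ℝ := min δ (δ / (δ + A)) with hρ
  have hρ0 : 0 < ρ := lt_min hδ0 (by positivity)
  have hρle : ∀ v ∈ U, ρ ≤ rho v := by
    intro v hv
    have hv1 : δ < v.im := hv.1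
    have hv2 : ‖v‖ < A := hv.2
    unfold rho
    apply min_le_min hv1.le
    have hv0 : 0 < v.im := by linarith
    rw [div_le_div_iff₀ (by positivity) (by positivity)]
    nlinarith [norm_nonneg v, mul_nonneg hδ0.le (sub_nonneg.mpr hv2.le),
      mul_nonneg (sub_nonneg.mpr hv1.le) hA0.le]
  have hinj : Function.Injective (fun j : ℕ => (j + 1 : ℤ)) := fun a b h => by
    simpa using h
  have hsum : Summable fun j : ℕ => (C * (2 + 1 / δ) * δ ^ (-(1 / 4) : ℝ)) *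
      (ρ ^ (-(5 / 4) : ℝ) * (max 1 |(((j + 1 : ℤ) : ℤ) : ℝ)|) ^ (-(5 / 4) : ℝ)) := by
    have h1 := summable_max_rpow.comp_injective hinj
    exact (h1.mul_left _).mul_left _
  have key : DifferentiableOn ℂ (pf ε x) U := by
    unfold pf
    refine Complex.differentiableOn_tsum_of_summable_norm hsum ?_ hUo ?_
    · intro j v hv
      have hv0 : 0 < v.im := hδ0.trans hv.1
      have hvj : 0 < (v + j).im := by rw [im_add_nat]; exact hv0
      have h1 : DifferentiableAt ℂ (qf ε x) (v + j) :=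
        (differentiableOn_qf (v + j) hvj).differentiableAt (isOpen_HH.mem_nhds hvj)
      have h2 : DifferentiableAt ℂ (fun v => qf ε x (v + j)) v :=
        differentiableAt_comp_add_const.mpr h1
      exact (h2.const_mul _).differentiableWithinAt
    · intro j v hv
      have hv0 : 0 < v.im := hδ0.trans hv.1
      have hv1 : δ ≤ v.im := hv.1.le
      refine (term_bound hε1 hC h hv0 j).trans ?_
      have e1 : 1 / v.im ≤ 1 / δ := by gcongr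
      have e2 : v.im ^ (-(1 / 4) : ℝ) ≤ δ ^ (-(1 / 4) : ℝ) :=
        Real.rpow_le_rpow_of_nonpos hδ0 hv1 (by norm_num)
      have e3 := rpow_add_int_le hv0 hρ0 (hρle v hv) ((j + 1 : ℤ))
      have e4 : 0 < 1 / v.im := by positivity
      gcongr
  exact ((key w hwU).differentiableAt (hUo.mem_nhds hwU)).differentiableWithinAt

end Pool.Agent.Helper45.FU
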