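import Pool.Agent.Helper45.FU.Cusp

/-!
# Removal of the growth at the second cusp
-/

open Complex Filter Topology

namespace Pool.Agent.Helper45.FU

open Classical in
/-- restriction to the upper half plane -/
noncomputable def rs (f : ℂ → ℂ) (z : ℂ) : ℂ := if 0 < z.im then f z else 0

theorem rs_of {f : ℂ → ℂ} {z : ℂ} (hz : 0 < z.im) : rs f z = f z := if_pos hz

theorem rs_periodic {f : ℂ → ℂ} {h : ℝ} (hper : ∀ w : ℂ, 0 < w.im → f (w + h) = f w) (w : ℂ) :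
    rs f (w + h) = rs f w := by
  have him : (w + h).im = w.im := by simp
  by_cases hw : 0 < w.im
  · rw [rs_of hw, rs_of (by rw [him]; exact hw), hper w hw]
  · unfold rs
    rw [if_neg hw, if_neg (by rw [him]; exact hw)]

theorem bounded_of_periodic' {f : ℂ → ℂ} {h : ℝ} (hh : 0 < h)
    (hper : ∀ w : ℂ, 0 < w.im → f (w + h) = f w)
    (hcont : ContinuousOn f HH) {A B : ℝ} (hb : ∀ w : ℂ, A ≤ w.im → ‖f w‖ ≤ B) {s : ℝ}
    (hs : 0 < s) : ∃ B' : ℝ, 0 < B' ∧ ∀ w : ℂ, s ≤ w.im → ‖f w‖ ≤ B' := by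
  obtain ⟨B', hB', h'⟩ := bounded_of_periodic (f := rs f) hh (rs_periodic hper)
    (hcont.congr fun z hz => rs_of hz) (A := max A 1) (B := B) (fun w hw => by
      have h1 : 0 < w.im := by
        have := le_max_right A 1
        linarith
      rw [rs_of h1]
      exact hb w ((le_max_left _ _).trans hw)) hs
  refine ⟨B', hB', fun w hw => ?_⟩
  have := h' w hw
  rwa [rs_of (hs.trans_le hw)] at this

theorem decay_of_periodic {k : ℂ → ℂ} (hd : DifferentiableOn ℂ k HH)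
    (hper : ∀ w : ℂ, 0 < w.im → k (w + 1) = k w) {A B : ℝ}
    (hb : ∀ w : ℂ, A ≤ w.im → ‖k w‖ ≤ B) :
    ∃ L : ℂ, ∃ C A' : ℝ, Tendsto k Iinf (𝓝 L) ∧
      ∀ z : ℂ, A' ≤ z.im → ‖k z - L‖ ≤ C * Real.exp (-2 * Real.pi * z.im) := by
  have hper1 : Function.Periodic (rs k) ((1 : ℝ) : ℂ) := rs_periodic (by simpa using hper)
  have hhol : ∀ᶠ z in Iinf, DifferentiableAt ℂ (rs k) z := by
    rw [eventually_Iinf]
    refine ⟨1, fun z hz => ?_⟩
    have hz0 : z ∈ HH := by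
      change 0 < z.im
      linarith
    exact ((hd.congr fun w hw => rs_of hw) z hz0).differentiableAt (isOpen_HH.mem_nhds hz0)
  have hbd : BoundedAtFilter Iinf (rs k) := by
    rw [BoundedAtFilter]
    refine Asymptotics.IsBigO.of_bound B ?_
    rw [eventually_Iinf]
    refine ⟨max A 1, fun z hz => ?_⟩
    have h1 : 0 < z.im := by
      have := le_max_right A 1
      linarith
    rw [rs_of h1]
    simpa using hb z ((le_max_left _ _).trans hz)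
  have ht := Function.Periodic.tendsto_at_I_inf one_pos hper1 hhol hbd
  have he := Function.Periodic.exp_decay_sub_of_bounded_at_inf one_pos hper1 hhol hbd
  set L := Function.Periodic.cuspFunction 1 (rs k) 0 with hL
  have hev : rs k =ᶠ[Iinf] k := by
    change ∀ᶠ z in Iinf, rs k z = k z
    rw [eventually_Iinf]
    exact ⟨1, fun z hz => rs_of (by linarith)⟩
  obtain ⟨C, hC⟩ := he.bound
  have hC' : ∀ᶠ z in Iinf, ‖rs k z - L‖ ≤ C * ‖Real.exp (-2 * Real.pi * z.im / 1)‖ := hC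
  obtain ⟨A1, hA1⟩ := eventually_Iinf.mp (hC'.and hev)
  refine ⟨L, C, A1, ht.congr' hev, fun z hz => ?_⟩
  obtain ⟨h1, h2⟩ := hA1 z hz
  rw [h2, div_one, Real.norm_eq_abs, Real.abs_exp] at h1
  exact h1

theorem Iinf_neBot : Iinf.NeBot := by
  unfold Iinf
  refine Filter.comap_neBot fun t ht => ?_
  obtain ⟨a, ha⟩ := Filter.mem_atTop_sets.mp ht
  exact ⟨a * I, ha _ (by simp)⟩

theorem decay_of_zero {k : ℂ → ℂ} (hd : DifferentiableOn ℂ k HH)
    (hper : ∀ w : ℂ, 0 < w.im → k (w + 1) = k w) (hz : Tendsto k Iinf (𝓝 0)) :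
    ∃ C A : ℝ, ∀ z : ℂ, A ≤ z.im → ‖k z‖ ≤ C * Real.exp (-2 * Real.pi * z.im) := by
  obtain ⟨A, hA⟩ := bounded_of_tendsto hz
  obtain ⟨L, C, A', hL, h⟩ := decay_of_periodic hd hper hA
  have := Iinf_neBot
  have : L = 0 := tendsto_nhds_unique hL hz
  rw [this] at h
  exact ⟨C, A', fun z hz => by simpa using h z hz⟩

theorem exists_Nf_cusp_bound {ε : ℂ} (hε1 : ‖ε‖ = 1) (x : ℝ) (c : ℂ) :
    ∃ C : ℝ, 0 < C ∧ ∀ z : ℂ, 1 ≤ z.im → 0 ≤ z.re → z.re < 1 →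
      ‖Nf ε x c (1 - 1 / z)‖ ≤ C * z.im ^ 6 := by
  obtain ⟨K, hK, hT⟩ := exists_T3_bound
  refine ⟨2 * (1 + ‖c‖) * 17 * 12 * (8 * K), by positivity, fun z hz h0 h1 => ?_⟩
  have hz0 : 0 < z.im := by linarith
  have hzn := ne_zero_of_im_pos hz0
  have hn : 0 < ‖z‖ := norm_pos_iff.mpr hzn
  have hle : z.im ≤ ‖z‖ := by
    calc z.im ≤ |z.im| := le_abs_self _
      _ ≤ _ := Complex.abs_im_le_norm z
  have hle2 : ‖z‖ ≤ 2 * z.im := by
    calc ‖z‖ ≤ |z.re| + |z.im| := Complex.norm_le_abs_re_add_abs_im z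
      _ ≤ 2 * z.im := by rw [abs_of_nonneg h0, abs_of_pos hz0]; linarith
  have hw := cusp_im hz0
  have hwim : (1 - 1 / z).im = z.im / ‖z‖ ^ 2 := by
    rw [cusp_point, im_add_one, im_neg_inv]
  have hb := (adm_aC hε1 x c).norm_le (by positivity) hw
  have hT3 : T3 (1 - 1 / z) ≤ 8 * K * z.im ^ 3 := by
    have e1 : (1 : ℂ) - 1 / z = -1 / z + ((1 : ℤ) : ℂ) := by push_cast; ring
    rw [e1, T3_add, T3_inv hz0]
    calc ‖z‖ ^ 3 * T3 z ≤ (2 * z.im) ^ 3 * K := by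
          have := T3_nonneg z
          gcongr
          exact hT z (by linarith)
      _ = _ := by ring
  have hy : 1 / (1 - 1 / z).im ^ 2 ≤ 16 * z.im ^ 2 := by
    rw [hwim, div_pow, one_div_div, div_le_iff₀ (by positivity)]
    calc (‖z‖ ^ 2) ^ 2 = ‖z‖ ^ 4 := by ring
      _ ≤ (2 * z.im) ^ 4 := by gcongr
      _ = _ := by ring
  have hyle : (1 - 1 / z).im ≤ 1 := by
    rw [hwim, div_le_one (by positivity)]
    nlinarith
  have hwn : ‖1 - 1 / z‖ ≤ 2 := by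
    calc ‖1 - 1 / z‖ ≤ ‖(1 : ℂ)‖ + ‖1 / z‖ := norm_sub_le _ _
      _ = 1 + 1 / ‖z‖ := by rw [norm_one, norm_div, norm_one]
      _ ≤ 1 + 1 := by
          have : 1 / ‖z‖ ≤ 1 := by rw [div_le_one hn]; linarith
          linarith
      _ = 2 := by norm_num
  have hrho : (1 - 1 / z).im / 3 ≤ rho (1 - 1 / z) := by
    unfold rho
    apply le_min (by linarith)
    have h3 := norm_nonneg (1 - 1 / z)
    gcongr
    linarith
  have hrinv : (rho (1 - 1 / z))⁻¹ ≤ 12 * z.im := by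
    calc (rho (1 - 1 / z))⁻¹ ≤ ((1 - 1 / z).im / 3)⁻¹ := inv_anti₀ (by positivity) hrho
      _ = 3 * ‖z‖ ^ 2 / z.im := by rw [hwim]; field_simp
      _ ≤ 12 * z.im := by
          rw [div_le_iff₀ hz0]
          calc 3 * ‖z‖ ^ 2 ≤ 3 * (2 * z.im) ^ 2 := by gcongr
            _ = _ := by ring
  have hrpos := rho_pos hw
  have hT0 := T3_nonneg (1 - 1 / z)
  have h17 : 1 + 16 * z.im ^ 2 ≤ 17 * z.im ^ 2 := by nlinarith
  unfold Nf
  calc ‖WS R3 (aC ε x c) (1 - 1 / z)‖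
      ≤ 2 * (1 + ‖c‖) * (1 + 1 / (1 - 1 / z).im ^ 2) * (rho (1 - 1 / z))⁻¹ * T3 (1 - 1 / z) := hb
    _ ≤ 2 * (1 + ‖c‖) * (1 + 16 * z.im ^ 2) * (12 * z.im) * (8 * K * z.im ^ 3) := by gcongr
    _ ≤ 2 * (1 + ‖c‖) * (17 * z.im ^ 2) * (12 * z.im) * (8 * K * z.im ^ 3) := by gcongr
    _ = _ := by ring

theorem exists_loc_M0_bound {ε : ℂ} (hε1 : ‖ε‖ = 1) (x : ℝ) (c : ℂ) :
    ∃ C A : ℝ, 0 < C ∧ 1 ≤ A ∧ ∀ z : ℂ, A ≤ z.im → 0 ≤ z.re → z.re < 1 →
      ‖loc (M0 ε x c) z‖ ≤ C * z.im ^ 6 * Real.exp (2 * Real.pi * z.im) := by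
  obtain ⟨C1, hC1, h1⟩ := exists_Nf_cusp_bound hε1 x c
  obtain ⟨a, ha, hta⟩ := exists_tendsto_E2
  have hap : 0 < ‖a‖ := norm_pos_iff.mpr ha
  have hev := hta.norm.eventually (lt_mem_nhds (show ‖a‖ / 2 < ‖a‖ by linarith))
  rw [eventually_Iinf] at hev
  obtain ⟨A1, hA1⟩ := hev
  refine ⟨C1 / (‖a‖ / 2), max A1 1, by positivity, le_max_right _ _, fun z hz h0 h2 => ?_⟩
  have hz1 : 1 ≤ z.im := (le_max_right _ _).trans hz
  have hzA : A1 ≤ z.im := (le_max_left _ _).trans hz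
  have hz0 : 0 < z.im := by linarith
  have hb := hA1 z hzA
  have hle : z.im ≤ ‖z‖ := by
    calc z.im ≤ |z.im| := le_abs_self _
      _ ≤ _ := Complex.abs_im_le_norm z
  have hzn1 : 1 ≤ ‖z‖ := by linarith
  have hexp : ‖cexp (-(2 * Real.pi * I * z))‖ = Real.exp (2 * Real.pi * z.im) := by
    rw [Complex.norm_exp]
    congr 1
    have : (-(2 * Real.pi * I * z) : ℂ) = ((2 * Real.pi : ℝ) : ℂ) * (-(I * z)) := by
      push_cast; ring
    rw [this, Complex.re_ofReal_mul]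
    simp
  rw [norm_mul, hexp] at hb
  have hE : ‖E3 (1 - 1 / z)‖ ≥ ‖E2 z‖ := by
    rw [E3_cusp hz0, sr_pow_eight, norm_mul, norm_pow]
    have h4 : 1 ≤ ‖z‖ ^ 4 := one_le_pow₀ hzn1
    nlinarith [norm_nonneg (E2 z)]
  have hE2pos : 0 < ‖E2 z‖ := norm_pos_iff.mpr (E_ne_zero hz0).1
  have hJ : ‖J z‖ ≤ 1 := by
    rw [norm_J]
    exact Real.rpow_le_one_of_one_le_of_nonpos hzn1 (by norm_num)
  have hN := h1 z hz1 h0 h2
  have hinv : ‖E2 z‖⁻¹ ≤ Real.exp (2 * Real.pi * z.im) / (‖a‖ / 2) := by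
    rw [inv_le_comm₀ hE2pos (by positivity), inv_div, div_le_iff₀ (Real.exp_pos _)]
    linarith
  unfold loc M0
  rw [norm_mul, norm_div]
  calc ‖J z‖ * (‖Nf ε x c (1 - 1 / z)‖ / ‖E3 (1 - 1 / z)‖)
      ≤ 1 * ((C1 * z.im ^ 6) / ‖E2 z‖) := by
        gcongr
    _ = C1 * z.im ^ 6 * ‖E2 z‖⁻¹ := by rw [one_mul, div_eq_mul_inv]
    _ ≤ C1 * z.im ^ 6 * (Real.exp (2 * Real.pi * z.im) / (‖a‖ / 2)) := by gcongr
    _ = _ := by ring

theorem kap_bounds (ε : ℂ) : 1 / 8 ≤ kap ε ∧ kap ε ≤ 5 / 8 := by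
  unfold kap
  split_ifs <;> norm_num

theorem chi_mul_exp {ε : ℂ} (hε : ε = 1 ∨ ε = -1) :
    cexp (2 * Real.pi * I * (1 - kap ε)) * chi ε = 1 := by
  unfold chi kap
  rw [J_one]
  rcases hε with rfl | rfl
  · rw [if_pos rfl, one_mul]
    have e : -cexp (((Real.pi / 4 : ℝ) : ℂ) * I) =
        cexp (((Real.pi / 4 : ℝ) : ℂ) * I + Real.pi * I) := by
      rw [Complex.exp_add, Complex.exp_pi_mul_I]; ring
    rw [e, ← Complex.exp_add, Complex.exp_eq_one_iff]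
    refine ⟨1, ?_⟩
    push_cast
    ring
  · rw [if_neg (by norm_num)]
    have e : -(-1 * cexp (((Real.pi / 4 : ℝ) : ℂ) * I)) =
        cexp (((Real.pi / 4 : ℝ) : ℂ) * I) := by ring
    rw [e, ← Complex.exp_add, Complex.exp_eq_one_iff]
    refine ⟨1, ?_⟩
    push_cast
    ring

/-- the exponential correction -/
noncomputable def ec (ε : ℂ) (z : ℂ) : ℂ := cexp (2 * Real.pi * I * (1 - kap ε) * z)

theorem norm_ec (ε : ℂ) (z : ℂ) :
    ‖ec ε z‖ = Real.exp (-(2 * Real.pi * (1 - kap ε)) * z.im) := by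
  unfold ec
  rw [Complex.norm_exp]
  congr 1
  have : (2 * Real.pi * I * (1 - kap ε) * z : ℂ) =
      ((2 * Real.pi * (1 - kap ε) : ℝ) : ℂ) * (I * z) := by
    push_cast; ring
  rw [this, Complex.re_ofReal_mul]
  simp

theorem ec_ne_zero (ε : ℂ) (z : ℂ) : ec ε z ≠ 0 := Complex.exp_ne_zero _

theorem ec_add_one {ε : ℂ} (hε : ε = 1 ∨ ε = -1) {h : ℂ → ℂ} {z : ℂ}
    (hh : h (z + 1) = chi ε * h z) : ec ε (z + 1) * h (z + 1) = ec ε z * h z := by
  rw [hh]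
  unfold ec
  have e : (2 * Real.pi * I * (1 - kap ε) * (z + 1) : ℂ) =
      2 * Real.pi * I * (1 - kap ε) * z + 2 * Real.pi * I * (1 - kap ε) := by ring
  rw [e, Complex.exp_add]
  have := chi_mul_exp hε
  linear_combination (cexp (2 * Real.pi * I * (1 - kap ε) * z) * h z) * this

theorem differentiable_ec (ε : ℂ) : Differentiable ℂ (ec ε) := by
  unfold ec
  fun_prop

theorem differentiableOn_loc {φ : ℂ → ℂ} (hφ : DifferentiableOn ℂ φ HH) :
    DifferentiableOn ℂ (loc φ) HH := by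
  intro z hz
  apply DifferentiableAt.differentiableWithinAt
  have hz0 : 0 < z.im := hz
  unfold loc
  have h1 : DifferentiableAt ℂ φ (1 - 1 / z) :=
    (hφ _ (cusp_im hz0)).differentiableAt (isOpen_HH.mem_nhds (cusp_im hz0))
  have h2 : DifferentiableAt ℂ (fun z : ℂ => 1 - 1 / z) z :=
    (differentiableAt_const _).fun_sub
      ((differentiableAt_const _).fun_div differentiableAt_id (ne_zero_of_im_pos hz0))
  exact (differentiableAt_J hz0).fun_mul (DifferentiableAt.comp (g := φ) z h1 h2)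

end Pool.Agent.Helper45.FU
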