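import Pool.Agent.Helper45.FU.Vanish
import Mathlib.Analysis.Fourier.LpSpace

/-!
# The square integrable derivative
-/

open Complex Filter Topology MeasureTheory FourierTransform

namespace Pool.Agent.Helper45.FU

theorem fourier_flip {f g : ℝ → ℂ} (hf : Integrable f) (hg : Integrable g) :
    ∫ ξ, 𝓕 f ξ * g ξ = ∫ x, f x * 𝓕 g x := by
  have h := VectorFourier.integral_fourierIntegral_smul_eq_flip (L := innerₗ ℝ)
    (f := f) (g := g) (μ := volume) (ν := volume) Real.continuous_fourierChar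
    continuous_inner hf hg
  have e : (innerₗ ℝ).flip = innerₗ ℝ := by
    ext
    simp
  rw [e] at h
  exact h

theorem fourier_cont {w : ℝ → ℂ} (h1 : Integrable w) : Continuous (𝓕 w) :=
  VectorFourier.fourierIntegral_continuous Real.continuous_fourierChar
    (L := innerₗ ℝ) continuous_inner h1

theorem fourier_toLp_ae {w : ℝ → ℂ} (h1 : Integrable w) (h2 : MemLp w 2) :
    ((𝓕 (h2.toLp w) : Lp ℂ 2 (volume : Measure ℝ)) : ℝ → ℂ) =ᵐ[volume] 𝓕 w := by
  set W : Lp ℂ 2 (volume : Measure ℝ) := h2.toLp w with hW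
  have l1 : LocallyIntegrable ((𝓕 W : Lp ℂ 2 (volume : Measure ℝ)) : ℝ → ℂ) volume :=
    (Lp.memLp (𝓕 W : Lp ℂ 2 (volume : Measure ℝ))).locallyIntegrable one_le_two
  have l2 : LocallyIntegrable (𝓕 w) volume := (fourier_cont h1).locallyIntegrable
  have key := ae_eq_zero_of_integral_contDiff_smul_eq_zero (l1.sub l2) ?_
  · filter_upwards [key] with x hx
    exact sub_eq_zero.mp hx
  · intro g g_smooth g_cpt
    have hg₁ : HasCompactSupport (Complex.ofRealCLM ∘ g) := g_cpt.comp_left rfl
    have hg₂ : ContDiff ℝ (⊤ : ℕ∞) (Complex.ofRealCLM ∘ g) := by fun_prop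
    set φ := hg₁.toSchwartzMap hg₂ with hφ
    have e1 : Lp.toTemperedDistribution (𝓕 W : Lp ℂ 2 (volume : Measure ℝ)) φ =
        ∫ x, φ x • ((𝓕 W : Lp ℂ 2 (volume : Measure ℝ)) : ℝ → ℂ) x :=
      Lp.toTemperedDistribution_apply _ _
    have e2 : Lp.toTemperedDistribution (𝓕 W : Lp ℂ 2 (volume : Measure ℝ)) φ =
        ∫ x, (𝓕 φ) x • (W : ℝ → ℂ) x := by
      rw [← Lp.fourier_toTemperedDistribution_eq, TemperedDistribution.fourier_apply]
      exact Lp.toTemperedDistribution_apply _ _
    have e3 : ∫ x, (𝓕 φ) x • (W : ℝ → ℂ) x = ∫ x, φ x • 𝓕 w x := by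
      have h3 := fourier_flip φ.integrable h1
      simp only [smul_eq_mul]
      rw [← h3]
      refine integral_congr_ae ?_
      filter_upwards [h2.coeFn_toLp] with x hx
      rw [hW, hx]
      rfl
    have i1 : Integrable fun x => g x • ((𝓕 W : Lp ℂ 2 (volume : Measure ℝ)) : ℝ → ℂ) x :=
      l1.integrable_smul_left_of_hasCompactSupport g_smooth.continuous g_cpt
    have i2 : Integrable fun x => g x • 𝓕 w x :=
      l2.integrable_smul_left_of_hasCompactSupport g_smooth.continuous g_cpt
    simp only [Pi.sub_apply, smul_sub]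
    rw [integral_sub i1 i2, sub_eq_zero]
    have f1 : ∀ (x : ℝ) (z : ℂ), g x • z = φ x • z := by
      intro x z
      simp [hφ]
    simp_rw [f1]
    rw [← e1, e2, e3]

theorem conj_fourier_indicator {s y : ℝ} (hsy : s ≤ y) (ξ : ℝ) :
    (starRingEnd ℂ) (𝓕 (Set.indicator (Set.Ioc s y) fun _ => (1 : ℂ)) ξ) *
      (2 * Real.pi * I * ξ) = cexp (2 * Real.pi * I * y * ξ) - cexp (2 * Real.pi * I * s * ξ) := by
  have h1 : 𝓕 (Set.indicator (Set.Ioc s y) fun _ => (1 : ℂ)) ξ =
      ∫ x in s..y, cexp (-(2 * Real.pi * I * ξ) * x) := by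
    rw [Real.fourier_real_eq_integral_exp_smul, intervalIntegral.integral_of_le hsy,
      ← integral_indicator measurableSet_Ioc]
    refine integral_congr_ae (Eventually.of_forall fun x => ?_)
    simp only [Set.indicator_apply, smul_eq_mul]
    split_ifs with hx
    · rw [mul_one]
      congr 1
      push_cast
      ring
    · rw [mul_zero]
  have h2 : ∀ x : ℝ, HasDerivAt (fun x : ℝ => cexp (-(2 * Real.pi * I * ξ) * x))
      (-(2 * Real.pi * I * ξ) * cexp (-(2 * Real.pi * I * ξ) * x)) x := by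
    intro x
    have h3 : HasDerivAt (fun x : ℝ => -(2 * Real.pi * I * ξ) * (x : ℂ))
        (-(2 * Real.pi * I * ξ) * 1) x := (Complex.ofRealCLM.hasDerivAt (x := x)).const_mul _
    have h4 := h3.cexp
    rw [mul_one] at h4
    refine h4.congr_deriv ?_
    exact mul_comm _ _
  have h3 : -(2 * Real.pi * I * ξ) * ∫ x in s..y, cexp (-(2 * Real.pi * I * ξ) * x) =
      cexp (-(2 * Real.pi * I * ξ) * y) - cexp (-(2 * Real.pi * I * ξ) * s) := by
    rw [← intervalIntegral.integral_const_mul]
    refine intervalIntegral.integral_eq_sub_of_hasDerivAt (fun x _ => h2 x) ?_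
    apply Continuous.intervalIntegrable
    fun_prop
  rw [h1]
  have h4 := congrArg (starRingEnd ℂ) h3
  simp only [map_mul, map_sub, map_neg, ← Complex.exp_conj, Complex.conj_I, Complex.conj_ofReal,
    map_ofNat] at h4
  have e1 : -(2 * Real.pi * -I * ξ) * (y : ℂ) = 2 * Real.pi * I * y * ξ := by ring
  have e2 : -(2 * Real.pi * -I * ξ) * (s : ℂ) = 2 * Real.pi * I * s * ξ := by ring
  rw [e1, e2] at h4
  rw [← h4]
  ring

theorem exists_deriv {g : ℝ → ℂ} (hc : Continuous g) (hi : Integrable g) (hi' : Integrable (𝓕 g))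
    (h2 : MemLp (fun ξ : ℝ => (2 * Real.pi * I * ξ) * 𝓕 g ξ) 2) :
    ∃ h : ℝ → ℂ, MemLp h 2 ∧ ∀ s y : ℝ, g y - g s = ∫ t in s..y, h t := by
  set U : Lp ℂ 2 (volume : Measure ℝ) := h2.toLp _ with hU
  set H : Lp ℂ 2 (volume : Measure ℝ) := 𝓕⁻ U with hH
  have hFH : 𝓕 H = U := fourier_fourierInv_eq U
  have hle : ∀ s y : ℝ, s ≤ y → g y - g s = ∫ t in s..y, (H : ℝ → ℂ) t := by
    intro s y hsy
    set w : ℝ → ℂ := Set.indicator (Set.Ioc s y) fun _ => (1 : ℂ) with hw
    have w1 : Integrable w := by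
      rw [hw, integrable_indicator_iff measurableSet_Ioc]
      exact integrableOn_const (by simp) (by simp)
    have w2 : MemLp w 2 := by
      rw [hw]
      exact memLp_indicator_const 2 measurableSet_Ioc 1 (Or.inr (by simp))
    have h3 := fourier_toLp_ae w1 w2
    set W : Lp ℂ 2 (volume : Measure ℝ) := w2.toLp w with hW
    have h4 : inner ℂ (𝓕 W) (𝓕 H) = inner ℂ W H := Lp.inner_fourier_eq W H
    rw [hFH, L2.inner_def, L2.inner_def] at h4
    have h5 : ∫ a, inner ℂ ((W : ℝ → ℂ) a) ((H : ℝ → ℂ) a) = ∫ t in s..y, (H : ℝ → ℂ) t := by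
      rw [intervalIntegral.integral_of_le hsy, ← integral_indicator measurableSet_Ioc]
      refine integral_congr_ae ?_
      filter_upwards [w2.coeFn_toLp] with x hx
      rw [hW, hx, hw]
      simp only [Set.indicator_apply]
      split_ifs with hx
      · simp
      · simp
    have h6 : ∫ a, inner ℂ (((𝓕 W : Lp ℂ 2 (volume : Measure ℝ)) : ℝ → ℂ) a) ((U : ℝ → ℂ) a) =
        g y - g s := by
      have inv : ∀ x : ℝ, ∫ ξ : ℝ, cexp (2 * Real.pi * I * x * ξ) * 𝓕 g ξ = g x := by
        intro x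
        have h7 := congrFun (hc.fourierInv_fourier_eq hi hi') x
        rw [Real.fourierInv_eq'] at h7
        rw [← h7]
        refine integral_congr_ae (Eventually.of_forall fun ξ => ?_)
        simp only [smul_eq_mul]
        congr 2
        simp
        ring
      have inti : ∀ x : ℝ, Integrable fun ξ : ℝ => cexp (2 * Real.pi * I * x * ξ) * 𝓕 g ξ := by
        intro x
        refine hi'.bdd_mul (c := 1) ?_ (Eventually.of_forall fun ξ => ?_)
        · have : Continuous fun ξ : ℝ => cexp (2 * Real.pi * I * x * ξ) := by fun_prop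
          exact this.aestronglyMeasurable
        · have : (2 * Real.pi * I * x * ξ : ℂ) = ((2 * Real.pi * x * ξ : ℝ) : ℂ) * I := by
            push_cast; ring
          rw [this, Complex.norm_exp_ofReal_mul_I]
      rw [← inv y, ← inv s, ← integral_sub (inti y) (inti s)]
      refine integral_congr_ae ?_
      filter_upwards [h3, h2.coeFn_toLp] with ξ h8 h9
      rw [h8, hU, h9]
      have h10 := conj_fourier_indicator hsy ξ
      simp only [RCLike.inner_apply]
      rw [← sub_mul, ← h10]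
      ring
    rw [← h6, h4, h5]
  refine ⟨H, Lp.memLp H, fun s y => ?_⟩
  rcases le_total s y with h | h
  · exact hle s y h
  · have h1 := hle y s h
    rw [intervalIntegral.integral_symm, ← h1]
    ring

end Pool.Agent.Helper45.FU
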