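import Pool.Agent.Helper45.FU.Sums

/-!
# Level two Eisenstein series of weight four
-/

open Complex

namespace Pool.Agent.Helper45.FU

theorem WS_add {R R' : ℤ × ℤ → Prop} {a a' : ℤ × ℤ → ℂ → ℂ} {w : ℂ} {k : ℤ}
    (hR : ∀ p, R p ↔ R' (eT k p)) (ha : ∀ p, R p → a p (w + k) = a' (eT k p) w) :
    WS R a (w + k) = WS R' a' w := by
  classical
  unfold WS
  rw [← (eT k).tsum_eq (fun p => if R' p then a' p w / lin w p ^ 4 else 0)]
  refine tsum_congr fun p => ?_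
  by_cases hp : R p
  · rw [if_pos hp, if_pos ((hR p).mp hp), ha p hp, lin_add]
  · rw [if_neg hp, if_neg (fun h => hp ((hR p).mpr h))]

theorem WS_inv {R R' : ℤ × ℤ → Prop} {a a' : ℤ × ℤ → ℂ → ℂ} {w : ℂ} (hw : 0 < w.im)
    (hR : ∀ p, R (eS p) ↔ R' p) (ha : ∀ p, R' p → a (eS p) (-1 / w) = a' p w) :
    WS R a (-1 / w) = w ^ 4 * WS R' a' w := by
  classical
  have h0 := ne_zero_of_im_pos hw
  unfold WS
  rw [← eS.tsum_eq (fun p => if R p then a p (-1 / w) / lin (-1 / w) p ^ 4 else 0),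
    ← tsum_mul_left]
  refine tsum_congr fun p => ?_
  by_cases hp : R' p
  · rw [if_pos hp, if_pos ((hR p).mpr hp), ha p hp, lin_inv hw]
    field_simp
  · rw [if_neg hp, if_neg (fun h => hp ((hR p).mp h)), mul_zero]

/-- coprime pairs with odd sum -/
def R3 (p : ℤ × ℤ) : Prop := PP p.1 p.2
/-- coprime pairs with odd first entry -/
def R2 (p : ℤ × ℤ) : Prop := IsCoprime p.1 p.2 ∧ Odd p.1
/-- coprime pairs with odd second entry -/
def R4 (p : ℤ × ℤ) : Prop := IsCoprime p.1 p.2 ∧ Odd p.2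

/-- the Eisenstein series -/
noncomputable def EE (R : ℤ × ℤ → Prop) (w : ℂ) : ℂ := WS R (fun _ _ => 1) w

theorem ne_zero_of_coprime {p : ℤ × ℤ} (h : IsCoprime p.1 p.2) : p ≠ 0 := by
  rintro rfl
  rw [Prod.fst_zero, Prod.snd_zero, isCoprime_zero_left] at h
  simp at h

theorem adm_one {R : ℤ × ℤ → Prop} (hR : ∀ p, R p → IsCoprime p.1 p.2) :
    Adm R (fun _ _ => 1) 1 := by
  intro p hp
  have hp0 := ne_zero_of_coprime (hR p hp)
  refine ⟨hp0, differentiableOn_const 1, fun w hw => ?_⟩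
  have h1 := one_le_mx hp0
  have h2 : w.im ^ (1 / 4 : ℝ) ≤ Hs w ^ (1 / 4 : ℝ) :=
    Real.rpow_le_rpow hw.le (im_le_Hs hw) (by norm_num)
  have h3 : 0 ≤ Hs w ^ (1 / 4 : ℝ) := Real.rpow_nonneg (Hs_pos hw).le _
  rw [norm_one, mul_one, one_mul]
  calc _ ≤ Hs w ^ (1 / 4 : ℝ) := h2
    _ = 1 * Hs w ^ (1 / 4 : ℝ) := by ring
    _ ≤ _ := by gcongr

theorem EE_differentiableOn {R : ℤ × ℤ → Prop} (hR : ∀ p, R p → IsCoprime p.1 p.2) :
    DifferentiableOn ℂ (EE R) HH := (adm_one hR).differentiableOn zero_le_one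

theorem EE_add {R R' : ℤ × ℤ → Prop} {w : ℂ} {k : ℤ} (hR : ∀ p, R p ↔ R' (eT k p)) :
    EE R (w + k) = EE R' w := WS_add hR (fun _ _ => rfl)

theorem EE_inv {R R' : ℤ × ℤ → Prop} {w : ℂ} (hw : 0 < w.im) (hR : ∀ p, R (eS p) ↔ R' p) :
    EE R (-1 / w) = w ^ 4 * EE R' w := WS_inv hw hR (fun _ _ => rfl)

theorem coprime_eT (k : ℤ) (p : ℤ × ℤ) : IsCoprime (eT k p).1 (eT k p).2 ↔ IsCoprime p.1 p.2 := by
  simp only [eT, Equiv.coe_fn_mk]
  exact IsCoprime.add_mul_right_right_iff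

theorem coprime_eS (p : ℤ × ℤ) : IsCoprime (eS p).1 (eS p).2 ↔ IsCoprime p.1 p.2 := by
  simp only [eS, Equiv.coe_fn_mk]
  rw [IsCoprime.neg_left_iff, isCoprime_comm]

theorem R3_eT_one (p : ℤ × ℤ) : R3 p ↔ R4 (eT 1 p) := by
  unfold R3 R4 PP
  rw [coprime_eT]
  simp only [eT, Equiv.coe_fn_mk]
  rw [one_mul, add_comm p.1]

theorem R4_eT_one (p : ℤ × ℤ) : R4 p ↔ R3 (eT 1 p) := by
  unfold R3 R4 PP
  rw [coprime_eT]
  simp only [eT, Equiv.coe_fn_mk]
  have : p.1 + (p.2 + 1 * p.1) = p.2 + 2 * p.1 := by ring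
  rw [this, Int.odd_add]
  simp

theorem R2_eT (k : ℤ) (p : ℤ × ℤ) : R2 p ↔ R2 (eT k p) := by
  unfold R2
  rw [coprime_eT]
  simp only [eT, Equiv.coe_fn_mk]

theorem R3_eT_two (p : ℤ × ℤ) : R3 p ↔ R3 (eT 2 p) := by
  unfold R3 PP
  rw [coprime_eT]
  simp only [eT, Equiv.coe_fn_mk]
  have : p.1 + (p.2 + 2 * p.1) = p.1 + p.2 + 2 * p.1 := by ring
  rw [this, Int.odd_add (n := 2 * p.1)]
  simp

theorem R3_eS (p : ℤ × ℤ) : R3 (eS p) ↔ R3 p := by
  unfold R3 PP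
  rw [coprime_eS]
  simp only [eS, Equiv.coe_fn_mk]
  have : -p.2 + p.1 = p.1 + p.2 - 2 * p.2 := by ring
  rw [this, Int.odd_sub]
  simp

theorem R2_eS (p : ℤ × ℤ) : R2 (eS p) ↔ R4 p := by
  unfold R2 R4
  rw [coprime_eS]
  simp only [eS, Equiv.coe_fn_mk, odd_neg]

theorem R4_eS (p : ℤ × ℤ) : R4 (eS p) ↔ R2 p := by
  unfold R2 R4
  rw [coprime_eS]
  simp only [eS, Equiv.coe_fn_mk]

theorem R3_coprime (p : ℤ × ℤ) (h : R3 p) : IsCoprime p.1 p.2 := h.1
theorem R2_coprime (p : ℤ × ℤ) (h : R2 p) : IsCoprime p.1 p.2 := h.1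
theorem R4_coprime (p : ℤ × ℤ) (h : R4 p) : IsCoprime p.1 p.2 := h.1

/-- `E₃` -/
noncomputable def E3 (w : ℂ) : ℂ := EE R3 w
/-- `E₂` -/
noncomputable def E2 (w : ℂ) : ℂ := EE R2 w
/-- `E₄` -/
noncomputable def E4 (w : ℂ) : ℂ := EE R4 w

theorem E3_add_one (w : ℂ) : E3 (w + 1) = E4 w := by
  have := EE_add (w := w) R3_eT_one
  simpa [E3, E4] using this

theorem E4_add_one (w : ℂ) : E4 (w + 1) = E3 w := by
  have := EE_add (w := w) R4_eT_one
  simpa [E3, E4] using this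

theorem E2_add_one (w : ℂ) : E2 (w + 1) = E2 w := by
  have := EE_add (w := w) (R2_eT 1)
  simpa [E2] using this

theorem E3_add_two (w : ℂ) : E3 (w + 2) = E3 w := by
  have := EE_add (w := w) R3_eT_two
  simpa [E3] using this

theorem E3_inv {w : ℂ} (hw : 0 < w.im) : E3 (-1 / w) = w ^ 4 * E3 w := EE_inv hw R3_eS
theorem E2_inv {w : ℂ} (hw : 0 < w.im) : E2 (-1 / w) = w ^ 4 * E4 w := EE_inv hw R2_eS
theorem E4_inv {w : ℂ} (hw : 0 < w.im) : E4 (-1 / w) = w ^ 4 * E2 w := EE_inv hw R4_eS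

theorem E3_diff : DifferentiableOn ℂ E3 HH := EE_differentiableOn R3_coprime
theorem E2_diff : DifferentiableOn ℂ E2 HH := EE_differentiableOn R2_coprime
theorem E4_diff : DifferentiableOn ℂ E4 HH := EE_differentiableOn R4_coprime

open Classical in
/-- the constant term -/
noncomputable def cst (R : ℤ × ℤ → Prop) : ℂ :=
  (if R (0, 1) then 1 else 0) + (if R (0, -1) then 1 else 0)

theorem inv_lin_pow_four_le {w : ℂ} (hw : 0 < w.im) {p : ℤ × ℤ} (hp : p.1 ≠ 0) :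
    ‖1 / lin w p ^ 4‖ ≤ 1 / w.im * (‖lin w p‖⁻¹) ^ 3 := by
  have h1 := abs_fst_mul_im_le hw p
  have h2 : (1 : ℝ) ≤ |(p.1 : ℝ)| := by exact_mod_cast Int.one_le_abs hp
  have h3 : w.im ≤ ‖lin w p‖ := by
    calc w.im = 1 * w.im := by ring
      _ ≤ |(p.1 : ℝ)| * w.im := by gcongr
      _ ≤ _ := h1
  have h4 : 0 < ‖lin w p‖ := by linarith
  rw [norm_div, norm_one, norm_pow]
  calc 1 / ‖lin w p‖ ^ 4 = 1 / ‖lin w p‖ * (‖lin w p‖⁻¹) ^ 3 := by field_simp
    _ ≤ _ := by gcongr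

theorem EE_sub_le {R : ℤ × ℤ → Prop} (hR : ∀ p, R p → IsCoprime p.1 p.2) {w : ℂ} (hw : 0 < w.im) :
    ‖EE R w - cst R‖ ≤ 1 / w.im * T3 w := by
  classical
  set g : ℤ × ℤ → ℂ := fun p => if p ∈ ({(0, 1), (0, -1)} : Finset (ℤ × ℤ)) then
    (if R p then 1 else 0) else 0 with hg
  have hgs : HasSum g (cst R) := by
    have h1 : HasSum g (∑ p ∈ ({(0, 1), (0, -1)} : Finset (ℤ × ℤ)), g p) :=
      hasSum_sum_of_ne_finset_zero (fun p hp => by
        rw [hg]; simp only; rw [if_neg hp])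
    have h2 : ∑ p ∈ ({(0, 1), (0, -1)} : Finset (ℤ × ℤ)), g p = cst R := by
      rw [Finset.sum_pair (by decide)]
      have m1 : ((0, 1) : ℤ × ℤ) ∈ ({(0, 1), (0, -1)} : Finset (ℤ × ℤ)) := by decide
      have m2 : ((0, -1) : ℤ × ℤ) ∈ ({(0, 1), (0, -1)} : Finset (ℤ × ℤ)) := by decide
      unfold cst
      simp only [hg, if_pos m1, if_pos m2]
    rwa [h2] at h1
  have hs := (adm_one hR).summable zero_le_one hw
  have h3 : EE R w - cst R = ∑' p, ((if R p then 1 / lin w p ^ 4 else 0) - g p) := by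
    rw [hs.tsum_sub hgs.summable, hgs.tsum_eq]
    rfl
  have hbound : ∀ p, ‖(if R p then 1 / lin w p ^ 4 else 0) - g p‖ ≤
      1 / w.im * (‖lin w p‖⁻¹) ^ 3 := by
    intro p
    have hnn : 0 ≤ 1 / w.im * (‖lin w p‖⁻¹) ^ 3 := by positivity
    by_cases hp : R p
    · rw [if_pos hp]
      by_cases h0 : p.1 = 0
      · have hc := hR p hp
        rw [h0, isCoprime_zero_left, Int.isUnit_iff] at hc
        have hmem : p ∈ ({(0, 1), (0, -1)} : Finset (ℤ × ℤ)) := by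
          rcases hc with h | h
          · have : p = (0, 1) := Prod.ext h0 h
            simp [this]
          · have : p = (0, -1) := Prod.ext h0 h
            simp [this]
        have hl : lin w p ^ 4 = 1 := by
          unfold lin
          rcases hc with h | h <;> norm_num [h0, h]
        rw [hg]
        simp only
        rw [if_pos hmem, if_pos hp, hl]
        simpa using hnn
      · have hmem : p ∉ ({(0, 1), (0, -1)} : Finset (ℤ × ℤ)) := by
          intro h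
          simp only [Finset.mem_insert, Finset.mem_singleton] at h
          rcases h with h | h <;> exact h0 (by rw [h])
        rw [hg]
        simp only
        rw [if_neg hmem, sub_zero]
        exact inv_lin_pow_four_le hw h0
    · rw [if_neg hp]
      have : g p = 0 := by
        rw [hg]
        simp only
        rw [if_neg hp]
        simp
      rw [this, sub_zero, norm_zero]
      exact hnn
  rw [h3]
  unfold T3
  rw [← tsum_mul_left]
  exact tsum_of_norm_bounded ((summable_lin3 hw).mul_left _).hasSum hbound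

theorem cst_R3 : cst R3 = 2 := by
  have h1 : R3 (0, 1) := ⟨isCoprime_one_right, ⟨0, by norm_num⟩⟩
  have h2 : R3 (0, -1) := ⟨isCoprime_one_right.neg_right, ⟨-1, by norm_num⟩⟩
  unfold cst
  rw [if_pos h1, if_pos h2]
  norm_num

theorem cst_R4 : cst R4 = 2 := by
  have h1 : R4 (0, 1) := ⟨isCoprime_one_right, ⟨0, by norm_num⟩⟩
  have h2 : R4 (0, -1) := ⟨isCoprime_one_right.neg_right, ⟨-1, by norm_num⟩⟩
  unfold cst
  rw [if_pos h1, if_pos h2]
  norm_num

theorem cst_R2 : cst R2 = 0 := by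
  have h1 : ¬ R2 (0, 1) := by
    intro h
    have := h.2
    simp at this
  have h2 : ¬ R2 (0, -1) := by
    intro h
    have := h.2
    simp at this
  unfold cst
  rw [if_neg h1, if_neg h2]
  norm_num

theorem exists_E_bound : ∃ K : ℝ, 0 < K ∧ ∀ w : ℂ, 1 / 2 ≤ w.im →
    ‖E3 w - 2‖ ≤ K / w.im ∧ ‖E4 w - 2‖ ≤ K / w.im ∧ ‖E2 w‖ ≤ K / w.im := by
  obtain ⟨K, hK, h⟩ := exists_T3_bound
  refine ⟨K, hK, fun w hw => ?_⟩
  have hw0 : 0 < w.im := by linarith
  have h1 := EE_sub_le R3_coprime hw0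
  have h2 := EE_sub_le R4_coprime hw0
  have h3 := EE_sub_le R2_coprime hw0
  rw [cst_R3] at h1
  rw [cst_R4] at h2
  rw [cst_R2, sub_zero] at h3
  have h4 : 1 / w.im * T3 w ≤ K / w.im := by
    rw [div_mul_eq_mul_div, one_mul]
    exact div_le_div_of_nonneg_right (h w hw) hw0.le
  exact ⟨h1.trans h4, h2.trans h4, h3.trans h4⟩

/-! ## The product is a multiple of the discriminant -/

open UpperHalfPlane ModularForm MatrixGroups

/-- the product of the three series on the upper half plane -/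
noncomputable def Pf (z : ℍ) : ℂ := E2 z * E3 z * E4 z

theorem Pf_S : (Pf ∣[(12 : ℤ)] ModularGroup.S) = Pf := by
  ext z
  rw [SL_slash_apply, UpperHalfPlane.modular_S_smul]
  have hz : 0 < (z : ℂ).im := z.2
  have h0 : (z : ℂ) ≠ 0 := ne_zero_of_im_pos hz
  have e : (-(z : ℂ))⁻¹ = -1 / (z : ℂ) := by
    rw [inv_neg, neg_div, one_div]
  have e1 : Pf (UpperHalfPlane.mk (-(z : ℂ))⁻¹ z.im_inv_neg_coe_pos) =
      (z : ℂ) ^ 12 * Pf z := by
    unfold Pf
    simp only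
    rw [e, E2_inv hz, E3_inv hz, E4_inv hz]
    ring
  rw [e1]
  simp only [ModularGroup.denom_S]
  rw [zpow_neg]
  have : (z : ℂ) ^ (12 : ℤ) = (z : ℂ) ^ 12 := by norm_cast
  rw [this]
  field_simp

set_option backward.isDefEq.respectTransparency.types false in
theorem denom_T (z : ℍ) : denom (ModularGroup.T : SL(2, ℤ)) z = 1 := by
  rw [denom, ModularGroup.T]
  simp

theorem Pf_T : (Pf ∣[(12 : ℤ)] ModularGroup.T) = Pf := by
  ext z
  rw [SL_slash_apply, modular_T_smul]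
  unfold Pf
  simp only [UpperHalfPlane.coe_vadd]
  have e : ((1 : ℝ) : ℂ) + (z : ℂ) = (z : ℂ) + 1 := by push_cast; ring
  rw [e, E2_add_one, E3_add_one, E4_add_one, denom_T]
  simp
  ring

theorem exists_norm_Pf_bound : ∃ K : ℝ, 0 < K ∧ ∀ z : ℍ, 1 ≤ z.im → ‖Pf z‖ ≤ K / z.im := by
  obtain ⟨K, hK, h⟩ := exists_E_bound
  refine ⟨K * (2 + K) * (2 + K), by positivity, fun z hz => ?_⟩
  obtain ⟨h3, h4, h2⟩ := h (z : ℂ) (by
    have : (z : ℂ).im = z.im := rfl
    rw [this]; linarith)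
  have hzim : (z : ℂ).im = z.im := rfl
  rw [hzim] at h2 h3 h4
  have hK1 : K / z.im ≤ K := div_le_self hK.le hz
  have b3 : ‖E3 z‖ ≤ 2 + K := by
    calc ‖E3 z‖ = ‖2 + (E3 z - 2)‖ := by ring_nf
      _ ≤ ‖(2 : ℂ)‖ + ‖E3 z - 2‖ := norm_add_le _ _
      _ ≤ 2 + K := by
        have : ‖(2 : ℂ)‖ = 2 := by norm_num
        rw [this]; linarith
  have b4 : ‖E4 z‖ ≤ 2 + K := by
    calc ‖E4 z‖ = ‖2 + (E4 z - 2)‖ := by ring_nf
      _ ≤ ‖(2 : ℂ)‖ + ‖E4 z - 2‖ := norm_add_le _ _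
      _ ≤ 2 + K := by
        have : ‖(2 : ℂ)‖ = 2 := by norm_num
        rw [this]; linarith
  unfold Pf
  rw [norm_mul, norm_mul]
  calc ‖E2 z‖ * ‖E3 z‖ * ‖E4 z‖ ≤ K / z.im * (2 + K) * (2 + K) := by gcongr
    _ = _ := by ring

theorem Pf_zero : IsZeroAtImInfty Pf := by
  obtain ⟨K, hK, h⟩ := exists_norm_Pf_bound
  rw [isZeroAtImInfty_iff]
  intro ε hε
  refine ⟨max 1 (K / ε), fun z hz => (h z ((le_max_left _ _).trans hz)).trans ?_⟩
  have h1 : 0 < z.im := z.2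
  have h2 : K / ε ≤ z.im := (le_max_right _ _).trans hz
  rw [div_le_iff₀ h1]
  rw [div_le_iff₀ hε] at h2
  linarith

/-- the product as a cusp form -/
noncomputable def PfCusp : CuspForm 𝒮ℒ 12 where
  toFun := Pf
  slash_action_eq' A hA := by
    obtain ⟨A, rfl⟩ := hA
    exact SlashInvariantForm.slash_action_generators_SL2Z Pf_S Pf_T A
  holo' := by
    rw [UpperHalfPlane.mdifferentiable_iff]
    refine DifferentiableOn.congr (f := fun w => E2 w * E3 w * E4 w) ?_ (fun z hz => ?_)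
    · exact (E2_diff.mul E3_diff).mul E4_diff
    · simp [Pf, ofComplex_apply_of_im_pos hz]
  zero_at_cusps' hc := by
    rw [Subgroup.IsArithmetic.isCusp_iff_isCusp_SL2Z] at hc
    rw [OnePoint.isZeroAt_iff_forall_SL2Z hc]
    intro γ _
    rw [SlashInvariantForm.slash_action_generators_SL2Z Pf_S Pf_T]
    exact Pf_zero

theorem exists_eq_disc : ∃ c : ℂ, ∀ z : ℍ, E2 z * E3 z * E4 z = c * ModularForm.discriminant z := by
  obtain ⟨c, hc⟩ := CuspForm.exists_smul_discriminant_of_weight_eq_twelve PfCusp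
  refine ⟨c, fun z => ?_⟩
  have := congrArg (fun f : CuspForm 𝒮ℒ 12 => f z) hc
  exact this.symm

theorem isPreconnected_HH : IsPreconnected HH :=
  (convex_halfSpace_im_gt 0).isPreconnected

theorem ne_zero_of_dist {K : ℝ} {f : ℂ → ℂ} {w : ℂ} (hK : 0 < K) (hw : K < w.im)
    (h : ‖f w - 2‖ ≤ K / w.im) : f w ≠ 0 := by
  intro h0
  rw [h0, zero_sub, norm_neg] at h
  have h2 : ‖(2 : ℂ)‖ = 2 := by norm_num
  rw [h2, le_div_iff₀ (by linarith)] at h
  linarith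

theorem exists_eq_disc' : ∃ c : ℂ, c ≠ 0 ∧
    ∀ z : ℍ, E2 z * E3 z * E4 z = c * ModularForm.discriminant z := by
  obtain ⟨c, hc⟩ := exists_eq_disc
  refine ⟨c, ?_, hc⟩
  rintro rfl
  obtain ⟨K, hK, h⟩ := exists_E_bound
  have h2 : ∀ w : ℂ, K + 1 < w.im → E2 w = 0 := by
    intro w hw
    have hw0 : 0 < w.im := by linarith
    obtain ⟨b3, b4, -⟩ := h w (by linarith)
    have n3 := ne_zero_of_dist hK (by linarith) b3
    have n4 := ne_zero_of_dist hK (by linarith) b4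
    have := hc ⟨w, hw0⟩
    rw [zero_mul] at this
    have h5 : E2 w * E3 w * E4 w = 0 := this
    simpa [n3, n4] using h5
  set w0 : ℂ := ((K + 2 : ℝ) : ℂ) * Complex.I with hw0
  have him : w0.im = K + 2 := by rw [hw0]; simp
  have hev : E2 =ᶠ[nhds w0] 0 := by
    have : {w : ℂ | K + 1 < w.im} ∈ nhds w0 :=
      (isOpen_lt continuous_const Complex.continuous_im).mem_nhds (by
        change K + 1 < w0.im
        rw [him]; linarith)
    filter_upwards [this] with w hw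
    exact h2 w hw
  have hmem : w0 ∈ HH := by
    change 0 < w0.im
    rw [him]; linarith
  have hall := (E2_diff.analyticOnNhd isOpen_HH).eqOn_zero_of_preconnected_of_eventuallyEq_zero
    isPreconnected_HH hmem hev
  have hinv : E2 (-1 / w0) = 0 := hall (im_neg_inv_pos hmem)
  rw [E2_inv hmem] at hinv
  obtain ⟨-, b4, -⟩ := h w0 (by rw [him]; linarith)
  have n4 := ne_zero_of_dist hK (by rw [him]; linarith) b4
  have n0 := ne_zero_of_im_pos hmem
  rw [mul_eq_zero] at hinv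
  rcases hinv with h' | h'
  · exact n0 (pow_eq_zero_iff (by norm_num) |>.mp h')
  · exact n4 h'

theorem E_ne_zero {w : ℂ} (hw : 0 < w.im) : E2 w ≠ 0 ∧ E3 w ≠ 0 ∧ E4 w ≠ 0 := by
  obtain ⟨c, hc0, hc⟩ := exists_eq_disc'
  have h := hc ⟨w, hw⟩
  have h1 : E2 w * E3 w * E4 w ≠ 0 := by
    have h2 : E2 w * E3 w * E4 w = c * ModularForm.discriminant ⟨w, hw⟩ := h
    rw [h2]
    exact mul_ne_zero hc0 (ModularForm.discriminant_ne_zero _)
  refine ⟨?_, ?_, ?_⟩ <;> intro h0 <;> rw [h0] at h1 <;> simp at h1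

/-- the filter at `i∞` -/
def Iinf : Filter ℂ := Filter.comap Complex.im Filter.atTop

theorem eventually_Iinf {P : ℂ → Prop} :
    (∀ᶠ z in Iinf, P z) ↔ ∃ A : ℝ, ∀ z : ℂ, A ≤ z.im → P z := by
  unfold Iinf
  rw [(Filter.atTop_basis.comap Complex.im).eventually_iff]
  simp

theorem tendsto_of_norm_sub_le {f : ℂ → ℂ} {a : ℂ} {K : ℝ}
    (h : ∀ w : ℂ, 1 ≤ w.im → ‖f w - a‖ ≤ K / w.im) : Filter.Tendsto f Iinf (nhds a) := by
  rw [tendsto_iff_norm_sub_tendsto_zero]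
  have h1 : Filter.Tendsto (fun w : ℂ => K / w.im) Iinf (nhds 0) := by
    have h2 : Filter.Tendsto Complex.im Iinf Filter.atTop := Filter.tendsto_comap
    exact (tendsto_const_nhds.div_atTop Filter.tendsto_id).comp h2
  refine squeeze_zero' (Filter.Eventually.of_forall fun w => norm_nonneg _) ?_ h1
  rw [eventually_Iinf]
  exact ⟨1, h⟩

theorem tendsto_E3 : Filter.Tendsto E3 Iinf (nhds 2) := by
  obtain ⟨K, hK, h⟩ := exists_E_bound
  exact tendsto_of_norm_sub_le fun w hw => (h w (by linarith)).1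

theorem tendsto_E4 : Filter.Tendsto E4 Iinf (nhds 2) := by
  obtain ⟨K, hK, h⟩ := exists_E_bound
  exact tendsto_of_norm_sub_le fun w hw => (h w (by linarith)).2.1

theorem exists_tendsto_E2 : ∃ a : ℂ, a ≠ 0 ∧
    Filter.Tendsto (fun w => cexp (-(2 * Real.pi * Complex.I * w)) * E2 w) Iinf (nhds a) := by
  obtain ⟨c, hc0, hc⟩ := exists_eq_disc'
  refine ⟨c * 1 / (2 * 2), by simpa using hc0, ?_⟩
  have h1 := (tendsto_atImInfty_tprod_one_sub_eta_q_pow.comp tendsto_comap_im_ofComplex)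
  have h2 := ((h1.const_mul c).div (tendsto_E3.mul tendsto_E4) (by norm_num))
  refine h2.congr' ?_
  change ∀ᶠ w in Iinf, _
  rw [eventually_Iinf]
  refine ⟨1, fun w hw => ?_⟩
  have hw0 : 0 < w.im := by linarith
  obtain ⟨n2, n3, n4⟩ := E_ne_zero hw0
  have e1 : ofComplex w = (⟨w, hw0⟩ : ℍ) := ofComplex_apply_of_im_pos hw0
  have e2 : E2 w * E3 w * E4 w = c * ModularForm.discriminant ⟨w, hw0⟩ := hc ⟨w, hw0⟩
  rw [discriminant_eq_q_prod] at e2
  simp only [Pi.div_apply, Function.comp_apply, e1]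
  rw [div_eq_iff (mul_ne_zero n3 n4)]
  have e3 : Function.Periodic.qParam 1 ((⟨w, hw0⟩ : ℍ) : ℂ) =
      cexp (2 * Real.pi * Complex.I * w) := by
    simp [Function.Periodic.qParam]
  rw [e3] at e2
  have e4 : cexp (-(2 * Real.pi * Complex.I * w)) * cexp (2 * Real.pi * Complex.I * w) = 1 := by
    rw [← Complex.exp_add]; simp
  calc _ = c * (cexp (-(2 * Real.pi * Complex.I * w)) * cexp (2 * Real.pi * Complex.I * w)) *
        ∏' (n : ℕ), (1 - eta_q n ((⟨w, hw0⟩ : ℍ) : ℂ)) ^ 24 := by rw [e4, mul_one]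
    _ = cexp (-(2 * Real.pi * Complex.I * w)) * (c * (cexp (2 * Real.pi * Complex.I * w) *
        ∏' (n : ℕ), (1 - eta_q n ((⟨w, hw0⟩ : ℍ) : ℂ)) ^ 24)) := by ring
    _ = _ := by rw [← e2]; ring

end Pool.Agent.Helper45.FU
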