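import Pool.Agent.Helper45.FU.Mehler

/-!
# Estimates for the smoothed function at the nodes
-/

open Complex Filter Topology MeasureTheory

namespace Pool.Agent.Helper45.FU

/-- weighted Cauchy-Schwarz inequality -/
theorem cs_weight {α : Type*} [MeasurableSpace α] {μ : Measure α} {g w : α → ℝ}
    (hw : ∀ x, 0 ≤ w x) (hwi : Integrable w μ) (hgw : Integrable (fun x => g x * w x) μ)
    (hggw : Integrable (fun x => g x ^ 2 * w x) μ) (hpos : 0 < ∫ x, w x ∂μ) :
    (∫ x, g x * w x ∂μ) ^ 2 ≤ (∫ x, w x ∂μ) * ∫ x, g x ^ 2 * w x ∂μ := by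
  set P := ∫ x, w x ∂μ with hP
  set Q := ∫ x, g x * w x ∂μ with hQ
  set R := ∫ x, g x ^ 2 * w x ∂μ with hR
  have h1 : 0 ≤ ∫ x, (P * g x - Q) ^ 2 * w x ∂μ :=
    integral_nonneg fun x => mul_nonneg (sq_nonneg _) (hw x)
  have e : ∀ x, (P * g x - Q) ^ 2 * w x =
      P ^ 2 * (g x ^ 2 * w x) - 2 * P * Q * (g x * w x) + Q ^ 2 * w x := fun x => by ring
  simp_rw [e] at h1
  have i1 : Integrable (fun x => P ^ 2 * (g x ^ 2 * w x) - 2 * P * Q * (g x * w x)) μ :=
    (hggw.const_mul _).sub (hgw.const_mul _)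
  have i2 : Integrable (fun x => Q ^ 2 * w x) μ := hwi.const_mul _
  have i3 : Integrable (fun x => P ^ 2 * (g x ^ 2 * w x)) μ := hggw.const_mul _
  have i4 : Integrable (fun x => 2 * P * Q * (g x * w x)) μ := hgw.const_mul _
  rw [integral_add i1 i2, integral_sub i3 i4, integral_const_mul, integral_const_mul,
    integral_const_mul, ← hP, ← hQ, ← hR] at h1
  have h2 : 0 ≤ P * (P * R - Q ^ 2) := by nlinarith
  have h3 : 0 ≤ P * R - Q ^ 2 := by
    by_contra hcon
    push Not at hcon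
    nlinarith
  linarith

/-- the unsymmetrised kernel -/
noncomputable def Kg (a b s y : ℝ) : ℝ :=
  Real.exp (-(Real.pi * a * (s ^ 2 + y ^ 2)) + 2 * Real.pi * b * s * y)

theorem Kg_eq (a b s y : ℝ) : Kg a b s y =
    Real.exp (-(Real.pi * (a - b) * (s ^ 2 + y ^ 2))) * Real.exp (-(Real.pi * b) * (y - s) ^ 2) := by
  unfold Kg
  rw [← Real.exp_add]
  congr 1
  ring

theorem Kc_eq_Kg (a b s y : ℝ) : Kc a b s y = (((Kg a b s y + Kg a b s (-y)) / 2 : ℝ) : ℂ) := by
  rw [Kc_ofReal]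
  congr 1
  unfold Kg
  rw [Real.cosh_eq, Real.exp_add, Real.exp_add]
  have e : 2 * Real.pi * b * s * -y = -(2 * Real.pi * b * s * y) := by ring
  rw [e, neg_sq]
  ring

theorem Kg_le {a b : ℝ} (hba : b ≤ a) (s y : ℝ) : Kg a b s y ≤
    Real.exp (-(Real.pi * (a - b) * s ^ 2)) * Real.exp (-(Real.pi * b) * (y - s) ^ 2) := by
  rw [Kg_eq]
  have hpi := Real.pi_pos
  gcongr
  have h1 : 0 ≤ a - b := by linarith
  have : 0 ≤ Real.pi * (a - b) * y ^ 2 := by positivity
  nlinarith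

theorem continuous_Kg (a b s : ℝ) : Continuous fun y => Kg a b s y := by
  unfold Kg
  fun_prop

theorem Kg_bdd {a b : ℝ} (hb : 0 ≤ b) (hba : b ≤ a) (s y : ℝ) : |Kg a b s y| ≤ 1 := by
  have hpi := Real.pi_pos
  rw [abs_of_nonneg (by unfold Kg; positivity)]
  refine (Kg_le hba s y).trans ?_
  have h1 : 0 ≤ a - b := by linarith
  have h2 : Real.exp (-(Real.pi * (a - b) * s ^ 2)) ≤ 1 := by
    rw [Real.exp_le_one_iff]
    have : 0 ≤ Real.pi * (a - b) * s ^ 2 := by positivity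
    linarith
  have h3 : Real.exp (-(Real.pi * b) * (y - s) ^ 2) ≤ 1 := by
    rw [Real.exp_le_one_iff]
    have : 0 ≤ Real.pi * b * (y - s) ^ 2 := by positivity
    linarith
  calc _ ≤ (1 : ℝ) * 1 := by gcongr
    _ = 1 := one_mul 1

theorem Phi_eq {f : ℝ → ℂ} (hf : Integrable f) (heven : ∀ x, f (-x) = f x) {a b : ℝ}
    (hb : 0 ≤ b) (hba : b ≤ a) (s : ℝ) : Phi f a b s = ∫ y, f y * (Kg a b s y : ℂ) := by
  have hint : Integrable fun y => f y * (Kg a b s y : ℂ) := by
    refine hf.mul_bdd (c := 1) ?_ (Eventually.of_forall fun y => ?_)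
    · have := continuous_Kg a b s
      have h : Continuous fun y => (Kg a b s y : ℂ) := by fun_prop
      exact h.aestronglyMeasurable
    · rw [Complex.norm_real]
      exact Kg_bdd hb hba s y
  have hint2 : Integrable fun y => f y * (Kg a b s (-y) : ℂ) := by
    have := hint.comp_neg
    refine this.congr (Eventually.of_forall fun y => ?_)
    simp only
    rw [heven]
  have hneg : ∫ y, f y * (Kg a b s (-y) : ℂ) = ∫ y, f y * (Kg a b s y : ℂ) := by
    rw [← integral_neg_eq_self (fun y => f y * (Kg a b s y : ℂ))]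
    refine integral_congr_ae (Eventually.of_forall fun y => ?_)
    simp only
    rw [heven]
  unfold Phi
  have e : ∀ y, f y * Kc a b s y =
      (1 / 2 : ℂ) * (f y * (Kg a b s y : ℂ)) + (1 / 2 : ℂ) * (f y * (Kg a b s (-y) : ℂ)) := by
    intro y
    rw [Kc_eq_Kg]
    push_cast
    ring
  simp_rw [e]
  rw [integral_add (hint.const_mul _) (hint2.const_mul _), integral_const_mul, integral_const_mul,
    hneg]
  ring

/-- data for the estimate -/
structure Dat (f h : ℝ → ℂ) : Prop where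
  cont : Continuous f
  even : ∀ x, f (-x) = f x
  integ : Integrable f
  bdd : ∃ C : ℝ, ∀ x, ‖f x‖ ≤ C
  l2 : Integrable fun t => ‖h t‖ ^ 2
  li : ∀ a b : ℝ, IntervalIntegrable h volume a b
  ftc : ∀ s y : ℝ, f y - f s = ∫ t in s..y, h t

/-- the local energy -/
noncomputable def En (h : ℝ → ℂ) (b s : ℝ) : ℝ :=
  ∫ t, ‖h t‖ ^ 2 * Real.exp (-(Real.pi * b / 2) * (t - s) ^ 2)

theorem gauss_le_one {c : ℝ} (hc : 0 ≤ c) (u : ℝ) : Real.exp (-c * u ^ 2) ≤ 1 := by
  rw [Real.exp_le_one_iff]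
  have : 0 ≤ c * u ^ 2 := by positivity
  linarith

theorem En_integrable {h : ℝ → ℂ} (hl : Integrable fun t => ‖h t‖ ^ 2) {b : ℝ} (hb : 0 ≤ b)
    (s : ℝ) : Integrable fun t => ‖h t‖ ^ 2 * Real.exp (-(Real.pi * b / 2) * (t - s) ^ 2) := by
  have hpi := Real.pi_pos
  refine hl.mul_bdd (c := 1) (by
    have : Continuous fun t : ℝ => Real.exp (-(Real.pi * b / 2) * (t - s) ^ 2) := by fun_prop
    exact this.aestronglyMeasurable) (Eventually.of_forall fun t => ?_)
  rw [Real.norm_eq_abs, Real.abs_exp]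
  exact gauss_le_one (by positivity) _

theorem En_nonneg (h : ℝ → ℂ) (b s : ℝ) : 0 ≤ En h b s :=
  integral_nonneg fun t => by positivity

theorem sq_integral_le {h : ℝ → ℂ} (hl : Integrable fun t => ‖h t‖ ^ 2)
    (hli : ∀ a b : ℝ, IntervalIntegrable h volume a b) {s y : ℝ} (hsy : s < y) :
    ‖∫ t in s..y, h t‖ ^ 2 ≤ (y - s) * ∫ t in s..y, ‖h t‖ ^ 2 := by
  have h1 : ‖∫ t in s..y, h t‖ ≤ ∫ t in Set.Ioc s y, ‖h t‖ := by
    rw [intervalIntegral.integral_of_le hsy.le]
    exact norm_integral_le_integral_norm _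
  have hi : Integrable h (volume.restrict (Set.Ioc s y)) := (hli s y).1
  have h2 := cs_weight (μ := volume.restrict (Set.Ioc s y)) (g := fun t => ‖h t‖)
    (w := fun _ => 1) (fun _ => zero_le_one) (integrable_const _) (by simpa using hi.norm)
    (by
      have h0 : Integrable (fun t => ‖h t‖ ^ 2) (volume.restrict (Set.Ioc s y)) :=
        hl.integrableOn
      simpa using h0) (by simp [hsy])
  simp only [mul_one] at h2
  have h3 : ∫ _ in Set.Ioc s y, (1 : ℝ) = y - s := by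
    simp [hsy.le]
  rw [h3] at h2
  rw [intervalIntegral.integral_of_le hsy.le (f := fun t => ‖h t‖ ^ 2)]
  calc ‖∫ t in s..y, h t‖ ^ 2 ≤ (∫ t in Set.Ioc s y, ‖h t‖) ^ 2 := by gcongr
    _ ≤ _ := h2

theorem interval_energy_le {h : ℝ → ℂ} (hl : Integrable fun t => ‖h t‖ ^ 2) {b : ℝ} (hb : 0 ≤ b)
    {s y : ℝ} {p q : ℝ} (hpq : p ≤ q) (hsub : ∀ t ∈ Set.Ioc p q, |t - s| ≤ |y - s|) :
    (∫ t in p..q, ‖h t‖ ^ 2) * Real.exp (-(Real.pi * b / 2) * (y - s) ^ 2) ≤ En h b s := by
  have hpi := Real.pi_pos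
  rw [intervalIntegral.integral_of_le hpq, ← integral_mul_const]
  calc ∫ t in Set.Ioc p q, ‖h t‖ ^ 2 * Real.exp (-(Real.pi * b / 2) * (y - s) ^ 2)
      ≤ ∫ t in Set.Ioc p q, ‖h t‖ ^ 2 * Real.exp (-(Real.pi * b / 2) * (t - s) ^ 2) := by
        refine setIntegral_mono_on (hl.mul_const _).integrableOn
          (En_integrable hl hb s).integrableOn measurableSet_Ioc fun t ht => ?_
        have h1 := hsub t ht
        have h2 : (t - s) ^ 2 ≤ (y - s) ^ 2 := sq_le_sq.mpr h1
        have h3 : Real.pi * b / 2 * (t - s) ^ 2 ≤ Real.pi * b / 2 * (y - s) ^ 2 := by gcongr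
        exact mul_le_mul_of_nonneg_left (Real.exp_le_exp.mpr (by linarith)) (by positivity)
    _ ≤ En h b s := setIntegral_le_integral (En_integrable hl hb s)
        (Eventually.of_forall fun t => by positivity)

theorem point_bound {f h : ℝ → ℂ} (D : Dat f h) {b : ℝ} (hb : 0 ≤ b) {s : ℝ} (hs : f s = 0)
    (y : ℝ) : ‖f y‖ ^ 2 * Real.exp (-(Real.pi * b / 2) * (y - s) ^ 2) ≤ |y - s| * En h b s := by
  have hf : f y = ∫ t in s..y, h t := by
    rw [← D.ftc s y, hs, sub_zero]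
  rcases lt_trichotomy s y with hlt | heq | hgt
  · have h1 := sq_integral_le D.l2 D.li hlt
    have h2 := interval_energy_le D.l2 hb (s := s) (y := y) hlt.le (fun t ht => by
      rw [abs_of_pos (by linarith [ht.1]), abs_of_pos (by linarith)]
      linarith [ht.2])
    rw [hf, abs_of_pos (by linarith)]
    calc ‖∫ t in s..y, h t‖ ^ 2 * Real.exp (-(Real.pi * b / 2) * (y - s) ^ 2)
        ≤ ((y - s) * ∫ t in s..y, ‖h t‖ ^ 2) * Real.exp (-(Real.pi * b / 2) * (y - s) ^ 2) := by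
          gcongr
      _ = (y - s) * ((∫ t in s..y, ‖h t‖ ^ 2) *
          Real.exp (-(Real.pi * b / 2) * (y - s) ^ 2)) := by ring
      _ ≤ _ := by
          have : 0 ≤ y - s := by linarith
          gcongr
  · rw [← heq, hs]
    simp
  · have h1 := sq_integral_le D.l2 D.li hgt
    have h2 := interval_energy_le D.l2 hb (s := s) (y := y) hgt.le (fun t ht => by
      rw [abs_of_nonpos (by linarith [ht.2]), abs_of_neg (by linarith)]
      linarith [ht.1])
    rw [hf, intervalIntegral.integral_symm, norm_neg, abs_of_neg (by linarith)]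
    calc ‖∫ t in y..s, h t‖ ^ 2 * Real.exp (-(Real.pi * b / 2) * (y - s) ^ 2)
        ≤ ((s - y) * ∫ t in y..s, ‖h t‖ ^ 2) * Real.exp (-(Real.pi * b / 2) * (y - s) ^ 2) := by
          gcongr
      _ = (s - y) * ((∫ t in y..s, ‖h t‖ ^ 2) *
          Real.exp (-(Real.pi * b / 2) * (y - s) ^ 2)) := by ring
      _ ≤ (s - y) * En h b s := by
          have : 0 ≤ s - y := by linarith
          gcongr
      _ = _ := by ring

theorem abs_mul_gauss_le {b : ℝ} (hb : 0 < b) (u : ℝ) :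
    |u| * Real.exp (-(Real.pi * b / 2) * u ^ 2) ≤
      1 / √b * Real.exp (-(Real.pi * b / 4) * u ^ 2) := by
  have hpi := Real.pi_gt_three
  have hsb : 0 < √b := Real.sqrt_pos.mpr hb
  have h1 : √b * |u| ≤ Real.exp (Real.pi * b / 4 * u ^ 2) := by
    have h2 := Real.add_one_le_exp (Real.pi * b / 4 * u ^ 2)
    have h3 : (√b * |u|) ^ 2 = b * u ^ 2 := by
      rw [mul_pow, Real.sq_sqrt hb.le, sq_abs]
    have h4 : √b * |u| ≤ 1 / 2 * (√b * |u|) ^ 2 + 1 / 2 := by nlinarith [sq_nonneg (√b * |u| - 1)]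
    have h5 : 1 / 2 * (√b * |u|) ^ 2 ≤ Real.pi * b / 4 * u ^ 2 := by
      rw [h3]
      have : 0 ≤ b * u ^ 2 := by positivity
      nlinarith
    linarith
  have e : Real.exp (-(Real.pi * b / 2) * u ^ 2) =
      Real.exp (-(Real.pi * b / 4) * u ^ 2) * (Real.exp (Real.pi * b / 4 * u ^ 2))⁻¹ := by
    rw [← Real.exp_neg, ← Real.exp_add]
    congr 1
    ring
  rw [e]
  have hE := Real.exp_pos (Real.pi * b / 4 * u ^ 2)
  calc |u| * (Real.exp (-(Real.pi * b / 4) * u ^ 2) * (Real.exp (Real.pi * b / 4 * u ^ 2))⁻¹)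
      = (√b * |u|) / Real.exp (Real.pi * b / 4 * u ^ 2) *
          (1 / √b * Real.exp (-(Real.pi * b / 4) * u ^ 2)) := by field_simp
    _ ≤ 1 * (1 / √b * Real.exp (-(Real.pi * b / 4) * u ^ 2)) := by
        gcongr
        rw [div_le_one hE]
        exact h1
    _ = _ := one_mul _

theorem integrable_gauss_shift {c : ℝ} (hc : 0 < c) (s : ℝ) :
    Integrable fun y : ℝ => Real.exp (-c * (y - s) ^ 2) :=
  (integrable_exp_neg_mul_sq hc).comp_sub_right s

theorem integral_gauss_shift (c : ℝ) (s : ℝ) :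
    ∫ y : ℝ, Real.exp (-c * (y - s) ^ 2) = √(Real.pi / c) := by
  rw [integral_sub_right_eq_self (fun y : ℝ => Real.exp (-c * y ^ 2)) s, integral_gaussian]

theorem sq_energy {f h : ℝ → ℂ} (D : Dat f h) {b : ℝ} (hb : 0 < b) {s : ℝ} (hs : f s = 0) :
    ∫ y, ‖f y‖ ^ 2 * Real.exp (-(Real.pi * b) * (y - s) ^ 2) ≤ 2 / b * En h b s := by
  have hpi := Real.pi_pos
  have hsb : 0 < √b := Real.sqrt_pos.mpr hb
  have hEn := En_nonneg h b s
  have hpt : ∀ y, ‖f y‖ ^ 2 * Real.exp (-(Real.pi * b) * (y - s) ^ 2) ≤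
      (1 / √b * En h b s) * Real.exp (-(Real.pi * b / 4) * (y - s) ^ 2) := by
    intro y
    have h1 := point_bound D hb.le hs y
    have h2 := abs_mul_gauss_le hb (y - s)
    have e : Real.exp (-(Real.pi * b) * (y - s) ^ 2) =
        Real.exp (-(Real.pi * b / 2) * (y - s) ^ 2) *
          Real.exp (-(Real.pi * b / 2) * (y - s) ^ 2) := by
      rw [← Real.exp_add]; congr 1; ring
    rw [e]
    calc ‖f y‖ ^ 2 * (Real.exp (-(Real.pi * b / 2) * (y - s) ^ 2) *
          Real.exp (-(Real.pi * b / 2) * (y - s) ^ 2))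
        = (‖f y‖ ^ 2 * Real.exp (-(Real.pi * b / 2) * (y - s) ^ 2)) *
          Real.exp (-(Real.pi * b / 2) * (y - s) ^ 2) := by ring
      _ ≤ (|y - s| * En h b s) * Real.exp (-(Real.pi * b / 2) * (y - s) ^ 2) := by gcongr
      _ = En h b s * (|y - s| * Real.exp (-(Real.pi * b / 2) * (y - s) ^ 2)) := by ring
      _ ≤ En h b s * (1 / √b * Real.exp (-(Real.pi * b / 4) * (y - s) ^ 2)) := by gcongr
      _ = _ := by ring
  have hint := (integrable_gauss_shift (by positivity : 0 < Real.pi * b / 4) s).const_mul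
    (1 / √b * En h b s)
  calc ∫ y, ‖f y‖ ^ 2 * Real.exp (-(Real.pi * b) * (y - s) ^ 2)
      ≤ ∫ y, (1 / √b * En h b s) * Real.exp (-(Real.pi * b / 4) * (y - s) ^ 2) :=
        integral_mono_of_nonneg (Eventually.of_forall fun y => by positivity) hint
          (Eventually.of_forall hpt)
    _ = (1 / √b * En h b s) * √(Real.pi / (Real.pi * b / 4)) := by
        rw [integral_const_mul, integral_gauss_shift]
    _ = 2 / b * En h b s := by
        have e1 : Real.pi / (Real.pi * b / 4) = (2 / √b) ^ 2 := by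
          rw [div_pow, Real.sq_sqrt hb.le]
          field_simp
          norm_num
        rw [e1, Real.sqrt_sq (by positivity)]
        have e2 : √b * √b = b := Real.mul_self_sqrt hb.le
        calc 1 / √b * En h b s * (2 / √b) = 2 / (√b * √b) * En h b s := by field_simp
          _ = _ := by rw [e2]

theorem Phi_bound {f h : ℝ → ℂ} (D : Dat f h) {a b : ℝ} (hb : 0 < b) (hba : b ≤ a) {s : ℝ}
    (hs : f s = 0) :
    ‖Phi f a b s‖ ^ 2 ≤ Real.exp (-(2 * Real.pi * (a - b) * s ^ 2)) *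
      (2 / (b * √b) * En h b s) := by
  have hpi := Real.pi_pos
  obtain ⟨C, hC⟩ := D.bdd
  have hsb : 0 < √b := Real.sqrt_pos.mpr hb
  rw [Phi_eq D.integ D.even hb.le hba]
  set G : ℝ → ℝ := fun y => Real.exp (-(Real.pi * b) * (y - s) ^ 2) with hG
  have hGi : Integrable G := integrable_gauss_shift (by positivity) s
  have hGc : Continuous G := by simp only [hG]; fun_prop
  have hfG : Integrable fun y => ‖f y‖ * G y :=
    hGi.bdd_mul (c := C) D.cont.norm.aestronglyMeasurable (Eventually.of_forall fun y => by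
      rw [norm_norm]; exact hC y)
  have hffG : Integrable fun y => ‖f y‖ ^ 2 * G y :=
    hGi.bdd_mul (c := C ^ 2) (D.cont.norm.pow 2).aestronglyMeasurable
      (Eventually.of_forall fun y => by
        have h1 := hC y
        have h2 := norm_nonneg (f y)
        simp only [Real.norm_eq_abs, Pi.pow_apply, abs_pow, abs_norm]
        gcongr)
  have hGint : ∫ y, G y = 1 / √b := by
    simp only [hG]
    rw [integral_gauss_shift]
    have : Real.pi / (Real.pi * b) = (1 / √b) ^ 2 := by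
      rw [div_pow, Real.sq_sqrt hb.le]
      field_simp
    rw [this, Real.sqrt_sq (by positivity)]
  have h1 : ‖∫ y, f y * (Kg a b s y : ℂ)‖ ≤
      Real.exp (-(Real.pi * (a - b) * s ^ 2)) * ∫ y, ‖f y‖ * G y := by
    rw [← integral_const_mul]
    refine norm_integral_le_of_norm_le (hfG.const_mul _) (Eventually.of_forall fun y => ?_)
    have h2 := Kg_le hba s y
    have h3 : 0 ≤ Kg a b s y := by unfold Kg; positivity
    rw [norm_mul, Complex.norm_real, Real.norm_eq_abs, abs_of_nonneg h3]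
    calc ‖f y‖ * Kg a b s y ≤ ‖f y‖ * (Real.exp (-(Real.pi * (a - b) * s ^ 2)) *
          Real.exp (-(Real.pi * b) * (y - s) ^ 2)) := by gcongr
      _ = _ := by simp only [hG]; ring
  have h2 := cs_weight (μ := volume) (g := fun y => ‖f y‖) (w := G)
    (fun y => by simp only [hG]; positivity) hGi hfG hffG (by rw [hGint]; positivity)
  rw [hGint] at h2
  have h3 := sq_energy D hb hs
  have h4 : 0 ≤ ∫ y, ‖f y‖ * G y := integral_nonneg fun y => by
    simp only [hG]; positivity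
  calc ‖∫ y, f y * (Kg a b s y : ℂ)‖ ^ 2
      ≤ (Real.exp (-(Real.pi * (a - b) * s ^ 2)) * ∫ y, ‖f y‖ * G y) ^ 2 := by gcongr
    _ = Real.exp (-(Real.pi * (a - b) * s ^ 2)) ^ 2 * (∫ y, ‖f y‖ * G y) ^ 2 := by ring
    _ ≤ Real.exp (-(Real.pi * (a - b) * s ^ 2)) ^ 2 * (1 / √b * ∫ y, ‖f y‖ ^ 2 * G y) := by
        gcongr
    _ ≤ Real.exp (-(Real.pi * (a - b) * s ^ 2)) ^ 2 * (1 / √b * (2 / b * En h b s)) := by
        gcongr
    _ = _ := by
        have e : Real.exp (-(Real.pi * (a - b) * s ^ 2)) ^ 2 =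
            Real.exp (-(2 * Real.pi * (a - b) * s ^ 2)) := by
          rw [← Real.exp_nat_mul]
          congr 1
          push_cast
          ring
        rw [e]
        field_simp

end Pool.Agent.Helper45.FU
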