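import Pool.Agent.Helper45.FU.CuspTwo

/-!
# The dual generating function
-/

open Complex Filter Topology

namespace Pool.Agent.Helper45.FU

theorem exp_im_tendsto {b : ℝ} (hb : 0 < b) (n : ℕ) :
    Tendsto (fun y : ℝ => y ^ n * Real.exp (-b * y)) atTop (𝓝 0) :=
  (tendsto_rpow_mul_exp_neg_mul_atTop_nhds_zero (n : ℝ) b hb).congr fun y => by
    rw [Real.rpow_natCast]

theorem eps_facts {ε : ℂ} (hε : ε = 1 ∨ ε = -1) : ε * ε = 1 ∧ ‖ε‖ = 1 := by
  rcases hε with rfl | rfl <;> norm_num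

theorem rpow_neg_quarter_le {t : ℝ} (ht : 0 < t) {b : ℝ} (hb : 1 / 8 ≤ b) :
    Real.exp (-(2 * Real.pi * b) * t) ≤ 2 * t ^ (-(1 / 4) : ℝ) := by
  have hpi := Real.pi_gt_three
  have h1 : 1 + t / 2 ≤ Real.exp (2 * Real.pi * b * t) := by
    have h2 := Real.add_one_le_exp (2 * Real.pi * b * t)
    have h3 : t / 2 ≤ 2 * Real.pi * b * t := by
      have h4 : 1 / 2 ≤ 2 * Real.pi * b := by nlinarith
      calc t / 2 = 1 / 2 * t := by ring
        _ ≤ 2 * Real.pi * b * t := by gcongr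
    linarith
  have h4 : t ^ (1 / 4 : ℝ) ≤ 1 + t := by
    calc t ^ (1 / 4 : ℝ) ≤ (1 + t) ^ (1 / 4 : ℝ) :=
          Real.rpow_le_rpow ht.le (by linarith) (by norm_num)
      _ ≤ (1 + t) ^ (1 : ℝ) := Real.rpow_le_rpow_of_exponent_le (by linarith) (by norm_num)
      _ = _ := Real.rpow_one _
  have h5 : 0 < t ^ (1 / 4 : ℝ) := Real.rpow_pos_of_pos ht _
  rw [Real.rpow_neg ht.le, neg_mul, Real.exp_neg, ← div_eq_mul_inv, inv_eq_one_div,
    div_le_div_iff₀ (Real.exp_pos _) h5]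
  linarith

theorem exists_M {ε : ℂ} (hε : ε = 1 ∨ ε = -1) (x : ℝ) :
    ∃ M : ℂ → ℂ, DifferentiableOn ℂ M HH ∧ (∀ w, M (w + 2) = M w) ∧
      (∀ w : ℂ, 0 < w.im → M w = sl ε M w + Qt ε x (cz ε x) w) ∧
      (∃ B : ℝ, 0 < B ∧ ∀ w : ℂ, 1 ≤ w.im → ‖M w‖ ≤ B) ∧
      (∃ B : ℝ, 0 < B ∧ ∀ z : ℂ, 1 / 2 ≤ z.im → ‖loc M z‖ ≤ B * z.im ^ (-(1 / 4) : ℝ)) := by
  obtain ⟨hεε, hε1⟩ := eps_facts hε
  obtain ⟨H, hHd, hHper, hHeq, ⟨BH, hBH, hHb⟩, a, ha, hta⟩ := exists_H1 hε
  set m0 := M0 ε x (cz ε x) with hm0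
  have hMper : ∀ w, m0 (w + 2) = m0 w := M0_add_two ε x (cz ε x)
  have hMeq : ∀ w : ℂ, 0 < w.im → m0 w = sl ε m0 w + Qt ε x (cz ε x) w :=
    fun w hw => M0_eq hεε hε1 x (cz ε x) hw
  have hMd : DifferentiableOn ℂ m0 HH := M0_diff hε1 x (cz ε x)
  obtain ⟨BM, hBM, hMb⟩ := exists_M0_bound hε1 x (cz ε x)
  have hkap := kap_bounds ε
  -- the local functions
  have hloc0 : ∀ z : ℂ, 0 < z.im → loc m0 (z + 1) = chi ε * loc m0 z - qf ε x z := by
    intro z hz
    rw [loc_add_one hMper hMeq hz]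
    unfold qf
    ring
  have hloc1 : ∀ z : ℂ, 0 < z.im → loc H (z + 1) = chi ε * loc H z := by
    intro z hz
    rw [loc_add_one (R := fun _ => 0) hHper (fun w hw => by rw [add_zero]; exact hHeq w hw) hz]
    ring
  set h0 : ℂ → ℂ := fun z => loc m0 z - pf ε x z with hh0
  have hh0eq : ∀ z : ℂ, 0 < z.im → h0 (z + 1) = chi ε * h0 z := by
    intro z hz
    simp only [hh0]
    rw [hloc0 z hz, pf_add_one hεε hε1 x hz]
    ring
  have hh0d : DifferentiableOn ℂ h0 HH :=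
    (differentiableOn_loc hMd).sub (differentiableOn_pf hεε hε1 x)
  set k0 : ℂ → ℂ := fun z => ec ε z * h0 z with hk0
  have hk0per : ∀ z : ℂ, 0 < z.im → k0 (z + 1) = k0 z := fun z hz =>
    ec_add_one hε (hh0eq z hz)
  have hk0d : DifferentiableOn ℂ k0 HH := (differentiable_ec ε).differentiableOn.mul hh0d
  set k1 : ℂ → ℂ := fun z => ec ε z * loc H z with hk1
  have hk1per : ∀ z : ℂ, 0 < z.im → k1 (z + 1) = k1 z := fun z hz =>
    ec_add_one hε (hloc1 z hz)
  have hk1d : DifferentiableOn ℂ k1 HH :=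
    (differentiable_ec ε).differentiableOn.mul (differentiableOn_loc hHd)
  have hk1t : Tendsto k1 Iinf (𝓝 a) := hta
  -- growth of k0
  obtain ⟨C1, A1, hC1, hA1, hb1⟩ := exists_loc_M0_bound hε1 x (cz ε x)
  obtain ⟨C2, hC2, hb2⟩ := exists_pf_bound hεε hε1 x
  set E : ℂ → ℂ := fun z => cexp (2 * Real.pi * I * z) with hE
  have hEn : ∀ z : ℂ, ‖E z‖ = Real.exp (-(2 * Real.pi) * z.im) := by
    intro z
    simp only [hE]
    rw [Complex.norm_exp]
    congr 1
    have : (2 * Real.pi * I * z : ℂ) = ((2 * Real.pi : ℝ) : ℂ) * (I * z) := by push_cast; ring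
    rw [this, Complex.re_ofReal_mul]
    simp
  have hEper : ∀ z, E (z + 1) = E z := by
    intro z
    simp only [hE]
    rw [mul_add, mul_one, Complex.exp_add, Complex.exp_two_pi_mul_I, mul_one]
  set β : ℝ := 2 * Real.pi * (1 - kap ε) with hβ
  have hβpos : 0 < β := by
    have := Real.pi_pos
    have : 0 < 1 - kap ε := by linarith
    positivity
  have hgrow : ∀ z : ℂ, A1 ≤ z.im → ‖E z * k0 z‖ ≤ (C1 + C2) * (z.im ^ 6 * Real.exp (-β * z.im)) := by
    intro z hz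
    obtain ⟨k, v, hk, hv, hr0, hr1⟩ := exists_reduce z
    have hz1 : 1 ≤ z.im := hA1.trans hz
    have hper : Function.Periodic (rs fun z => E z * k0 z) ((1 : ℝ) : ℂ) :=
      rs_periodic (fun w hw => by
        rw [ofReal_one, hEper, hk0per w hw])
    have hzv : E z * k0 z = E v * k0 v := by
      have h3 := (hper.int_mul k) v
      have h4 : v + (k : ℂ) * ((1 : ℝ) : ℂ) = z := by rw [hk]; push_cast; ring
      rw [h4, rs_of (by linarith), rs_of (by linarith)] at h3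
      exact h3
    have hvA : A1 ≤ v.im := by rw [hv]; exact hz
    have hv1 : 1 ≤ v.im := hA1.trans hvA
    have hv0 : 0 < v.im := by linarith
    have e1 := hb1 v hvA hr0 hr1
    have e2 := hb2 v (by linarith)
    have e3 : v.im ^ (-(1 / 4) : ℝ) ≤ 1 := Real.rpow_le_one_of_one_le_of_nonpos hv1 (by norm_num)
    have e4 : (1 : ℝ) ≤ v.im ^ 6 := one_le_pow₀ hv1
    have e5 : (1 : ℝ) ≤ Real.exp (2 * Real.pi * v.im) := by
      rw [Real.one_le_exp_iff]
      have := Real.pi_pos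
      positivity
    have e6 : ‖h0 v‖ ≤ (C1 + C2) * (v.im ^ 6 * Real.exp (2 * Real.pi * v.im)) := by
      calc ‖h0 v‖ ≤ ‖loc m0 v‖ + ‖pf ε x v‖ := norm_sub_le _ _
        _ ≤ C1 * v.im ^ 6 * Real.exp (2 * Real.pi * v.im) + C2 * 1 := by
            gcongr
            exact e2.trans (by gcongr)
        _ ≤ C1 * v.im ^ 6 * Real.exp (2 * Real.pi * v.im) +
            C2 * (v.im ^ 6 * Real.exp (2 * Real.pi * v.im)) := by
            gcongr
            nlinarith
        _ = _ := by ring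
    rw [hzv, ← hv, norm_mul, hEn]
    simp only [hk0]
    rw [norm_mul, norm_ec, ← hβ]
    have e7 : Real.exp (-(2 * Real.pi) * v.im) * Real.exp (2 * Real.pi * v.im) = 1 := by
      rw [← Real.exp_add]
      simp
    calc Real.exp (-(2 * Real.pi) * v.im) * (Real.exp (-β * v.im) * ‖h0 v‖)
        ≤ Real.exp (-(2 * Real.pi) * v.im) * (Real.exp (-β * v.im) *
          ((C1 + C2) * (v.im ^ 6 * Real.exp (2 * Real.pi * v.im)))) := by gcongr
      _ = (C1 + C2) * (v.im ^ 6 * Real.exp (-β * v.im)) *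
          (Real.exp (-(2 * Real.pi) * v.im) * Real.exp (2 * Real.pi * v.im)) := by ring
      _ = _ := by rw [e7, mul_one]
  have hzero : Tendsto (fun z => E z * k0 z) Iinf (𝓝 0) := by
    rw [tendsto_zero_iff_norm_tendsto_zero]
    have h3 : Tendsto Complex.im Iinf atTop := tendsto_comap
    have h4 := ((exp_im_tendsto hβpos 6).const_mul (C1 + C2)).comp h3
    rw [mul_zero] at h4
    refine squeeze_zero' (Eventually.of_forall fun z => norm_nonneg _) ?_ h4
    rw [eventually_Iinf]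
    exact ⟨A1, hgrow⟩
  have hEd : Differentiable ℂ E := by
    simp only [hE]
    fun_prop
  obtain ⟨C3, A3, hb3⟩ := decay_of_zero (k := fun z => E z * k0 z) (hEd.differentiableOn.mul hk0d)
    (fun w hw => by rw [hEper, hk0per w hw]) hzero
  -- k0 is bounded
  have hk0b : ∀ z : ℂ, A3 ≤ z.im → ‖k0 z‖ ≤ C3 := by
    intro z hz
    have h3 := hb3 z hz
    rw [norm_mul, hEn] at h3
    have h4 : Real.exp (-2 * Real.pi * z.im) = Real.exp (-(2 * Real.pi) * z.im) := by ring_nf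
    rw [h4, mul_comm C3] at h3
    exact le_of_mul_le_mul_left h3 (Real.exp_pos _)
  obtain ⟨L, C4, A4, hL, hb4⟩ := decay_of_periodic hk0d hk0per hk0b
  -- subtract the homogeneous solution
  set c1 : ℂ := L / a with hc1
  set k2 : ℂ → ℂ := fun z => k0 z - c1 * k1 z with hk2
  have hk2t : Tendsto k2 Iinf (𝓝 0) := by
    have := hL.sub (hk1t.const_mul c1)
    have e : L - c1 * a = 0 := by rw [hc1]; field_simp; ring
    rw [e] at this
    exact this
  have hk2d : DifferentiableOn ℂ k2 HH := hk0d.sub (hk1d.const_mul c1)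
  have hk2per : ∀ z : ℂ, 0 < z.im → k2 (z + 1) = k2 z := by
    intro z hz
    simp only [hk2]
    rw [hk0per z hz, hk1per z hz]
  obtain ⟨C5, A5, hb5⟩ := decay_of_zero hk2d hk2per hk2t
  -- global bound for k2
  have hG : ∃ B : ℝ, 0 < B ∧ ∀ z : ℂ, 1 / 2 ≤ z.im → ‖(E z)⁻¹ * k2 z‖ ≤ B := by
    refine bounded_of_periodic' (h := 1) one_pos (fun w hw => ?_) ?_ (A := A5) (B := C5) ?_
      (by norm_num)
    · rw [ofReal_one, hEper, hk2per w hw]
    · exact (hEd.continuous.continuousOn.inv₀ (fun z _ => Complex.exp_ne_zero _)).mul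
        hk2d.continuousOn
    · intro z hz
      rw [norm_mul, norm_inv, hEn]
      have h3 := hb5 z hz
      have h4 : Real.exp (-2 * Real.pi * z.im) = Real.exp (-(2 * Real.pi) * z.im) := by ring_nf
      rw [h4] at h3
      rw [inv_mul_le_iff₀ (Real.exp_pos _), mul_comm]
      exact h3
  obtain ⟨B2, hB2, hb6⟩ := hG
  refine ⟨fun w => m0 w - c1 * H w, hMd.sub (hHd.const_mul c1), fun w => ?_, fun w hw => ?_, ?_, ?_⟩
  · simp only [hMper, hHper]
  · have e1 := hMeq w hw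
    have e2 := hHeq w hw
    have e3 : sl ε (fun w => m0 w - c1 * H w) w = sl ε m0 w - c1 * sl ε H w := by
      unfold sl
      ring
    rw [e3]
    linear_combination e1 - c1 * e2
  · refine ⟨BM + ‖c1‖ * BH, by positivity, fun w hw => ?_⟩
    calc ‖m0 w - c1 * H w‖ ≤ ‖m0 w‖ + ‖c1 * H w‖ := norm_sub_le _ _
      _ ≤ BM + ‖c1‖ * BH := by
          rw [norm_mul]
          have := hMb w hw
          have := hHb w hw
          gcongr
  · refine ⟨C2 + B2 * 2, by positivity, fun z hz => ?_⟩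
    have hz0 : 0 < z.im := by linarith
    have e1 : loc (fun w => m0 w - c1 * H w) z = pf ε x z + (ec ε z)⁻¹ * k2 z := by
      have hne := ec_ne_zero ε z
      simp only [hk2, hk0, hk1, hh0]
      unfold loc
      field_simp
      ring
    have e2 : ‖(ec ε z)⁻¹ * k2 z‖ ≤ B2 * Real.exp (-(2 * Real.pi * kap ε) * z.im) := by
      have h3 := hb6 z hz
      rw [norm_mul, norm_inv, hEn, inv_mul_le_iff₀ (Real.exp_pos _)] at h3
      rw [norm_mul, norm_inv, norm_ec, inv_mul_le_iff₀ (Real.exp_pos _)]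
      refine h3.trans (le_of_eq ?_)
      have h5 : Real.exp (-(2 * Real.pi) * z.im) =
          Real.exp (-(2 * Real.pi * (1 - kap ε)) * z.im) *
            Real.exp (-(2 * Real.pi * kap ε) * z.im) := by
        rw [← Real.exp_add]
        ring_nf
      rw [h5]
      ring
    rw [e1]
    calc ‖pf ε x z + (ec ε z)⁻¹ * k2 z‖ ≤ ‖pf ε x z‖ + ‖(ec ε z)⁻¹ * k2 z‖ := norm_add_le _ _
      _ ≤ C2 * z.im ^ (-(1 / 4) : ℝ) + B2 * (2 * z.im ^ (-(1 / 4) : ℝ)) := by
          have h6 := hb2 z hz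
          have h7 := rpow_neg_quarter_le hz0 hkap.1
          have h8 : B2 * Real.exp (-(2 * Real.pi * kap ε) * z.im) ≤
              B2 * (2 * z.im ^ (-(1 / 4) : ℝ)) := by gcongr
          linarith
      _ = _ := by ring

end Pool.Agent.Helper45.FU
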