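import Pool.Agent.Helper45.FU.Deriv

/-!
# The uniqueness theorem
-/

open Complex Filter Topology MeasureTheory FourierTransform

namespace Pool.Agent.Helper45.FU

theorem integrable_of_weight {g : ℝ → ℂ} (hm : AEStronglyMeasurable g volume)
    (hw : Integrable fun x : ℝ => ‖g x‖ ^ 2 * (1 + x ^ 2)) : Integrable g := by
  have h1 : Integrable fun x : ℝ => ‖g x‖ ^ 2 * (1 + x ^ 2) + (1 + x ^ 2)⁻¹ :=
    hw.add integrable_inv_one_add_sq
  refine h1.mono' hm (Eventually.of_forall fun x => ?_)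
  have hx : 0 < 1 + x ^ 2 := by positivity
  have e : ‖g x‖ ^ 2 * (1 + x ^ 2) + (1 + x ^ 2)⁻¹ - 2 * ‖g x‖ =
      (‖g x‖ * (1 + x ^ 2) - 1) ^ 2 * (1 + x ^ 2)⁻¹ := by
    field_simp
    ring
  have h2 : 0 ≤ (‖g x‖ * (1 + x ^ 2) - 1) ^ 2 * (1 + x ^ 2)⁻¹ := by positivity
  have h3 := norm_nonneg (g x)
  linarith

theorem vanish_eigen {ε : ℂ} (hε : ε = 1 ∨ ε = -1) {g : ℝ → ℂ} (hc : Continuous g)
    (heven : ∀ x, g (-x) = g x) (hw : Integrable fun x : ℝ => ‖g x‖ ^ 2 * (1 + x ^ 2))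
    (hF : ∀ ξ, 𝓕 g ξ = ε * g ξ) (hz : ∀ n : ℕ, g (√n) = 0) (x : ℝ) : g x = 0 := by
  obtain ⟨hεε, hε1⟩ := eps_facts hε
  have hi : Integrable g := integrable_of_weight hc.aestronglyMeasurable hw
  have hFe : 𝓕 g = fun ξ => ε * g ξ := funext hF
  have hi' : Integrable (𝓕 g) := by
    rw [hFe]
    exact hi.const_mul ε
  have h2 : MemLp (fun ξ : ℝ => (2 * Real.pi * I * ξ) * 𝓕 g ξ) 2 := by
    have hcont : Continuous fun ξ : ℝ => (2 * Real.pi * I * ξ) * 𝓕 g ξ := by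
      rw [hFe]
      fun_prop
    rw [memLp_two_iff_integrable_sq_norm hcont.aestronglyMeasurable]
    refine (hw.const_mul ((2 * Real.pi) ^ 2)).mono' (hcont.norm.pow 2).aestronglyMeasurable
      (Eventually.of_forall fun ξ => ?_)
    have e1 : ‖(2 * Real.pi * I * ξ) * 𝓕 g ξ‖ = 2 * Real.pi * |ξ| * ‖g ξ‖ := by
      rw [hF, norm_mul, norm_mul ε, hε1, one_mul]
      congr 1
      have : (2 * Real.pi * I * ξ : ℂ) = ((2 * Real.pi * ξ : ℝ) : ℂ) * I := by push_cast; ring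
      rw [this, norm_mul, Complex.norm_I, mul_one, Complex.norm_real, Real.norm_eq_abs, abs_mul,
        abs_of_pos Real.two_pi_pos]
    rw [e1, Real.norm_eq_abs, abs_of_nonneg (by positivity), mul_pow, mul_pow, sq_abs]
    have h3 : 0 ≤ (2 * Real.pi) ^ 2 * ‖g ξ‖ ^ 2 := by positivity
    nlinarith
  obtain ⟨h, hh2, hftc⟩ := exists_deriv hc hi hi' h2
  have D : Dat g h :=
    { cont := hc
      even := heven
      integ := hi
      bdd := by
        refine ⟨∫ v, ‖g v‖, fun y => ?_⟩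
        have h4 : ‖g y‖ = ‖𝓕 g y‖ := by rw [hF, norm_mul, hε1, one_mul]
        rw [h4]
        exact VectorFourier.norm_fourierIntegral_le_integral_norm _ _ _ _ _
      l2 := (memLp_two_iff_integrable_sq_norm hh2.1).mp hh2
      li := fun a b => ((hh2.locallyIntegrable one_le_two).integrableOn_isCompact
        isCompact_uIcc).intervalIntegrable
      ftc := hftc }
  exact vanish hε D hF hz x

theorem fourier_even {f : ℝ → ℂ} (heven : ∀ x, f (-x) = f x) (ξ : ℝ) : 𝓕 f (-ξ) = 𝓕 f ξ := by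
  have h1 : 𝓕⁻ f ξ = 𝓕 f (-ξ) := Real.fourierInv_eq_fourier_neg f ξ
  have h2 := congrFun (Real.fourierInv_eq_fourier_comp_neg f) ξ
  have h3 : (fun x => f (-x)) = f := funext heven
  rw [h3] at h2
  rw [← h1, h2]

theorem uniqueness {f : ℝ → ℂ} (hc : Continuous f) (heven : ∀ x, f (-x) = f x)
    (hw : Integrable fun x : ℝ => (‖f x‖ ^ 2 + ‖𝓕 f x‖ ^ 2) * (1 + x ^ 2))
    (hz : ∀ n : ℕ, f (√n) = 0) (hz' : ∀ n : ℕ, 𝓕 f (√n) = 0) (x : ℝ) : f x = 0 := by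
  have hw1 : Integrable fun x : ℝ => ‖f x‖ ^ 2 * (1 + x ^ 2) := by
    have hcont : Continuous fun x : ℝ => ‖f x‖ ^ 2 * (1 + x ^ 2) := by fun_prop
    refine hw.mono' hcont.aestronglyMeasurable (Eventually.of_forall fun x => ?_)
    rw [Real.norm_eq_abs, abs_of_nonneg (by positivity)]
    have : 0 ≤ ‖𝓕 f x‖ ^ 2 := by positivity
    gcongr
    linarith
  have hi : Integrable f := integrable_of_weight hc.aestronglyMeasurable hw1
  have hFc : Continuous (𝓕 f) := fourier_cont hi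
  have hw2 : Integrable fun x : ℝ => ‖𝓕 f x‖ ^ 2 * (1 + x ^ 2) := by
    have hcont : Continuous fun x : ℝ => ‖𝓕 f x‖ ^ 2 * (1 + x ^ 2) := by fun_prop
    refine hw.mono' hcont.aestronglyMeasurable (Eventually.of_forall fun x => ?_)
    rw [Real.norm_eq_abs, abs_of_nonneg (by positivity)]
    have : 0 ≤ ‖f x‖ ^ 2 := by positivity
    gcongr
    linarith
  have hi' : Integrable (𝓕 f) := integrable_of_weight hFc.aestronglyMeasurable hw2
  have hFF : ∀ ξ, 𝓕 (𝓕 f) ξ = f ξ := by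
    intro ξ
    have h1 := congrFun (hc.fourierInv_fourier_eq hi hi') (-ξ)
    rw [Real.fourierInv_eq_fourier_neg, neg_neg, heven] at h1
    exact h1
  have hadd : ∀ ε : ℂ, ∀ ξ, 𝓕 (fun x => f x + ε * 𝓕 f x) ξ = 𝓕 f ξ + ε * f ξ := by
    intro ε ξ
    have h1 : 𝓕 (f + ε • 𝓕 f) ξ = 𝓕 f ξ + 𝓕 (ε • 𝓕 f) ξ :=
      congrFun (VectorFourier.fourierIntegral_add Real.continuous_fourierChar
        (L := innerₗ ℝ) continuous_inner hi (hi'.smul ε)) ξ
    have h2 : 𝓕 (ε • 𝓕 f) ξ = ε • 𝓕 (𝓕 f) ξ :=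
      congrFun (VectorFourier.fourierIntegral_const_smul _ _ _ (𝓕 f) ε) ξ
    have h3 : (fun x => f x + ε * 𝓕 f x) = f + ε • 𝓕 f := by
      ext y
      simp
    rw [h3, h1, h2, hFF, smul_eq_mul]
  have key : ∀ ε : ℂ, (ε = 1 ∨ ε = -1) → f x + ε * 𝓕 f x = 0 := by
    intro ε hε
    obtain ⟨hεε, hε1⟩ := eps_facts hε
    refine vanish_eigen hε (g := fun x => f x + ε * 𝓕 f x) (by fun_prop) (fun y => ?_) ?_
      (fun ξ => ?_) (fun n => ?_) x
    · rw [heven, fourier_even heven]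
    · have hcont : Continuous fun x : ℝ => ‖f x + ε * 𝓕 f x‖ ^ 2 * (1 + x ^ 2) := by fun_prop
      refine (hw.const_mul 2).mono' hcont.aestronglyMeasurable (Eventually.of_forall fun y => ?_)
      rw [Real.norm_eq_abs, abs_of_nonneg (by positivity)]
      have h1 : ‖f y + ε * 𝓕 f y‖ ≤ ‖f y‖ + ‖𝓕 f y‖ := by
        refine (norm_add_le _ _).trans ?_
        rw [norm_mul, hε1, one_mul]
      have h2 : ‖f y + ε * 𝓕 f y‖ ^ 2 ≤ 2 * (‖f y‖ ^ 2 + ‖𝓕 f y‖ ^ 2) := by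
        have h3 : ‖f y + ε * 𝓕 f y‖ ^ 2 ≤ (‖f y‖ + ‖𝓕 f y‖) ^ 2 := by gcongr
        nlinarith [sq_nonneg (‖f y‖ - ‖𝓕 f y‖)]
      calc _ ≤ 2 * (‖f y‖ ^ 2 + ‖𝓕 f y‖ ^ 2) * (1 + y ^ 2) := by gcongr
        _ = _ := by ring
    · rw [hadd]
      linear_combination (-(𝓕 f ξ)) * hεε
    · rw [hz, hz']
      ring
  have k1 := key 1 (Or.inl rfl)
  have k2 := key (-1) (Or.inr rfl)
  linear_combination (1 / 2 : ℂ) * k1 + (1 / 2 : ℂ) * k2

end Pool.Agent.Helper45.FU
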