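import Pool.Agent.Helper45.FU.Theta

/-!
# Homogeneous solutions
-/

open Complex Filter Topology

namespace Pool.Agent.Helper45.FU

theorem sl_of_inv {ε : ℂ} {f : ℂ → ℂ} {w : ℂ} (hw : 0 < w.im)
    (hf : f (-1 / w) = -(ε * sr w * f w)) (hε : ε * ε = 1) : f w = sl ε f w := by
  have h1 := sr_ne_zero hw
  unfold sl
  rw [hf, J_eq_sr]
  field_simp
  linear_combination -(f w) * hε

theorem cusp_point {z : ℂ} : (1 : ℂ) - 1 / z = -1 / z + 1 := by ring

theorem th3_cusp {z : ℂ} (hz : 0 < z.im) : th3 (1 - 1 / z) = sr z * th2 z := by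
  rw [cusp_point, th3_add_one, th4_inv hz]

theorem th4_cusp {z : ℂ} (hz : 0 < z.im) : th4 (1 - 1 / z) = sr z * th3 z := by
  rw [cusp_point, th4_add_one, th3_inv hz]

theorem th2_cusp {z : ℂ} (hz : 0 < z.im) : th2 (1 - 1 / z) = J 1 * (sr z * th4 z) := by
  rw [cusp_point, th2_add_one, th2_inv hz]

theorem E3_cusp {z : ℂ} (hz : 0 < z.im) : E3 (1 - 1 / z) = sr z ^ 8 * E2 z := by
  rw [cusp_point, E3_add_one, E4_inv hz, sr_pow_eight]

/-- the solution for the plus sign -/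
noncomputable def Hp (w : ℂ) : ℂ := th3 w ^ 5 * (th4 w ^ 4 - th2 w ^ 4) / E3 w

/-- the solution for the minus sign -/
noncomputable def Hm (w : ℂ) : ℂ := th3 w * (th2 w ^ 4 * th4 w ^ 4) / E3 w

theorem Hp_add_two (w : ℂ) : Hp (w + 2) = Hp w := by
  unfold Hp
  rw [th3_add_two, th4_add_two, th2_pow_four_add_two, E3_add_two]

theorem Hm_add_two (w : ℂ) : Hm (w + 2) = Hm w := by
  unfold Hm
  rw [th3_add_two, th4_add_two, th2_pow_four_add_two, E3_add_two]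

theorem Hp_inv {w : ℂ} (hw : 0 < w.im) : Hp (-1 / w) = -(1 * sr w * Hp w) := by
  have h1 := sr_ne_zero hw
  have h2 := (E_ne_zero hw).2.1
  unfold Hp
  rw [th3_inv hw, th4_inv hw, th2_inv hw, E3_inv hw, ← sr_pow_eight w]
  field_simp
  ring

theorem Hm_inv {w : ℂ} (hw : 0 < w.im) : Hm (-1 / w) = -(-1 * sr w * Hm w) := by
  have h1 := sr_ne_zero hw
  have h2 := (E_ne_zero hw).2.1
  unfold Hm
  rw [th3_inv hw, th4_inv hw, th2_inv hw, E3_inv hw, ← sr_pow_eight w]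
  field_simp

theorem Hp_cusp {z : ℂ} (hz : 0 < z.im) :
    J z * Hp (1 - 1 / z) = th2 z ^ 5 * (th3 z ^ 4 + th4 z ^ 4) / E2 z := by
  have h1 := sr_ne_zero hz
  have h2 := (E_ne_zero hz).1
  unfold Hp
  rw [th3_cusp hz, th4_cusp hz, th2_cusp hz, E3_cusp hz, J_eq_sr]
  have e : (J 1 * (sr z * th4 z)) ^ 4 = -(sr z ^ 4 * th4 z ^ 4) := by
    calc (J 1 * (sr z * th4 z)) ^ 4 = J 1 ^ 4 * (sr z ^ 4 * th4 z ^ 4) := by ring
      _ = _ := by rw [J_one_pow_four]; ring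
  rw [e]
  field_simp
  ring

theorem Hm_cusp {z : ℂ} (hz : 0 < z.im) :
    J z * Hm (1 - 1 / z) = -(th2 z * (th3 z ^ 4 * th4 z ^ 4)) / E2 z := by
  have h1 := sr_ne_zero hz
  have h2 := (E_ne_zero hz).1
  unfold Hm
  rw [th3_cusp hz, th4_cusp hz, th2_cusp hz, E3_cusp hz, J_eq_sr]
  have e : (J 1 * (sr z * th4 z)) ^ 4 = -(sr z ^ 4 * th4 z ^ 4) := by
    calc (J 1 * (sr z * th4 z)) ^ 4 = J 1 ^ 4 * (sr z ^ 4 * th4 z ^ 4) := by ring
      _ = _ := by rw [J_one_pow_four]; ring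
  rw [e]
  field_simp

theorem th2_zero : Tendsto th2 Iinf (𝓝 0) := by
  have h1 := tendsto_th2
  have h2 : Tendsto (fun w : ℂ => cexp (Real.pi * I * w / 4)) Iinf (𝓝 0) := by
    rw [tendsto_zero_iff_norm_tendsto_zero]
    have e : ∀ w : ℂ, ‖cexp (Real.pi * I * w / 4)‖ = Real.exp (-(Real.pi / 4) * w.im) := by
      intro w
      rw [Complex.norm_exp]
      congr 1
      have : (Real.pi * I * w / 4 : ℂ) = ((Real.pi / 4 : ℝ) : ℂ) * (I * w) := by push_cast; ring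
      rw [this, Complex.re_ofReal_mul]
      simp
    simp_rw [e]
    have h3 : Tendsto Complex.im Iinf atTop := tendsto_comap
    have h4 : Tendsto (fun y : ℝ => -(Real.pi / 4) * y) atTop atBot :=
      tendsto_id.const_mul_atTop_of_neg (by linarith [Real.pi_pos])
    exact (Real.tendsto_exp_atBot.comp h4).comp h3
  have h3 := h2.mul h1
  rw [zero_mul] at h3
  refine h3.congr fun w => ?_
  rw [← mul_assoc, ← Complex.exp_add]
  simp

theorem tendsto_Hp : Tendsto Hp Iinf (𝓝 (1 ^ 5 * (1 ^ 4 - 0 ^ 4) / 2)) :=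
  (((tendsto_th3.pow 5).mul ((tendsto_th4.pow 4).sub (th2_zero.pow 4))).div tendsto_E3
    (by norm_num))

theorem tendsto_Hm : Tendsto Hm Iinf (𝓝 (1 * (0 ^ 4 * 1 ^ 4) / 2)) :=
  ((tendsto_th3.mul ((th2_zero.pow 4).mul (tendsto_th4.pow 4))).div tendsto_E3 (by norm_num))

theorem Hp_diff : DifferentiableOn ℂ Hp HH :=
  ((th3_diff.pow 5).mul ((th4_diff.pow 4).sub (th2_diff.pow 4))).div E3_diff
    (fun _ hw => (E_ne_zero hw).2.1)

theorem Hm_diff : DifferentiableOn ℂ Hm HH :=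
  ((th3_diff).mul ((th2_diff.pow 4).mul (th4_diff.pow 4))).div E3_diff
    (fun _ hw => (E_ne_zero hw).2.1)

theorem bounded_of_tendsto {f : ℂ → ℂ} {a : ℂ} (hf : Tendsto f Iinf (𝓝 a)) :
    ∃ A : ℝ, ∀ w : ℂ, A ≤ w.im → ‖f w‖ ≤ ‖a‖ + 1 := by
  have h := hf.norm.eventually (gt_mem_nhds (show ‖a‖ < ‖a‖ + 1 by linarith))
  rw [eventually_Iinf] at h
  obtain ⟨A, hA⟩ := h
  exact ⟨A, fun w hw => (hA w hw).le⟩

theorem bounded_of_tendsto_periodic {f : ℂ → ℂ} {a : ℂ} (hf : Tendsto f Iinf (𝓝 a)) {h : ℝ}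
    (hh : 0 < h) (hper : ∀ w, f (w + h) = f w) (hcont : ContinuousOn f HH) {s : ℝ} (hs : 0 < s) :
    ∃ B' : ℝ, 0 < B' ∧ ∀ w : ℂ, s ≤ w.im → ‖f w‖ ≤ B' := by
  obtain ⟨A, hA⟩ := bounded_of_tendsto hf
  exact bounded_of_periodic hh hper hcont hA hs

/-- the local exponent -/
noncomputable def kap (ε : ℂ) : ℝ := if ε = 1 then 5 / 8 else 1 / 8

theorem exists_H1 {ε : ℂ} (hε : ε = 1 ∨ ε = -1) : ∃ H : ℂ → ℂ, DifferentiableOn ℂ H HH ∧
    (∀ w, H (w + 2) = H w) ∧ (∀ w : ℂ, 0 < w.im → H w = sl ε H w) ∧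
    (∃ B : ℝ, 0 < B ∧ ∀ w : ℂ, 1 ≤ w.im → ‖H w‖ ≤ B) ∧
    ∃ a : ℂ, a ≠ 0 ∧ Tendsto (fun z => cexp (2 * Real.pi * I * (1 - kap ε) * z) *
      (J z * H (1 - 1 / z))) Iinf (𝓝 a) := by
  have e2 : ((2 : ℝ) : ℂ) = 2 := by norm_num
  obtain ⟨a, ha, hta⟩ := exists_tendsto_E2
  rcases hε with rfl | rfl
  · refine ⟨Hp, Hp_diff, Hp_add_two, fun w hw => sl_of_inv hw (Hp_inv hw) (by norm_num),
      bounded_of_tendsto_periodic tendsto_Hp two_pos (by rw [e2]; exact Hp_add_two)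
        Hp_diff.continuousOn one_pos, 2 ^ 5 * (1 ^ 4 + 1 ^ 4) / a, by
          simpa using (div_ne_zero (by norm_num) ha : ((2 : ℂ) ^ 5 * (1 ^ 4 + 1 ^ 4)) / a ≠ 0), ?_⟩
    have h := ((tendsto_th2.pow 5).mul ((tendsto_th3.pow 4).add (tendsto_th4.pow 4))).div hta ha
    refine h.congr' ?_
    rw [eventuallyEq_iff_exists_mem]
    refine ⟨{z | 1 ≤ z.im}, ?_, ?_⟩
    · change ∀ᶠ z in Iinf, 1 ≤ z.im
      rw [eventually_Iinf]
      exact ⟨1, fun z hz => hz⟩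
    · intro z hz
      have hz0 : 0 < z.im := by
        have : 1 ≤ z.im := hz
        linarith
      have hE := (E_ne_zero hz0).1
      simp only [Pi.div_apply]
      rw [Hp_cusp hz0, mul_pow, ← Complex.exp_nat_mul]
      unfold kap
      rw [if_pos rfl]
      rw [div_eq_iff (mul_ne_zero (Complex.exp_ne_zero _) hE)]
      have e3 : cexp (((5 : ℕ) : ℂ) * -(Real.pi * I * z / 4)) =
          cexp (2 * Real.pi * I * (1 - ((5 / 8 : ℝ) : ℂ)) * z) *
            cexp (-(2 * Real.pi * I * z)) := by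
        rw [← Complex.exp_add]
        congr 1
        push_cast
        ring
      rw [e3]
      field_simp
  · refine ⟨Hm, Hm_diff, Hm_add_two, fun w hw => sl_of_inv hw (Hm_inv hw) (by norm_num),
      bounded_of_tendsto_periodic tendsto_Hm two_pos (by rw [e2]; exact Hm_add_two)
        Hm_diff.continuousOn one_pos, -(2 * (1 ^ 4 * 1 ^ 4)) / a, by
          simpa using ha, ?_⟩
    have h := ((tendsto_th2.mul ((tendsto_th3.pow 4).mul (tendsto_th4.pow 4))).neg).div hta ha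
    refine h.congr' ?_
    rw [eventuallyEq_iff_exists_mem]
    refine ⟨{z | 1 ≤ z.im}, ?_, ?_⟩
    · change ∀ᶠ z in Iinf, 1 ≤ z.im
      rw [eventually_Iinf]
      exact ⟨1, fun z hz => hz⟩
    · intro z hz
      have hz0 : 0 < z.im := by
        have : 1 ≤ z.im := hz
        linarith
      have hE := (E_ne_zero hz0).1
      simp only [Pi.div_apply]
      rw [Hm_cusp hz0]
      unfold kap
      rw [if_neg (by norm_num)]
      rw [div_eq_iff (mul_ne_zero (Complex.exp_ne_zero _) hE)]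
      have e3 : cexp (-(Real.pi * I * z / 4)) =
          cexp (2 * Real.pi * I * (1 - ((1 / 8 : ℝ) : ℂ)) * z) *
            cexp (-(2 * Real.pi * I * z)) := by
        rw [← Complex.exp_add]
        congr 1
        push_cast
        ring
      rw [e3]
      field_simp

end Pool.Agent.Helper45.FU
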