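import Pool.Agent.Helper45.FU.Circle

/-!
# The interpolation identity for the hyperbolic cosine kernel
-/

open Complex Filter Topology MeasureTheory FourierTransform

namespace Pool.Agent.Helper45.FU

theorem wc_im (a r θ : ℝ) : (wc a r θ).im = a + r * Real.sin θ := by
  unfold wc
  rw [Complex.add_im, Complex.im_ofReal_mul, Complex.im_ofReal_mul, Complex.exp_ofReal_mul_I_im]
  simp

theorem wc_im_ge {a : ℝ} (ha : 0 < a) (θ : ℝ) : a / 2 ≤ (wc a (a / 2) θ).im := by
  rw [wc_im]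
  nlinarith [Real.neg_one_le_sin θ]

theorem wc_im_pos {a : ℝ} (ha : 0 < a) (θ : ℝ) : 0 < (wc a (a / 2) θ).im :=
  lt_of_lt_of_le (by linarith) (wc_im_ge ha θ)

theorem norm_wc_le {a : ℝ} (ha : 0 < a) (θ : ℝ) : ‖wc a (a / 2) θ‖ ≤ 2 * a := by
  unfold wc
  calc ‖(a : ℂ) * I + ((a / 2 : ℝ) : ℂ) * cexp (θ * I)‖
      ≤ ‖(a : ℂ) * I‖ + ‖((a / 2 : ℝ) : ℂ) * cexp (θ * I)‖ := norm_add_le _ _
    _ = a + a / 2 := by
        rw [norm_mul, norm_mul, norm_I, Complex.norm_exp_ofReal_mul_I, Complex.norm_real,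
          Complex.norm_real, Real.norm_eq_abs, Real.norm_eq_abs, abs_of_pos ha,
          abs_of_pos (by linarith : 0 < a / 2)]
        ring
    _ ≤ 2 * a := by linarith

theorem norm_wc_ge {a : ℝ} (ha : 0 < a) (θ : ℝ) : a / 2 ≤ ‖wc a (a / 2) θ‖ :=
  (wc_im_ge ha θ).trans ((le_abs_self _).trans (Complex.abs_im_le_norm _))

theorem norm_G (w : ℂ) (t : ℝ) :
    ‖cexp (Real.pi * I * w * t)‖ = Real.exp (-(Real.pi * t * w.im)) := by
  rw [Complex.norm_exp]
  congr 1
  have : (Real.pi * I * w * t : ℂ) = ((Real.pi * t : ℝ) : ℂ) * (I * w) := by push_cast; ring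
  rw [this, Complex.re_ofReal_mul]
  simp

theorem norm_G1_le {a : ℝ} (ha : 0 < a) (θ : ℝ) {t : ℝ} (ht : 0 ≤ t) :
    ‖cexp (Real.pi * I * wc a (a / 2) θ * t)‖ ≤ Real.exp (-(Real.pi * t * (a / 2))) := by
  rw [norm_G]
  apply Real.exp_le_exp.mpr
  have := wc_im_ge ha θ
  have hpi := Real.pi_pos
  have : Real.pi * t * (a / 2) ≤ Real.pi * t * (wc a (a / 2) θ).im := by gcongr
  linarith

theorem im_inv_wc_ge {a : ℝ} (ha : 0 < a) (θ : ℝ) :
    1 / (8 * a) ≤ (-1 / wc a (a / 2) θ).im := by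
  have h1 := wc_im_ge ha θ
  have h2 := norm_wc_le ha θ
  have h3 := norm_wc_ge ha θ
  have h0 : 0 < ‖wc a (a / 2) θ‖ := by linarith
  rw [im_neg_inv]
  have h4 := (wc_im_pos ha θ).le
  calc 1 / (8 * a) = (a / 2) / (2 * a) ^ 2 := by field_simp; norm_num
    _ ≤ _ := by gcongr

theorem norm_J_wc_le {a : ℝ} (ha : 0 < a) (θ : ℝ) :
    ‖J (wc a (a / 2) θ)‖ ≤ (a / 2) ^ (-(1 / 2) : ℝ) := by
  rw [norm_J]
  exact Real.rpow_le_rpow_of_nonpos (by linarith) (norm_wc_ge ha θ) (by norm_num)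

theorem norm_G2_le {a : ℝ} (ha : 0 < a) (θ : ℝ) {t : ℝ} (ht : 0 ≤ t) :
    ‖J (wc a (a / 2) θ) * cexp (Real.pi * I * (-1 / wc a (a / 2) θ) * t)‖ ≤
      (a / 2) ^ (-(1 / 2) : ℝ) * Real.exp (-(Real.pi * t * (1 / (8 * a)))) := by
  rw [norm_mul, norm_G]
  have h1 := norm_J_wc_le ha θ
  have h2 := im_inv_wc_ge ha θ
  have hpi := Real.pi_pos
  gcongr

theorem continuous_wc (a r : ℝ) : Continuous (wc a r) := by
  unfold wc
  fun_prop

theorem continuous_J_wc {a : ℝ} (ha : 0 < a) : Continuous fun θ => J (wc a (a / 2) θ) := by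
  rw [continuous_iff_continuousAt]
  intro θ
  exact ContinuousAt.comp (f := wc a (a / 2)) (g := J)
    (differentiableAt_J (wc_im_pos ha θ)).continuousAt (continuous_wc a (a / 2)).continuousAt

theorem continuous_inv_wc {a : ℝ} (ha : 0 < a) : Continuous fun θ => -1 / wc a (a / 2) θ :=
  continuous_const.div (continuous_wc a (a / 2)) (fun θ => ne_zero_of_im_pos (wc_im_pos ha θ))

theorem summable_exp_bound {B : ℕ → ℂ}
    (hB : ∀ v : ℝ, 0 < v → Summable fun n : ℕ => ‖B n‖ * Real.exp (-(Real.pi * n * v)))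
    {a : ℝ} (ha : 0 < a) (K : ℝ) :
    Summable fun n : ℕ => ‖B n‖ * ((Real.exp (-(Real.pi * n * (a / 2))) +
      (a / 2) ^ (-(1 / 2) : ℝ) * Real.exp (-(Real.pi * n * (1 / (8 * a))))) * K) := by
  have h1 := (hB (a / 2) (by linarith)).mul_right K
  have h2 := ((hB (1 / (8 * a)) (by positivity)).mul_left ((a / 2) ^ (-(1 / 2) : ℝ))).mul_right K
  refine (h1.add h2).congr fun n => ?_
  ring

/-- first superposition -/
noncomputable def k1 (a β t : ℝ) : ℂ :=
  ∫ θ, cexp (Real.pi * I * wc a (a / 2) θ * t) * Wd (ph (a / 2) β) θ ∂mc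

/-- second superposition -/
noncomputable def k2 (a β t : ℝ) : ℂ :=
  ∫ θ, J (wc a (a / 2) θ) * cexp (Real.pi * I * (-1 / wc a (a / 2) θ) * t) *
    Wd (ph (a / 2) β) θ ∂mc

theorem integrable_G1 {a : ℝ} (ha : 0 < a) (β t : ℝ) :
    Integrable (fun θ => cexp (Real.pi * I * wc a (a / 2) θ * t) * Wd (ph (a / 2) β) θ) mc := by
  have h1 := continuous_wc a (a / 2)
  have h2 := continuous_Wd (summable_ph (by linarith : 0 < a / 2) β)
  have : Continuous fun θ => cexp (Real.pi * I * wc a (a / 2) θ * t) * Wd (ph (a / 2) β) θ := by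
    fun_prop
  unfold mc
  exact this.integrableOn_Ioc

theorem integrable_G2 {a : ℝ} (ha : 0 < a) (β t : ℝ) :
    Integrable (fun θ => J (wc a (a / 2) θ) * cexp (Real.pi * I * (-1 / wc a (a / 2) θ) * t) *
      Wd (ph (a / 2) β) θ) mc := by
  have h1 := continuous_J_wc ha
  have h2 := continuous_Wd (summable_ph (by linarith : 0 < a / 2) β)
  have h3 := continuous_inv_wc ha
  have : Continuous fun θ => J (wc a (a / 2) θ) *
      cexp (Real.pi * I * (-1 / wc a (a / 2) θ) * t) * Wd (ph (a / 2) β) θ := by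
    fun_prop
  unfold mc
  exact this.integrableOn_Ioc

theorem ident_circle {ε : ℂ} (hε1 : ‖ε‖ = 1) {B : ℕ → ℂ} {x : ℝ}
    (hB : ∀ v : ℝ, 0 < v → Summable fun n : ℕ => ‖B n‖ * Real.exp (-(Real.pi * n * v)))
    (hid : ∀ w : ℂ, 0 < w.im → ∑' n : ℕ, B n * (cexp (Real.pi * I * w * n) +
          ε * J w * cexp (Real.pi * I * (-1 / w) * n)) =
        cexp (Real.pi * I * w * x ^ 2) + ε * J w * cexp (Real.pi * I * (-1 / w) * x ^ 2))
    {a : ℝ} (ha : 0 < a) (β : ℝ) :
    HasSum (fun n : ℕ => B n * (k1 a β n + ε * k2 a β n)) (k1 a β (x ^ 2) + ε * k2 a β (x ^ 2)) := by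
  set W := Wd (ph (a / 2) β) with hW
  have hφ := summable_ph (by linarith : 0 < a / 2) β
  set K : ℝ := ∑' j, ‖ph (a / 2) β j‖ with hK
  have hWn : ∀ θ, ‖W θ‖ ≤ K := fun θ => norm_Wd_le hφ θ
  have hWc : Continuous W := continuous_Wd hφ
  set g : ℝ → ℝ → ℂ := fun t θ => cexp (Real.pi * I * wc a (a / 2) θ * t) +
    ε * (J (wc a (a / 2) θ) * cexp (Real.pi * I * (-1 / wc a (a / 2) θ) * t)) with hg
  have hgn : ∀ (n : ℕ) (θ : ℝ), ‖g n θ‖ ≤ Real.exp (-(Real.pi * n * (a / 2))) +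
      (a / 2) ^ (-(1 / 2) : ℝ) * Real.exp (-(Real.pi * n * (1 / (8 * a)))) := by
    intro n θ
    simp only [hg]
    refine (norm_add_le _ _).trans ?_
    rw [norm_mul, hε1, one_mul]
    exact add_le_add (norm_G1_le ha θ (Nat.cast_nonneg n)) (norm_G2_le ha θ (Nat.cast_nonneg n))
  have hgc : ∀ t : ℝ, Continuous (g t) := by
    intro t
    have h1 := continuous_wc a (a / 2)
    have h2 := continuous_J_wc ha
    have h3 := continuous_inv_wc ha
    simp only [hg]
    fun_prop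
  have hgs : ∀ θ : ℝ, HasSum (fun n : ℕ => B n * g n θ) (g (x ^ 2) θ) := by
    intro θ
    have hs : Summable fun n : ℕ => B n * g n θ := by
      refine Summable.of_norm_bounded (summable_exp_bound hB ha 1) fun n => ?_
      rw [norm_mul, mul_one]
      gcongr
      exact hgn n θ
    have h1 := hid (wc a (a / 2) θ) (wc_im_pos ha θ)
    have h2 : g (x ^ 2) θ = ∑' n : ℕ, B n * g n θ := by
      simp only [hg]
      push_cast
      rw [← mul_assoc ε, ← h1]
      refine tsum_congr fun n => ?_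
      ring
    rw [h2]
    exact hs.hasSum
  have h := hasSum_integral_of_bound (μ := mc)
    (F := fun (n : ℕ) (θ : ℝ) => B n * g n θ * W θ) (f := fun θ => g (x ^ 2) θ * W θ)
    (summable_exp_bound hB ha K)
    (fun n => by
      have h1 := hgc n
      have : Continuous fun θ => B n * g n θ * W θ := by fun_prop
      exact this.aestronglyMeasurable)
    (fun n θ => by
      rw [norm_mul, norm_mul, mul_assoc]
      have := hgn n θ
      have := hWn θ
      have hK0 : 0 ≤ K := (norm_nonneg _).trans (hWn θ)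
      gcongr)
    (fun θ => (hgs θ).mul_right _)
  have hsplit : ∀ t : ℝ, ∫ θ, g t θ * W θ ∂mc = k1 a β t + ε * k2 a β t := by
    intro t
    unfold k1 k2
    rw [← integral_const_mul, ← integral_add (integrable_G1 ha β t)
      ((integrable_G2 ha β t).const_mul ε)]
    refine integral_congr_ae (Eventually.of_forall fun θ => ?_)
    simp only [hg]
    ring
  rw [hsplit] at h
  refine h.congr_fun ?_
  intro n
  rw [← hsplit, ← integral_const_mul]
  refine integral_congr_ae (Eventually.of_forall fun θ => ?_)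
  simp only
  ring

theorem k1_eq {a : ℝ} (ha : 0 < a) (β : ℝ) {t : ℝ} (ht : 0 ≤ t) :
    k1 a β t = 2 * Real.pi * (cexp (-(Real.pi * a * t)) * Complex.cosh (2 * Real.pi * β * √t)) :=
  cosh_superposition (by linarith) a β ht

theorem fourier_G {w : ℂ} (hw : 0 < w.im) (t : ℝ) :
    𝓕 (fun y : ℝ => cexp (Real.pi * I * w * ((y ^ 2 : ℝ) : ℂ))) t =
      J w * cexp (Real.pi * I * (-1 / w) * ((t ^ 2 : ℝ) : ℂ)) := by
  have h0 := ne_zero_of_im_pos hw
  have h := fourier_gaussian_pi (b := -I * w) (by rw [re_negI_mul]; exact hw)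
  have e1 : (fun y : ℝ => cexp (-Real.pi * (-I * w) * y ^ 2)) =
      fun y : ℝ => cexp (Real.pi * I * w * ((y ^ 2 : ℝ) : ℂ)) := by
    ext y
    congr 1
    push_cast
    ring
  rw [e1] at h
  rw [h]
  unfold J
  push_cast
  have hI : I ≠ 0 := I_ne_zero
  have : (-Real.pi / (-I * w) : ℂ) = Real.pi * I * (-1 / w) := by
    field_simp
    rw [I_sq]; ring
  rw [this]

theorem k2_eq {a : ℝ} (ha : 0 < a) (β ξ : ℝ) :
    k2 a β (ξ ^ 2) = 𝓕 (fun y : ℝ => k1 a β (y ^ 2)) ξ := by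
  set W := Wd (ph (a / 2) β) with hW
  have hφ := summable_ph (by linarith : 0 < a / 2) β
  set K : ℝ := ∑' j, ‖ph (a / 2) β j‖ with hK
  have hWn : ∀ θ, ‖W θ‖ ≤ K := fun θ => norm_Wd_le hφ θ
  have hWc : Continuous W := continuous_Wd hφ
  have e1 : ∀ θ : ℝ, J (wc a (a / 2) θ) *
      cexp (Real.pi * I * (-1 / wc a (a / 2) θ) * ((ξ ^ 2 : ℝ) : ℂ)) * W θ =
      ∫ y : ℝ, cexp (↑(-2 * Real.pi * y * ξ) * I) *
        (cexp (Real.pi * I * wc a (a / 2) θ * ((y ^ 2 : ℝ) : ℂ)) * W θ) := by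
    intro θ
    rw [← fourier_G (wc_im_pos ha θ) ξ, Real.fourier_real_eq_integral_exp_smul,
      ← integral_mul_const]
    refine integral_congr_ae (Eventually.of_forall fun y => ?_)
    simp only [smul_eq_mul]
    ring
  unfold k2 k1
  rw [Real.fourier_real_eq_integral_exp_smul]
  rw [← hW]
  simp_rw [e1, smul_eq_mul, ← integral_const_mul]
  refine integral_integral_swap ?_
  -- integrability on the product
  have hc1 := continuous_wc a (a / 2)
  have hcont : Continuous (fun p : ℝ × ℝ => cexp (↑(-2 * Real.pi * p.2 * ξ) * I) *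
        (cexp (Real.pi * I * wc a (a / 2) p.1 * ((p.2 ^ 2 : ℝ) : ℂ)) * W p.1)) := by
    fun_prop
  have hint1 : Integrable (fun y : ℝ => Real.exp (-(Real.pi * (a / 2)) * y ^ 2)) volume :=
    integrable_exp_neg_mul_sq (by have := Real.pi_pos; positivity)
  have hint2 : Integrable (fun _ : ℝ => K) mc := integrable_const K
  refine (hint2.mul_prod hint1).mono' hcont.aestronglyMeasurable
    (Eventually.of_forall fun p => ?_)
  simp only [Function.uncurry]
  rw [norm_mul, norm_mul, Complex.norm_exp_ofReal_mul_I, one_mul, mul_comm]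
  have h1 := norm_G1_le ha p.1 (sq_nonneg p.2)
  have h2 := hWn p.1
  have h3 : Real.exp (-(Real.pi * p.2 ^ 2 * (a / 2))) =
      Real.exp (-(Real.pi * (a / 2)) * p.2 ^ 2) := by ring_nf
  rw [h3] at h1
  have hK0 : 0 ≤ K := (norm_nonneg _).trans (hWn p.1)
  gcongr

end Pool.Agent.Helper45.FU
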