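import Pool.Agent.Helper45.FU.Eis

/-!
# A first solution of the cohomological equation
-/

open Complex

namespace Pool.Agent.Helper45.FU

theorem Adm.norm_le {R : ℤ × ℤ → Prop} {a : ℤ × ℤ → ℂ → ℂ} {q : ℝ} (hq : 0 ≤ q) (h : Adm R a q)
    {w : ℂ} (hw : 0 < w.im) :
    ‖WS R a w‖ ≤ q * (1 + 1 / w.im ^ 2) * (rho w)⁻¹ * T3 w := by
  classical
  unfold WS T3
  rw [← tsum_mul_left]
  refine tsum_of_norm_bounded ((summable_lin3 hw).mul_left _).hasSum fun p => ?_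
  have hr := rho_pos hw
  split_ifs with hp
  · exact h.term_le hq hw hp
  · rw [norm_zero]
    positivity

/-- the coefficient functions -/
noncomputable def aC (ε : ℂ) (x : ℝ) (c : ℂ) (p : ℤ × ℤ) : ℂ → ℂ := CC ε (Qt ε x c) p.1 p.2

theorem adm_aC {ε : ℂ} (hε : ‖ε‖ = 1) (x : ℝ) (c : ℂ) :
    Adm R3 (aC ε x c) (2 * (1 + ‖c‖)) := by
  intro p hp
  refine ⟨ne_zero_of_coprime hp.1, differentiableOn_CC differentiableOn_Qt _ le_rfl hp,
    fun w hw => ?_⟩
  have hq : (0 : ℝ) ≤ 2 * (1 + ‖c‖) := by positivity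
  have h := CC_bound hε hq (Q := Qt ε x c) (fun v hv => im_rpow_mul_norm_Qt_le hε hv) _
    (le_refl p.1.natAbs) hp w hw
  have h3 : 0 ≤ Hs w ^ (1 / 4 : ℝ) := Real.rpow_nonneg (Hs_pos hw).le _
  refine h.trans ?_
  gcongr
  exact le_max_left _ _

/-- the numerator -/
noncomputable def Nf (ε : ℂ) (x : ℝ) (c : ℂ) (w : ℂ) : ℂ := WS R3 (aC ε x c) w

/-- the first solution -/
noncomputable def M0 (ε : ℂ) (x : ℝ) (c : ℂ) (w : ℂ) : ℂ := Nf ε x c w / E3 w

theorem Nf_add_two (ε : ℂ) (x : ℝ) (c : ℂ) (w : ℂ) : Nf ε x c (w + 2) = Nf ε x c w := by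
  have h := WS_add (R := R3) (R' := R3) (a := aC ε x c) (a' := aC ε x c) (w := w) (k := 2)
    R3_eT_two (fun p hp => by
      unfold aC
      have h1 := CC_add ε (Qt ε x c) hp w 1
      simp only [eT, Equiv.coe_fn_mk]
      have e1 : p.2 + 2 * 1 * p.1 = p.2 + 2 * p.1 := by ring
      rw [e1] at h1
      rw [h1]
      norm_num)
  have e : w + ((2 : ℤ) : ℂ) = w + 2 := by norm_num
  rw [e] at h
  exact h

theorem Nf_eq {ε : ℂ} (hε : ε * ε = 1) (hε1 : ‖ε‖ = 1) (x : ℝ) (c : ℂ) {w : ℂ} (hw : 0 < w.im) :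
    w ^ 4 * Nf ε x c w = -(ε * J w * Nf ε x c (-1 / w)) + Qt ε x c w * (w ^ 4 * E3 w) := by
  classical
  have h1 := WS_inv (R := R3) (R' := R3) (a := aC ε x c)
    (a' := fun p v => aC ε x c (eS p) (-1 / v)) hw R3_eS (fun p _ => rfl)
  have hq : (0 : ℝ) ≤ 2 * (1 + ‖c‖) := by positivity
  have s1 := (adm_aC hε1 x c).summable hq hw
  have s2 := (adm_one R3_coprime).summable zero_le_one hw
  have key : ∀ p : ℤ × ℤ, (if R3 p then aC ε x c p w / lin w p ^ 4 else 0) =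
      -(ε * J w) * (if R3 p then aC ε x c (eS p) (-1 / w) / lin w p ^ 4 else 0) +
      Qt ε x c w * (if R3 p then 1 / lin w p ^ 4 else 0) := by
    intro p
    by_cases hp : R3 p
    · rw [if_pos hp, if_pos hp, if_pos hp]
      have h2 := CC_swap hε (Q := Qt ε x c) (fun v hv => sl_Qt hε x c hv)
        (c := -p.2) (d := p.1) hp.swap hw
      rw [neg_neg] at h2
      unfold aC
      rw [h2]
      unfold sl
      simp only [eS, Equiv.coe_fn_mk]
      ring
    · rw [if_neg hp, if_neg hp, if_neg hp]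
      ring
  have hEJ : -(ε * J w) ≠ 0 := by
    intro h0
    have h3 : ε * J w = 0 := by linear_combination -h0
    rcases mul_eq_zero.mp h3 with h4 | h4
    · rw [h4] at hε; simp at hε
    · exact J_ne_zero hw h4
  have s3 : Summable fun p : ℤ × ℤ =>
      (if R3 p then aC ε x c (eS p) (-1 / w) / lin w p ^ 4 else 0) := by
    have h4 : Summable fun p : ℤ × ℤ =>
        -(ε * J w) * (if R3 p then aC ε x c (eS p) (-1 / w) / lin w p ^ 4 else 0) := by
      refine (s1.sub (s2.mul_left (Qt ε x c w))).congr fun p => ?_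
      rw [key p]
      ring
    exact (summable_mul_left_iff hEJ).mp h4
  have h5 : Nf ε x c w = -(ε * J w) * WS R3 (fun p v => aC ε x c (eS p) (-1 / v)) w +
      Qt ε x c w * E3 w := by
    unfold Nf E3 EE WS
    rw [← tsum_mul_left, ← tsum_mul_left, ← (s3.mul_left _).tsum_add (s2.mul_left _)]
    exact tsum_congr key
  unfold Nf at h5 ⊢
  rw [h1, h5]
  ring

theorem M0_add_two (ε : ℂ) (x : ℝ) (c : ℂ) (w : ℂ) : M0 ε x c (w + 2) = M0 ε x c w := by
  unfold M0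
  rw [Nf_add_two, E3_add_two]

theorem M0_eq {ε : ℂ} (hε : ε * ε = 1) (hε1 : ‖ε‖ = 1) (x : ℝ) (c : ℂ) {w : ℂ} (hw : 0 < w.im) :
    M0 ε x c w = sl ε (M0 ε x c) w + Qt ε x c w := by
  have h := Nf_eq hε hε1 x c hw
  have h0 := ne_zero_of_im_pos hw
  have hE := (E_ne_zero hw).2.1
  unfold sl M0
  rw [E3_inv hw]
  generalize Nf ε x c (-1 / w) = n1 at h ⊢
  field_simp
  linear_combination h

theorem Nf_diff {ε : ℂ} (hε1 : ‖ε‖ = 1) (x : ℝ) (c : ℂ) : DifferentiableOn ℂ (Nf ε x c) HH :=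
  (adm_aC hε1 x c).differentiableOn (by positivity)

theorem M0_diff {ε : ℂ} (hε1 : ‖ε‖ = 1) (x : ℝ) (c : ℂ) : DifferentiableOn ℂ (M0 ε x c) HH :=
  (Nf_diff hε1 x c).div E3_diff (fun _ hw => (E_ne_zero hw).2.1)

/-- a continuous periodic function bounded near `i∞` is bounded on half planes -/
theorem bounded_of_periodic {f : ℂ → ℂ} {h : ℝ} (hh : 0 < h) (hper : ∀ w, f (w + h) = f w)
    (hcont : ContinuousOn f HH) {A B : ℝ} (hb : ∀ w : ℂ, A ≤ w.im → ‖f w‖ ≤ B) {s : ℝ}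
    (hs : 0 < s) : ∃ B' : ℝ, 0 < B' ∧ ∀ w : ℂ, s ≤ w.im → ‖f w‖ ≤ B' := by
  have hK : IsCompact (Set.Icc 0 h ×ℂ Set.Icc s A) := isCompact_Icc.reProdIm isCompact_Icc
  have hsub : (Set.Icc 0 h ×ℂ Set.Icc s A) ⊆ HH := by
    intro w hw
    have : s ≤ w.im := hw.2.1
    exact hs.trans_le this
  obtain ⟨C, hC⟩ := hK.exists_bound_of_continuousOn (hcont.mono hsub)
  refine ⟨max (max B C) 1, by positivity, fun w hw => ?_⟩
  by_cases hA : A ≤ w.im
  · exact (hb w hA).trans ((le_max_left _ _).trans (le_max_left _ _))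
  · push Not at hA
    have hper' : ∀ (n : ℤ) (v : ℂ), f (v + n * h) = f v := by
      have hp : Function.Periodic f (h : ℂ) := hper
      intro n v
      exact (hp.int_mul n) v
    set k : ℤ := ⌊w.re / h⌋ with hk
    set v : ℂ := w - k * h with hv
    have hvre : v.re = w.re - k * h := by
      rw [hv]
      simp
    have hvim : v.im = w.im := by
      rw [hv]
      simp
    have h1 : (k : ℝ) * h ≤ w.re := by
      have := Int.floor_le (w.re / h)
      rwa [← hk, le_div_iff₀ hh] at this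
    have h2 : w.re < (k + 1) * h := by
      have := Int.lt_floor_add_one (w.re / h)
      rwa [← hk, div_lt_iff₀ hh] at this
    have hmem : v ∈ Set.Icc 0 h ×ℂ Set.Icc s A := by
      refine ⟨⟨?_, ?_⟩, ⟨?_, ?_⟩⟩
      · change 0 ≤ v.re
        rw [hvre]; linarith
      · change v.re ≤ h
        rw [hvre]; linarith
      · change s ≤ v.im
        rw [hvim]; exact hw
      · change v.im ≤ A
        rw [hvim]; exact hA.le
    have h3 : f w = f v := by
      rw [← hper' k v]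
      congr 1
      rw [hv]; ring
    rw [h3]
    exact (hC v hmem).trans ((le_max_right _ _).trans (le_max_left _ _))

theorem exists_inv_E3_bound {s : ℝ} (hs : 0 < s) :
    ∃ B : ℝ, 0 < B ∧ ∀ w : ℂ, s ≤ w.im → ‖(E3 w)⁻¹‖ ≤ B := by
  obtain ⟨K, hK, h⟩ := exists_E_bound
  refine bounded_of_periodic (h := 2) two_pos (fun w => ?_) ?_ (A := K + 1) (B := 1) ?_ hs
  · have : w + ((2 : ℝ) : ℂ) = w + 2 := by norm_num
    rw [this, E3_add_two]
  · exact E3_diff.continuousOn.inv₀ (fun w hw => (E_ne_zero hw).2.1)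
  · intro w hw
    have hw0 : 0 < w.im := by linarith
    have h1 := (h w (by linarith)).1
    have h2 : K / w.im ≤ 1 := by rw [div_le_one hw0]; linarith
    have h3 : 1 ≤ ‖E3 w‖ := by
      have h4 : ‖(2 : ℂ)‖ ≤ ‖E3 w‖ + ‖E3 w - 2‖ := by
        calc ‖(2 : ℂ)‖ = ‖E3 w - (E3 w - 2)‖ := by ring_nf
          _ ≤ _ := norm_sub_le _ _
      have h5 : ‖(2 : ℂ)‖ = 2 := by norm_num
      linarith
    rw [norm_inv]
    exact inv_le_one_of_one_le₀ h3

theorem rho_ge {w : ℂ} (hw : 1 ≤ w.im) (h0 : 0 ≤ w.re) (h1 : w.re ≤ 2) : 1 / 4 ≤ rho w := by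
  unfold rho
  apply le_min (by linarith)
  have hn : ‖w‖ ≤ 2 + w.im := by
    calc ‖w‖ ≤ |w.re| + |w.im| := Complex.norm_le_abs_re_add_abs_im w
      _ ≤ 2 + w.im := by rw [abs_of_nonneg h0, abs_of_pos (by linarith)]; linarith
  have := norm_nonneg w
  rw [le_div_iff₀ (by linarith)]
  linarith

theorem exists_Nf_bound {ε : ℂ} (hε1 : ‖ε‖ = 1) (x : ℝ) (c : ℂ) :
    ∃ B : ℝ, 0 < B ∧ ∀ w : ℂ, 1 ≤ w.im → ‖Nf ε x c w‖ ≤ B := by
  obtain ⟨K, hK, hT⟩ := exists_T3_bound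
  refine ⟨2 * (1 + ‖c‖) * (1 + 1) * 4 * K, by positivity, fun w hw => ?_⟩
  have hper : Function.Periodic (Nf ε x c) 2 := Nf_add_two ε x c
  set k : ℤ := ⌊w.re / 2⌋ with hk
  set v : ℂ := w - k * 2 with hv
  have hvre : v.re = w.re - k * 2 := by
    rw [hv]
    simp
  have hvim : v.im = w.im := by
    rw [hv]
    simp
  have h1 : (k : ℝ) * 2 ≤ w.re := by
    have := Int.floor_le (w.re / 2)
    rwa [← hk, le_div_iff₀ two_pos] at this
  have h2 : w.re < (k + 1) * 2 := by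
    have := Int.lt_floor_add_one (w.re / 2)
    rwa [← hk, div_lt_iff₀ two_pos] at this
  have h3 : Nf ε x c w = Nf ε x c v := by
    rw [← (hper.int_mul k) v]
    congr 1
    rw [hv]; ring
  rw [h3]
  have hv1 : 1 ≤ v.im := by rw [hvim]; exact hw
  have hv0 : 0 < v.im := by linarith
  have hr := rho_ge hv1 (by rw [hvre]; linarith) (by rw [hvre]; linarith)
  have hri : (rho v)⁻¹ ≤ 4 := by
    rw [inv_le_comm₀ (by linarith) (by norm_num)]
    linarith
  have hrp : 0 ≤ (rho v)⁻¹ := inv_nonneg.mpr (by linarith)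
  have hT0 := T3_nonneg v
  have hy : 1 / v.im ^ 2 ≤ 1 := by
    rw [div_le_one (by positivity)]
    nlinarith
  calc ‖Nf ε x c v‖ ≤ 2 * (1 + ‖c‖) * (1 + 1 / v.im ^ 2) * (rho v)⁻¹ * T3 v :=
        (adm_aC hε1 x c).norm_le (by positivity) hv0
    _ ≤ 2 * (1 + ‖c‖) * (1 + 1) * 4 * K := by
        gcongr
        exact hT v (by linarith)

theorem exists_M0_bound {ε : ℂ} (hε1 : ‖ε‖ = 1) (x : ℝ) (c : ℂ) :
    ∃ B : ℝ, 0 < B ∧ ∀ w : ℂ, 1 ≤ w.im → ‖M0 ε x c w‖ ≤ B := by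
  obtain ⟨B1, hB1, h1⟩ := exists_Nf_bound hε1 x c
  obtain ⟨B2, hB2, h2⟩ := exists_inv_E3_bound one_pos
  refine ⟨B1 * B2, by positivity, fun w hw => ?_⟩
  unfold M0
  rw [div_eq_mul_inv, norm_mul]
  gcongr
  · exact h1 w hw
  · exact h2 w hw

end Pool.Agent.Helper45.FU
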