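import Pool.Agent.Helper45.FU.Bound

/-!
# Mean square bound
-/

open Complex Filter Topology MeasureTheory

namespace Pool.Agent.Helper45.FU

theorem Sset_card_le (w : ℂ) : (Sset w).ncard ≤ (Sset w).ncard := le_rfl

theorem exists_F {ε : ℂ} (hε : ε = 1 ∨ ε = -1) (x : ℝ) :
    ∃ F : ℂ → ℂ, ∃ K : ℝ, 0 < K ∧ DifferentiableOn ℂ F HH ∧ (∀ w, F (w + 2) = F w) ∧
      (∀ w : ℂ, 0 < w.im → F w + ε * J w * F (-1 / w) =
        cexp (Real.pi * I * w * x ^ 2) + ε * J w * cexp (Real.pi * I * (-1 / w) * x ^ 2)) ∧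
      (∀ w : ℂ, 1 ≤ w.im → ‖F w‖ ≤ K) ∧
      (∀ w : ℂ, 0 < w.im → w.im ^ (1 / 4 : ℝ) * ‖F w‖ ≤ K * (1 + Hs w ^ (1 / 4 : ℝ))) := by
  obtain ⟨hεε, hε1⟩ := eps_facts hε
  obtain ⟨M, hMd, hMper, hMeq, ⟨B1, hB1, hb1⟩, B2, hB2, hb2⟩ := exists_M hε x
  obtain ⟨C, hC, hQ⟩ := exists_norm_Qt_le_sq hεε hε1 x
  set c := cz ε x with hc
  have hmain := main_bound hε1 hC hB1 hB2 hMper hMeq hQ hb1 hb2
  refine ⟨fun w => M w + c, B1 + B2 + 28 * C + ‖c‖, by positivity, hMd.add_const c, fun w => ?_,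
    fun w hw => ?_, fun w hw => ?_, fun w hw => ?_⟩
  · simp only [hMper]
  · have h1 := hMeq w hw
    unfold sl Qt Am at h1
    linear_combination h1
  · calc ‖M w + c‖ ≤ ‖M w‖ + ‖c‖ := norm_add_le _ _
      _ ≤ B1 + B2 + 28 * C + ‖c‖ := by
          have := hb1 w hw
          linarith
  · have h1 := hmain _ w hw le_rfl
    have hH : w.im ^ (1 / 4 : ℝ) ≤ Hs w ^ (1 / 4 : ℝ) :=
      Real.rpow_le_rpow hw.le (im_le_Hs hw) (by norm_num)
    have hHn : 0 ≤ Hs w ^ (1 / 4 : ℝ) := Real.rpow_nonneg (Hs_pos hw).le _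
    have hyn : 0 ≤ w.im ^ (1 / 4 : ℝ) := Real.rpow_nonneg hw.le _
    unfold bb at h1
    have hcn := norm_nonneg c
    calc w.im ^ (1 / 4 : ℝ) * ‖M w + c‖ ≤ w.im ^ (1 / 4 : ℝ) * (‖M w‖ + ‖c‖) := by
          gcongr; exact norm_add_le _ _
      _ = w.im ^ (1 / 4 : ℝ) * ‖M w‖ + ‖c‖ * w.im ^ (1 / 4 : ℝ) := by ring
      _ ≤ (B1 + B2 + 28 * C) * (1 + Hs w ^ (1 / 4 : ℝ)) + ‖c‖ * (1 + Hs w ^ (1 / 4 : ℝ)) := by
          have h2 : 0 ≤ 24 * C * w.im ^ (1 / 4 : ℝ) := by positivity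
          have h3 : ‖c‖ * w.im ^ (1 / 4 : ℝ) ≤ ‖c‖ * (1 + Hs w ^ (1 / 4 : ℝ)) := by
            gcongr
            linarith
          linarith
      _ = _ := by ring

/-! ## Level sets of the height -/

/-- a horizontal point -/
noncomputable def pt (u v : ℝ) : ℂ := (u : ℂ) + v * I

theorem pt_im (u v : ℝ) : (pt u v).im = v := by simp [pt]
theorem pt_re (u v : ℝ) : (pt u v).re = u := by simp [pt]

/-- level sets of the height on a horizontal line -/
def Aset (v : ℝ) (j : ℕ) : Set ℝ := {u | ∃ p : ℤ × ℤ, p ≠ 0 ∧ (4 : ℝ) ^ j < ht (pt u v) p}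

theorem continuous_pt (v : ℝ) : Continuous fun u => pt u v := by
  unfold pt
  fun_prop

theorem Aset_open {v : ℝ} (hv : 0 < v) (j : ℕ) : IsOpen (Aset v j) := by
  have : Aset v j = ⋃ p : {p : ℤ × ℤ // p ≠ 0}, {u | (4 : ℝ) ^ j < ht (pt u v) p.1} := by
    ext u
    simp only [Aset, Set.mem_ofPred_eq, Set.mem_iUnion, Subtype.exists, exists_prop]
  rw [this]
  refine isOpen_iUnion fun p => isOpen_lt continuous_const ?_
  unfold ht
  refine Continuous.div ?_ ?_ ?_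
  · simp only [pt_im]
    exact continuous_const
  · have := continuous_pt v
    fun_prop
  · intro u
    have h1 : 0 < (pt u v).im := by rw [pt_im]; exact hv
    exact pow_ne_zero 2 (norm_ne_zero_iff.mpr (lin_ne_zero h1 p.2))

theorem norm_lin_neg (w : ℂ) (p : ℤ × ℤ) : ‖lin w (-p)‖ = ‖lin w p‖ := by
  have : lin w (-p) = -lin w p := by
    unfold lin
    simp only [Prod.fst_neg, Prod.snd_neg]
    push_cast
    ring
  rw [this, norm_neg]

theorem Aset_cover {v : ℝ} (hv : 0 < v) (hv1 : v ≤ 1) (j : ℕ) {s : ℝ} (hs : 0 < s)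
    (hs2 : s ^ 2 = v / 4 ^ j) {u : ℝ} (hu : u ∈ Set.Ioc (0 : ℝ) 2) (hA : u ∈ Aset v j) :
    ∃ c ∈ Finset.Icc 1 ⌊s / v⌋₊, ∃ d ∈ Finset.Icc (-(2 * (c : ℤ))) 0,
      u ∈ Metric.ball (-(d : ℝ) / c) (s / c) := by
  obtain ⟨p, hp, hlt⟩ := hA
  have him : 0 < (pt u v).im := by rw [pt_im]; exact hv
  have h4 : (0 : ℝ) < 4 ^ j := by positivity
  have hl0 : 0 < ‖lin (pt u v) p‖ := norm_pos_iff.mpr (lin_ne him hp)
  have hl : ‖lin (pt u v) p‖ < s := by
    have h1 : (4 : ℝ) ^ j < v / ‖lin (pt u v) p‖ ^ 2 := by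
      have := hlt
      unfold ht at this
      rw [pt_im] at this
      exact this
    rw [lt_div_iff₀ (by positivity)] at h1
    have h2 : ‖lin (pt u v) p‖ ^ 2 < s ^ 2 := by
      rw [hs2, lt_div_iff₀ h4]
      linarith
    exact lt_of_pow_lt_pow_left₀ 2 hs.le h2
  have hs1 : s ≤ 1 := by
    have h1 : s ^ 2 ≤ 1 := by
      rw [hs2, div_le_one h4]
      have : (1 : ℝ) ≤ 4 ^ j := one_le_pow₀ (by norm_num)
      linarith
    nlinarith
  -- choose sign
  have key : ∀ q : ℤ × ℤ, 0 < q.1 → ‖lin (pt u v) q‖ < s →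
      ∃ c ∈ Finset.Icc 1 ⌊s / v⌋₊, ∃ d ∈ Finset.Icc (-(2 * (c : ℤ))) 0,
      u ∈ Metric.ball (-(d : ℝ) / c) (s / c) := by
    intro q hq hql
    obtain ⟨c, hc⟩ := Int.eq_ofNat_of_zero_le hq.le
    have hc1 : 1 ≤ c := by omega
    have hcr : (0 : ℝ) < c := by exact_mod_cast hc1
    have hqc : (q.1 : ℝ) = c := by rw [hc]; simp
    have h1 := abs_fst_mul_im_le him q
    rw [pt_im, hqc, abs_of_pos hcr] at h1
    have h2 : (c : ℝ) < s / v := by
      rw [lt_div_iff₀ hv]; linarith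
    have h3 : |(c : ℝ) * u + q.2| < s := by
      have : |(c : ℝ) * u + q.2| ≤ ‖lin (pt u v) q‖ := by
        have h4 := Complex.abs_re_le_norm (lin (pt u v) q)
        have h5 : (lin (pt u v) q).re = (c : ℝ) * u + q.2 := by
          unfold lin
          rw [Complex.add_re, Complex.mul_re, pt_re, pt_im, Complex.intCast_re,
            Complex.intCast_im, Complex.intCast_re, hqc]
          ring
        rwa [h5] at h4
      linarith
    obtain ⟨h5, h6⟩ := abs_lt.mp h3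
    refine ⟨c, Finset.mem_Icc.mpr ⟨hc1, Nat.le_floor h2.le⟩, q.2, Finset.mem_Icc.mpr ⟨?_, ?_⟩, ?_⟩
    · have h7 : -(2 * (c : ℝ)) - 1 < (q.2 : ℝ) := by
        have : (c : ℝ) * u ≤ c * 2 := by
          have := hu.2
          gcongr
        linarith
      have h8 : -(2 * (c : ℤ)) - 1 < q.2 := by exact_mod_cast h7
      omega
    · have h7 : (q.2 : ℝ) < 1 := by
        have : 0 < (c : ℝ) * u := mul_pos hcr hu.1
        linarith
      have h8 : q.2 < 1 := by exact_mod_cast h7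
      omega
    · rw [Metric.mem_ball, Real.dist_eq, lt_div_iff₀ hcr]
      have : |u - -(q.2 : ℝ) / c| * c = |(c : ℝ) * u + q.2| := by
        have e : (c : ℝ) * u + q.2 = (u - -(q.2 : ℝ) / c) * c := by field_simp; ring
        rw [e, abs_mul, abs_of_pos hcr]
      rw [this]
      exact h3
  rcases lt_trichotomy p.1 0 with h | h | h
  · refine key (-p) (by simpa using h) ?_
    rw [norm_lin_neg]; exact hl
  · exfalso
    have h2 : p.2 ≠ 0 := fun h' => hp (Prod.ext h h')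
    have h3 : ‖lin (pt u v) p‖ = |(p.2 : ℝ)| := by
      unfold lin
      rw [h]
      simp
    have h4 : (1 : ℝ) ≤ |(p.2 : ℝ)| := by exact_mod_cast Int.one_le_abs h2
    linarith
  · exact key p h hl

theorem Aset_measure {v : ℝ} (hv : 0 < v) (hv1 : v ≤ 1) (j : ℕ) :
    volume (Aset v j ∩ Set.Ioc (0 : ℝ) 2) ≤ ENNReal.ofReal (6 * (1 / 4) ^ j) := by
  set s : ℝ := √(v / 4 ^ j) with hs
  have hs0 : 0 < s := Real.sqrt_pos.mpr (by positivity)
  have hs2 : s ^ 2 = v / 4 ^ j := Real.sq_sqrt (by positivity)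
  have hsub : Aset v j ∩ Set.Ioc (0 : ℝ) 2 ⊆ ⋃ c ∈ Finset.Icc 1 ⌊s / v⌋₊,
      ⋃ d ∈ Finset.Icc (-(2 * (c : ℤ))) 0, Metric.ball (-(d : ℝ) / c) (s / c) := by
    rintro u ⟨hA, hu⟩
    obtain ⟨c, hc, d, hd, hmem⟩ := Aset_cover hv hv1 j hs0 hs2 hu hA
    exact Set.mem_biUnion hc (Set.mem_biUnion hd hmem)
  calc volume (Aset v j ∩ Set.Ioc (0 : ℝ) 2)
      ≤ volume (⋃ c ∈ Finset.Icc 1 ⌊s / v⌋₊,
      ⋃ d ∈ Finset.Icc (-(2 * (c : ℤ))) 0, Metric.ball (-(d : ℝ) / c) (s / c)) :=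
        measure_mono hsub
    _ ≤ ∑ c ∈ Finset.Icc 1 ⌊s / v⌋₊, volume (⋃ d ∈ Finset.Icc (-(2 * (c : ℤ))) 0,
        Metric.ball (-(d : ℝ) / c) (s / c)) := measure_biUnion_finset_le _ _
    _ ≤ ∑ c ∈ Finset.Icc 1 ⌊s / v⌋₊, ∑ d ∈ Finset.Icc (-(2 * (c : ℤ))) 0,
        volume (Metric.ball (-(d : ℝ) / c) (s / c)) :=
        Finset.sum_le_sum fun c _ => measure_biUnion_finset_le _ _
    _ ≤ ∑ c ∈ Finset.Icc 1 ⌊s / v⌋₊, ENNReal.ofReal (6 * s) := by
        refine Finset.sum_le_sum fun c hc => ?_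
        have hc1 : 1 ≤ c := (Finset.mem_Icc.mp hc).1
        have hcr : (1 : ℝ) ≤ c := by exact_mod_cast hc1
        simp_rw [Real.volume_ball]
        rw [Finset.sum_const, Int.card_Icc]
        have e1 : (0 + 1 - -(2 * (c : ℤ))).toNat = 2 * c + 1 := by omega
        rw [e1, nsmul_eq_mul]
        have e2 : ((2 * c + 1 : ℕ) : ENNReal) = ENNReal.ofReal ((2 * c + 1 : ℕ) : ℝ) := by
          rw [ENNReal.ofReal_natCast]
        rw [e2, ← ENNReal.ofReal_mul (by positivity)]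
        apply ENNReal.ofReal_le_ofReal
        push_cast
        have : (2 * (c : ℝ) + 1) * (2 * (s / c)) = (2 * c + 1) / c * (2 * s) := by
          field_simp
        rw [this]
        have h3 : (2 * (c : ℝ) + 1) / c ≤ 3 := by
          rw [div_le_iff₀ (by linarith)]; linarith
        calc (2 * (c : ℝ) + 1) / c * (2 * s) ≤ 3 * (2 * s) := by gcongr
          _ = 6 * s := by ring
    _ = ENNReal.ofReal (⌊s / v⌋₊ * (6 * s)) := by
        rw [Finset.sum_const, Nat.card_Icc, nsmul_eq_mul, Nat.add_sub_cancel,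
          ENNReal.ofReal_mul (p := (⌊s / v⌋₊ : ℝ)) (by positivity), ENNReal.ofReal_natCast]
    _ ≤ ENNReal.ofReal (6 * (1 / 4) ^ j) := by
        apply ENNReal.ofReal_le_ofReal
        have h1 : (⌊s / v⌋₊ : ℝ) ≤ s / v := Nat.floor_le (by positivity)
        calc (⌊s / v⌋₊ : ℝ) * (6 * s) ≤ s / v * (6 * s) := by gcongr
          _ = 6 * s ^ 2 / v := by ring
          _ = 6 * (1 / 4) ^ j := by rw [hs2, one_div, inv_pow]; field_simp

theorem Hs_sqrt_le {v : ℝ} (hv : 0 < v) (u : ℝ) :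
    ENNReal.ofReal (Hs (pt u v) ^ (1 / 2 : ℝ)) ≤
      1 + ∑' j : ℕ, (Aset v j).indicator (fun _ => ENNReal.ofReal (2 ^ (j + 1))) u := by
  have him : 0 < (pt u v).im := by rw [pt_im]; exact hv
  set h := Hs (pt u v) with hh
  have hpos : 0 < h := Hs_pos him
  rcases le_or_gt h 1 with h1 | h1
  · have h2 : h ^ (1 / 2 : ℝ) ≤ 1 := Real.rpow_le_one hpos.le h1 (by norm_num)
    calc ENNReal.ofReal (h ^ (1 / 2 : ℝ)) ≤ ENNReal.ofReal 1 := ENNReal.ofReal_le_ofReal h2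
      _ = 1 := ENNReal.ofReal_one
      _ ≤ _ := le_self_add
  · obtain ⟨n, hn1, hn2⟩ := exists_mem_Ioc_zpow hpos (by norm_num : (1 : ℝ) < 4)
    have hn : 0 ≤ n := by
      by_contra hcon
      push Not at hcon
      have h3 : (4 : ℝ) ^ (n + 1) ≤ 4 ^ (0 : ℤ) := zpow_le_zpow_right₀ (by norm_num) (by omega)
      rw [zpow_zero] at h3
      linarith
    obtain ⟨j, rfl⟩ := Int.eq_ofNat_of_zero_le hn
    have hj1 : (4 : ℝ) ^ j < h := by
      have := hn1
      rwa [zpow_natCast] at this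
    have hj2 : h ≤ (4 : ℝ) ^ (j + 1) := by
      have := hn2
      have e : ((j : ℤ) + 1) = ((j + 1 : ℕ) : ℤ) := by push_cast; ring
      rwa [e, zpow_natCast] at this
    obtain ⟨p, hp, hlt⟩ := exists_lt_ht him hj1
    have hmem : u ∈ Aset v j := ⟨p, hp, hlt⟩
    have h4 : h ^ (1 / 2 : ℝ) ≤ 2 ^ (j + 1) := by
      calc h ^ (1 / 2 : ℝ) ≤ ((4 : ℝ) ^ (j + 1)) ^ (1 / 2 : ℝ) :=
            Real.rpow_le_rpow hpos.le hj2 (by norm_num)
        _ = 2 ^ (j + 1) := by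
            have e : (4 : ℝ) ^ (j + 1) = (2 ^ (j + 1)) ^ 2 := by
              rw [← pow_mul, mul_comm, pow_mul]; norm_num
            rw [e, ← Real.sqrt_eq_rpow, Real.sqrt_sq (by positivity)]
    calc ENNReal.ofReal (h ^ (1 / 2 : ℝ)) ≤ ENNReal.ofReal (2 ^ (j + 1)) :=
          ENNReal.ofReal_le_ofReal h4
      _ = (Aset v j).indicator (fun _ => ENNReal.ofReal (2 ^ (j + 1))) u := by
          rw [Set.indicator_of_mem hmem]
      _ ≤ ∑' j : ℕ, (Aset v j).indicator (fun _ => ENNReal.ofReal (2 ^ (j + 1))) u :=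
          ENNReal.le_tsum j
      _ ≤ _ := le_add_self

theorem lintegral_Hs_le {v : ℝ} (hv : 0 < v) (hv1 : v ≤ 1) :
    ∫⁻ u in Set.Ioc (0 : ℝ) 2, ENNReal.ofReal (Hs (pt u v) ^ (1 / 2 : ℝ)) ≤
      ENNReal.ofReal 26 := by
  calc ∫⁻ u in Set.Ioc (0 : ℝ) 2, ENNReal.ofReal (Hs (pt u v) ^ (1 / 2 : ℝ))
      ≤ ∫⁻ u in Set.Ioc (0 : ℝ) 2, (1 + ∑' j : ℕ, (Aset v j).indicator
          (fun _ => ENNReal.ofReal (2 ^ (j + 1))) u) := lintegral_mono fun u => Hs_sqrt_le hv u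
    _ = (∫⁻ _u in Set.Ioc (0 : ℝ) 2, 1) + ∫⁻ u in Set.Ioc (0 : ℝ) 2,
          ∑' j : ℕ, (Aset v j).indicator (fun _ => ENNReal.ofReal (2 ^ (j + 1))) u := by
        rw [lintegral_add_left measurable_const]
    _ = ENNReal.ofReal 2 + ∑' j : ℕ, ENNReal.ofReal (2 ^ (j + 1)) *
          volume (Aset v j ∩ Set.Ioc (0 : ℝ) 2) := by
        congr 1
        · simp
        · rw [lintegral_tsum (fun j =>
            (measurable_const.indicator (Aset_open hv j).measurableSet).aemeasurable)]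
          refine tsum_congr fun j => ?_
          rw [lintegral_indicator (Aset_open hv j).measurableSet, lintegral_const,
            Measure.restrict_apply_univ, Measure.restrict_apply (Aset_open hv j).measurableSet]
    _ ≤ ENNReal.ofReal 2 + ∑' j : ℕ, ENNReal.ofReal (12 * (1 / 2) ^ j) := by
        gcongr with j
        calc ENNReal.ofReal (2 ^ (j + 1)) * volume (Aset v j ∩ Set.Ioc (0 : ℝ) 2)
            ≤ ENNReal.ofReal (2 ^ (j + 1)) * ENNReal.ofReal (6 * (1 / 4) ^ j) := by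
              gcongr
              exact Aset_measure hv hv1 j
          _ = ENNReal.ofReal (12 * (1 / 2) ^ j) := by
              rw [← ENNReal.ofReal_mul (by positivity)]
              congr 1
              have : (1 / 4 : ℝ) ^ j = (1 / 2) ^ j * (1 / 2) ^ j := by
                rw [← mul_pow]; norm_num
              rw [this, pow_succ]
              have h2 : (2 : ℝ) ^ j * (1 / 2) ^ j = 1 := by rw [← mul_pow]; norm_num
              calc 2 ^ j * 2 * (6 * ((1 / 2 : ℝ) ^ j * (1 / 2) ^ j))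
                  = 12 * (2 ^ j * (1 / 2) ^ j) * (1 / 2) ^ j := by ring
                _ = _ := by rw [h2, mul_one]
    _ = ENNReal.ofReal 26 := by
        have hs : HasSum (fun j : ℕ => 12 * (1 / 2 : ℝ) ^ j) 24 := by
          have := hasSum_geometric_two.mul_left (12 : ℝ)
          norm_num at this ⊢
          exact this
        rw [← ENNReal.ofReal_tsum_of_nonneg (fun j => by positivity) hs.summable, hs.tsum_eq,
          ← ENNReal.ofReal_add (by norm_num) (by norm_num)]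
        norm_num

end Pool.Agent.Helper45.FU
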