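import Pool.Agent.Helper45.FU.Ident

/-!
# The smoothing operator and its interpolation identity
-/

open Complex Filter Topology MeasureTheory FourierTransform

namespace Pool.Agent.Helper45.FU

/-- the smoothing kernel -/
noncomputable def Kc (a b x y : ℝ) : ℂ :=
  cexp (-(Real.pi * a * (x ^ 2 + y ^ 2))) * Complex.cosh (2 * Real.pi * b * x * y)

/-- the transform of the smoothing kernel -/
noncomputable def K2 (a b t y : ℝ) : ℂ :=
  1 / 2 * (1 / (a : ℂ) ^ (1 / 2 : ℂ)) * cexp (-(Real.pi * (t ^ 2 + y ^ 2) / a)) *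
    (cexp (-(2 * Real.pi * I * b * y * t / a)) + cexp (2 * Real.pi * I * b * y * t / a))

theorem Kc_symm (a b x y : ℝ) : Kc a b x y = Kc a b y x := by
  unfold Kc
  rw [add_comm ((x : ℂ) ^ 2), mul_right_comm _ (x : ℂ) (y : ℂ)]

theorem K2_symm (a b x y : ℝ) : K2 a b x y = K2 a b y x := by
  unfold K2
  rw [add_comm ((x : ℂ) ^ 2), mul_right_comm _ (x : ℂ) (y : ℂ)]

theorem Kc_eq (a b x y : ℝ) : Kc a b x y = 1 / 2 * cexp (-(Real.pi * a * y ^ 2)) *
    (cexp (-Real.pi * a * x ^ 2 + 2 * Real.pi * (b * y) * x) +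
      cexp (-Real.pi * a * x ^ 2 + 2 * Real.pi * (-(b * y)) * x)) := by
  unfold Kc Complex.cosh
  have e1 : cexp (-(Real.pi * a * (x ^ 2 + y ^ 2))) =
      cexp (-(Real.pi * a * y ^ 2)) * cexp (-Real.pi * a * x ^ 2) := by
    rw [← Complex.exp_add]; congr 1; ring
  rw [e1, Complex.exp_add, Complex.exp_add]
  have e2 : (2 * Real.pi * (b * y) * x : ℂ) = 2 * Real.pi * b * x * y := by ring
  have e3 : (2 * Real.pi * (-(b * y)) * x : ℂ) = -(2 * Real.pi * b * x * y) := by ring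
  rw [e2, e3]
  ring

theorem fourier_Kc {a b : ℝ} (ha : 0 < a) (hab : a ^ 2 - b ^ 2 = 1) (y t : ℝ) :
    𝓕 (fun x : ℝ => Kc a b x y) t = K2 a b t y := by
  have hare : 0 < (a : ℂ).re := by simpa using ha
  have hac : (a : ℂ) ≠ 0 := by exact_mod_cast ha.ne'
  have h1 := congrFun (fourier_gaussian_pi' hare (b * y : ℂ)) t
  have h2 := congrFun (fourier_gaussian_pi' hare (-(b * y) : ℂ)) t
  rw [Real.fourier_real_eq_integral_exp_smul] at h1 h2 ⊢
  have hint : ∀ c : ℂ, Integrable fun x : ℝ => cexp (↑(-2 * Real.pi * x * t) * I) •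
      cexp (-Real.pi * a * x ^ 2 + 2 * Real.pi * c * x) := by
    intro c
    have h3 := integrable_cexp_quadratic (b := (Real.pi * a : ℂ)) (by
      have := Real.pi_pos
      simpa using mul_pos this ha) (2 * Real.pi * c - 2 * Real.pi * t * I) 0
    refine h3.congr (Eventually.of_forall fun x => ?_)
    simp only [smul_eq_mul]
    rw [← Complex.exp_add]
    congr 1
    push_cast
    ring
  have e : ∀ x : ℝ, cexp (↑(-2 * Real.pi * x * t) * I) • Kc a b x y =
      (1 / 2 * cexp (-(Real.pi * a * y ^ 2))) *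
      (cexp (↑(-2 * Real.pi * x * t) * I) •
        cexp (-Real.pi * a * x ^ 2 + 2 * Real.pi * (b * y) * x) +
       cexp (↑(-2 * Real.pi * x * t) * I) •
        cexp (-Real.pi * a * x ^ 2 + 2 * Real.pi * (-(b * y)) * x)) := by
    intro x
    rw [Kc_eq]
    simp only [smul_eq_mul]
    ring
  simp_rw [e]
  rw [integral_const_mul, integral_add (hint _) (hint _), h1, h2]
  unfold K2
  have e4 : cexp (-(Real.pi * (t ^ 2 + y ^ 2) / a)) * cexp (-(2 * Real.pi * I * b * y * t / a)) =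
      cexp (-(Real.pi * a * y ^ 2)) * cexp (-Real.pi / a * (t + I * (b * y)) ^ 2) := by
    rw [← Complex.exp_add, ← Complex.exp_add]
    congr 1
    have hab' : (a : ℂ) ^ 2 - (b : ℂ) ^ 2 = 1 := by exact_mod_cast hab
    field_simp
    ring_nf
    rw [I_sq]
    linear_combination ((y : ℂ) ^ 2) * hab'
  have e5 : cexp (-(Real.pi * (t ^ 2 + y ^ 2) / a)) * cexp (2 * Real.pi * I * b * y * t / a) =
      cexp (-(Real.pi * a * y ^ 2)) * cexp (-Real.pi / a * (t + I * (-(b * y))) ^ 2) := by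
    rw [← Complex.exp_add, ← Complex.exp_add]
    congr 1
    have hab' : (a : ℂ) ^ 2 - (b : ℂ) ^ 2 = 1 := by exact_mod_cast hab
    field_simp
    ring_nf
    rw [I_sq]
    linear_combination ((y : ℂ) ^ 2) * hab'
  linear_combination (-(1 / 2 * (1 / (a : ℂ) ^ (1 / 2 : ℂ)))) * (e4 + e5)

theorem cosh_le_exp_abs (s : ℝ) : Real.cosh s ≤ Real.exp |s| := by
  rw [Real.cosh_eq]
  have h1 : Real.exp s ≤ Real.exp |s| := Real.exp_le_exp.mpr (le_abs_self s)
  have h2 : Real.exp (-s) ≤ Real.exp |s| := Real.exp_le_exp.mpr (neg_le_abs s)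
  linarith

theorem Kc_ofReal (a b x y : ℝ) : Kc a b x y =
    ((Real.exp (-(Real.pi * a * (x ^ 2 + y ^ 2))) * Real.cosh (2 * Real.pi * b * x * y) : ℝ) : ℂ) := by
  unfold Kc
  push_cast
  rfl

theorem norm_Kc_le {a b : ℝ} (hb : 0 ≤ b) (x y : ℝ) :
    ‖Kc a b x y‖ ≤ Real.exp (-(Real.pi * (a - b) * (x ^ 2 + y ^ 2))) := by
  have hpi := Real.pi_pos
  rw [Kc_ofReal, Complex.norm_real, Real.norm_eq_abs, abs_of_nonneg (by
    have := Real.cosh_pos (2 * Real.pi * b * x * y)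
    positivity)]
  calc Real.exp (-(Real.pi * a * (x ^ 2 + y ^ 2))) * Real.cosh (2 * Real.pi * b * x * y)
      ≤ Real.exp (-(Real.pi * a * (x ^ 2 + y ^ 2))) * Real.exp |2 * Real.pi * b * x * y| := by
        gcongr
        exact cosh_le_exp_abs _
    _ ≤ _ := by
        rw [← Real.exp_add]
        apply Real.exp_le_exp.mpr
        have h1 : |2 * Real.pi * b * x * y| ≤ Real.pi * b * (x ^ 2 + y ^ 2) := by
          rw [abs_le]
          have hb' : 0 ≤ Real.pi * b := by positivity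
          constructor <;> nlinarith [mul_nonneg hb' (sq_nonneg (x + y)),
            mul_nonneg hb' (sq_nonneg (x - y))]
        linarith

theorem norm_K2_le {a b : ℝ} (t y : ℝ) :
    ‖K2 a b t y‖ ≤ ‖1 / (a : ℂ) ^ (1 / 2 : ℂ)‖ * Real.exp (-(Real.pi * (t ^ 2 + y ^ 2) / a)) := by
  unfold K2
  rw [norm_mul, norm_mul, norm_mul]
  have h1 : ‖cexp (-(Real.pi * (t ^ 2 + y ^ 2) / a))‖ =
      Real.exp (-(Real.pi * (t ^ 2 + y ^ 2) / a)) := by
    have : (-(Real.pi * (t ^ 2 + y ^ 2) / a) : ℂ) =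
        ((-(Real.pi * (t ^ 2 + y ^ 2) / a) : ℝ) : ℂ) := by push_cast; ring
    rw [this, Complex.norm_exp_ofReal]
  have h2 : ‖cexp (-(2 * Real.pi * I * b * y * t / a)) + cexp (2 * Real.pi * I * b * y * t / a)‖
      ≤ 2 := by
    refine (norm_add_le _ _).trans ?_
    have e1 : (-(2 * Real.pi * I * b * y * t / a) : ℂ) =
        ((-(2 * Real.pi * b * y * t / a) : ℝ) : ℂ) * I := by push_cast; ring
    have e2 : (2 * Real.pi * I * b * y * t / a : ℂ) =
        ((2 * Real.pi * b * y * t / a : ℝ) : ℂ) * I := by push_cast; ring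
    rw [e1, e2, Complex.norm_exp_ofReal_mul_I, Complex.norm_exp_ofReal_mul_I]
    norm_num
  have h3 : ‖(1 / 2 : ℂ)‖ = 1 / 2 := by norm_num
  rw [h1, h3]
  have h4 := norm_nonneg (1 / (a : ℂ) ^ (1 / 2 : ℂ))
  have h5 := Real.exp_pos (-(Real.pi * (t ^ 2 + y ^ 2) / a))
  calc 1 / 2 * ‖1 / (a : ℂ) ^ (1 / 2 : ℂ)‖ * Real.exp (-(Real.pi * (t ^ 2 + y ^ 2) / a)) *
        ‖cexp (-(2 * Real.pi * I * b * y * t / a)) + cexp (2 * Real.pi * I * b * y * t / a)‖
      ≤ 1 / 2 * ‖1 / (a : ℂ) ^ (1 / 2 : ℂ)‖ * Real.exp (-(Real.pi * (t ^ 2 + y ^ 2) / a)) * 2 := by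
        gcongr
    _ = _ := by ring

theorem k1_sq {a : ℝ} (ha : 0 < a) (b y s : ℝ) :
    k1 a (b * y) (s ^ 2) = (2 * Real.pi * cexp (Real.pi * a * y ^ 2)) * Kc a b s y := by
  rw [k1_eq ha _ (sq_nonneg s), Real.sqrt_sq_eq_abs]
  unfold Kc
  have e1 : Complex.cosh (2 * Real.pi * ((b * y : ℝ) : ℂ) * ((|s| : ℝ) : ℂ)) =
      Complex.cosh (2 * Real.pi * b * s * y) := by
    rcases abs_choice s with h | h
    · rw [h]; congr 1; push_cast; ring
    · rw [h, ← Complex.cosh_neg]; congr 1; push_cast; ring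
  rw [e1]
  have e2 : cexp (-(Real.pi * a * ((s ^ 2 : ℝ) : ℂ))) =
      cexp (Real.pi * a * y ^ 2) * cexp (-(Real.pi * a * (s ^ 2 + y ^ 2))) := by
    rw [← Complex.exp_add]; congr 1; push_cast; ring
  rw [e2]
  ring

theorem k2_sq {a b : ℝ} (ha : 0 < a) (hab : a ^ 2 - b ^ 2 = 1) (y ξ : ℝ) :
    k2 a (b * y) (ξ ^ 2) = (2 * Real.pi * cexp (Real.pi * a * y ^ 2)) * K2 a b ξ y := by
  rw [k2_eq ha, ← fourier_Kc ha hab, Real.fourier_real_eq_integral_exp_smul,
    Real.fourier_real_eq_integral_exp_smul, ← integral_const_mul]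
  refine integral_congr_ae (Eventually.of_forall fun s => ?_)
  simp only [smul_eq_mul]
  rw [k1_sq ha]
  ring

theorem ident_kernel {ε : ℂ} (hε1 : ‖ε‖ = 1) {B : ℕ → ℂ} {x : ℝ}
    (hB : ∀ v : ℝ, 0 < v → Summable fun n : ℕ => ‖B n‖ * Real.exp (-(Real.pi * n * v)))
    (hid : ∀ w : ℂ, 0 < w.im → ∑' n : ℕ, B n * (cexp (Real.pi * I * w * n) +
          ε * J w * cexp (Real.pi * I * (-1 / w) * n)) =
        cexp (Real.pi * I * w * x ^ 2) + ε * J w * cexp (Real.pi * I * (-1 / w) * x ^ 2))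
    {a b : ℝ} (ha : 0 < a) (hab : a ^ 2 - b ^ 2 = 1) (y : ℝ) :
    HasSum (fun n : ℕ => B n * (Kc a b (√n) y + ε * K2 a b (√n) y))
      (Kc a b x y + ε * K2 a b x y) := by
  have h := ident_circle hε1 hB hid ha (b * y)
  have hne : (2 * Real.pi * cexp (Real.pi * a * y ^ 2) : ℂ) ≠ 0 := by
    have := Real.pi_ne_zero
    simp [this]
  have h2 := h.mul_left (2 * Real.pi * cexp (Real.pi * a * y ^ 2) : ℂ)⁻¹
  rw [k1_sq ha, k2_sq ha hab] at h2
  have e1 : (2 * Real.pi * cexp (Real.pi * a * y ^ 2) : ℂ)⁻¹ *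
      ((2 * Real.pi * cexp (Real.pi * a * y ^ 2)) * Kc a b x y +
        ε * ((2 * Real.pi * cexp (Real.pi * a * y ^ 2)) * K2 a b x y)) =
      Kc a b x y + ε * K2 a b x y := by
    field_simp
  rw [e1] at h2
  refine h2.congr_fun ?_
  intro n
  have e2 : (n : ℝ) = (√(n : ℝ)) ^ 2 := (Real.sq_sqrt (Nat.cast_nonneg n)).symm
  have e3 : k1 a (b * y) (n : ℝ) = (2 * Real.pi * cexp (Real.pi * a * y ^ 2)) * Kc a b (√n) y := by
    conv_lhs => rw [e2]
    exact k1_sq ha b y _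
  have e4 : k2 a (b * y) (n : ℝ) = (2 * Real.pi * cexp (Real.pi * a * y ^ 2)) * K2 a b (√n) y := by
    conv_lhs => rw [e2]
    exact k2_sq ha hab y _
  rw [e3, e4]
  field_simp

/-- the smoothing of a function -/
noncomputable def Phi (f : ℝ → ℂ) (a b s : ℝ) : ℂ := ∫ y, f y * Kc a b s y

theorem continuous_Kc (a b s : ℝ) : Continuous fun y => Kc a b s y := by
  unfold Kc
  fun_prop

theorem continuous_K2 (a b s : ℝ) : Continuous fun y => K2 a b s y := by
  unfold K2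
  fun_prop

theorem integrable_mul_Kc {f : ℝ → ℂ} (hf : Integrable f) {a b : ℝ} (hb : 0 ≤ b) (hba : b ≤ a)
    (s : ℝ) : Integrable fun y => f y * Kc a b s y := by
  refine hf.mul_bdd (c := 1) (continuous_Kc a b s).aestronglyMeasurable
    (Eventually.of_forall fun y => (norm_Kc_le hb s y).trans ?_)
  rw [Real.exp_le_one_iff]
  have h1 : 0 ≤ a - b := by linarith
  have h2 := Real.pi_pos
  have : 0 ≤ Real.pi * (a - b) * (s ^ 2 + y ^ 2) := by positivity
  linarith

theorem integrable_mul_K2 {f : ℝ → ℂ} (hf : Integrable f) {a b : ℝ} (ha : 0 < a)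
    (s : ℝ) : Integrable fun y => f y * K2 a b s y := by
  refine hf.mul_bdd (c := ‖1 / (a : ℂ) ^ (1 / 2 : ℂ)‖) (continuous_K2 a b s).aestronglyMeasurable
    (Eventually.of_forall fun y => (norm_K2_le s y).trans ?_)
  have h2 := Real.pi_pos
  have h3 : Real.exp (-(Real.pi * (s ^ 2 + y ^ 2) / a)) ≤ 1 := by
    rw [Real.exp_le_one_iff]
    have : 0 ≤ Real.pi * (s ^ 2 + y ^ 2) / a := by positivity
    linarith
  calc _ ≤ ‖1 / (a : ℂ) ^ (1 / 2 : ℂ)‖ * 1 := by gcongr
    _ = _ := mul_one _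

theorem integrable_Kc {a b : ℝ} (hb : 0 ≤ b) (hba : b < a) (s : ℝ) :
    Integrable fun y => Kc a b y s := by
  have h2 := Real.pi_pos
  have h3 : 0 < a - b := by linarith
  have hint : Integrable (fun y : ℝ => Real.exp (-(Real.pi * (a - b)) * y ^ 2)) :=
    integrable_exp_neg_mul_sq (by positivity)
  refine hint.mono' ?_ (Eventually.of_forall fun y => (norm_Kc_le hb y s).trans ?_)
  · simp_rw [Kc_symm a b _ s]
    exact (continuous_Kc a b s).aestronglyMeasurable
  · apply Real.exp_le_exp.mpr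
    have : 0 ≤ Real.pi * (a - b) * s ^ 2 := by positivity
    nlinarith

theorem integral_mul_K2 {ε : ℂ} {f : ℝ → ℂ} (hf : Integrable f)
    (hF : ∀ ξ, 𝓕 f ξ = ε * f ξ) {a b : ℝ} (ha : 0 < a) (hb : 0 ≤ b) (hba : b < a)
    (hab : a ^ 2 - b ^ 2 = 1) (ξ : ℝ) : ∫ y, f y * K2 a b ξ y = ε * Phi f a b ξ := by
  have h := VectorFourier.integral_fourierIntegral_smul_eq_flip (L := innerₗ ℝ)
    (f := fun y => Kc a b y ξ) (g := f) (μ := volume) (ν := volume) Real.continuous_fourierChar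
    continuous_inner (integrable_Kc hb hba ξ) hf
  have e1 : ∀ y : ℝ, VectorFourier.fourierIntegral Real.fourierChar volume (innerₗ ℝ)
      (fun y => Kc a b y ξ) y = K2 a b y ξ := fun y => fourier_Kc ha hab ξ y
  have e2 : ∀ y : ℝ, VectorFourier.fourierIntegral Real.fourierChar volume (innerₗ ℝ).flip f y =
      ε * f y := by
    intro y
    have : (innerₗ ℝ).flip = innerₗ ℝ := by
      ext
      simp
    rw [this]
    exact hF y
  simp_rw [e1, e2, smul_eq_mul] at h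
  unfold Phi
  rw [← integral_const_mul]
  calc ∫ y, f y * K2 a b ξ y = ∫ y, K2 a b y ξ * f y := by
        refine integral_congr_ae (Eventually.of_forall fun y => ?_)
        simp only
        rw [K2_symm a b ξ y, mul_comm]
    _ = ∫ x, Kc a b x ξ * (ε * f x) := h
    _ = _ := by
        refine integral_congr_ae (Eventually.of_forall fun y => ?_)
        simp only
        rw [Kc_symm a b ξ y]
        ring

theorem phi_ident {ε : ℂ} (hε : ε = 1 ∨ ε = -1) {B : ℕ → ℂ} {x : ℝ}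
    (hB : ∀ v : ℝ, 0 < v → Summable fun n : ℕ => ‖B n‖ * Real.exp (-(Real.pi * n * v)))
    (hid : ∀ w : ℂ, 0 < w.im → ∑' n : ℕ, B n * (cexp (Real.pi * I * w * n) +
          ε * J w * cexp (Real.pi * I * (-1 / w) * n)) =
        cexp (Real.pi * I * w * x ^ 2) + ε * J w * cexp (Real.pi * I * (-1 / w) * x ^ 2))
    {f : ℝ → ℂ} (hf : Integrable f) (hF : ∀ ξ, 𝓕 f ξ = ε * f ξ)
    {a b : ℝ} (ha : 0 < a) (hb : 0 ≤ b) (hba : b < a) (hab : a ^ 2 - b ^ 2 = 1) :
    HasSum (fun n : ℕ => B n * Phi f a b (√n)) (Phi f a b x) := by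
  obtain ⟨hεε, hε1⟩ := eps_facts hε
  have hpi := Real.pi_pos
  have hab0 : 0 < a - b := by linarith
  set C : ℝ := ‖1 / (a : ℂ) ^ (1 / 2 : ℂ)‖ with hC
  set u : ℕ → ℝ := fun n => ‖B n‖ * Real.exp (-(Real.pi * n * (a - b))) +
    ‖B n‖ * Real.exp (-(Real.pi * n * (1 / a))) * C with hu
  have hus : Summable u := (hB (a - b) hab0).add ((hB (1 / a) (by positivity)).mul_right C)
  have hbound : ∀ (n : ℕ) (y : ℝ), ‖B n * (Kc a b (√n) y + ε * K2 a b (√n) y)‖ ≤ u n := by
    intro n y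
    have hsq : (√(n : ℝ)) ^ 2 = n := Real.sq_sqrt (Nat.cast_nonneg n)
    have h1 : ‖Kc a b (√n) y‖ ≤ Real.exp (-(Real.pi * n * (a - b))) := by
      refine (norm_Kc_le hb _ _).trans (Real.exp_le_exp.mpr ?_)
      rw [hsq]
      have : 0 ≤ Real.pi * (a - b) * y ^ 2 := by positivity
      nlinarith
    have h2 : ‖K2 a b (√n) y‖ ≤ C * Real.exp (-(Real.pi * n * (1 / a))) := by
      refine (norm_K2_le _ _).trans ?_
      gcongr
      rw [hsq]
      have : 0 ≤ Real.pi * y ^ 2 / a := by positivity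
      have e : Real.pi * ((n : ℝ) + y ^ 2) / a = Real.pi * n * (1 / a) + Real.pi * y ^ 2 / a := by
        field_simp
      rw [e]
      linarith
    rw [norm_mul]
    calc ‖B n‖ * ‖Kc a b (√n) y + ε * K2 a b (√n) y‖
        ≤ ‖B n‖ * (‖Kc a b (√n) y‖ + ‖ε * K2 a b (√n) y‖) := by
          gcongr; exact norm_add_le _ _
      _ = ‖B n‖ * (‖Kc a b (√n) y‖ + ‖K2 a b (√n) y‖) := by rw [norm_mul, hε1, one_mul]
      _ ≤ ‖B n‖ * (Real.exp (-(Real.pi * n * (a - b))) +
          C * Real.exp (-(Real.pi * n * (1 / a)))) := by gcongr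
      _ = u n := by simp only [hu]; ring
  have h := hasSum_integral_of_dominated_convergence (μ := volume)
    (F := fun (n : ℕ) (y : ℝ) => f y * (B n * (Kc a b (√n) y + ε * K2 a b (√n) y)))
    (f := fun y => f y * (Kc a b x y + ε * K2 a b x y))
    (fun n y => ‖f y‖ * u n)
    (fun n => by
      have h1 := continuous_Kc a b (√n)
      have h2 := continuous_K2 a b (√n)
      have h3 : Continuous fun y => B n * (Kc a b (√n) y + ε * K2 a b (√n) y) := by fun_prop
      exact hf.aestronglyMeasurable.mul h3.aestronglyMeasurable)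
    (fun n => Eventually.of_forall fun y => by
      rw [norm_mul]
      have := hbound n y
      gcongr)
    (Eventually.of_forall fun y => hus.mul_left _)
    (by
      simp_rw [tsum_mul_left]
      exact hf.norm.mul_const _)
    (Eventually.of_forall fun y => (ident_kernel hε1 hB hid ha hab y).mul_left _)
  have hsplit : ∀ s : ℝ, ∫ y, f y * (Kc a b s y + ε * K2 a b s y) = 2 * Phi f a b s := by
    intro s
    have e1 : ∀ y, f y * (Kc a b s y + ε * K2 a b s y) =
        f y * Kc a b s y + ε * (f y * K2 a b s y) := fun y => by ring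
    simp_rw [e1]
    rw [integral_add (integrable_mul_Kc hf hb hba.le s) ((integrable_mul_K2 hf ha s).const_mul ε),
      integral_const_mul, integral_mul_K2 hf hF ha hb hba hab]
    have e2 : (∫ y, f y * Kc a b s y) = Phi f a b s := rfl
    rw [e2]
    linear_combination (Phi f a b s) * hεε
  rw [hsplit] at h
  have h2 := h.mul_left (1 / 2 : ℂ)
  have e3 : (1 / 2 : ℂ) * (2 * Phi f a b x) = Phi f a b x := by ring
  rw [e3] at h2
  refine h2.congr_fun ?_
  intro n
  have e4 : ∀ y, f y * (B n * (Kc a b (√n) y + ε * K2 a b (√n) y)) =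
      B n * (f y * (Kc a b (√n) y + ε * K2 a b (√n) y)) := fun y => by ring
  simp_rw [e4]
  rw [integral_const_mul, hsplit]
  ring

end Pool.Agent.Helper45.FU
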