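import Pool.Agent.Helper45.FU.Estimate

/-!
# Summation over the nodes
-/

open Complex Filter Topology MeasureTheory

namespace Pool.Agent.Helper45.FU

/-- the comparison sum over the integers -/
theorem summable_exp_abs : Summable fun k : ℤ => Real.exp (-(|(k : ℝ)| / 2)) := by
  have h : Summable fun n : ℕ => Real.exp (-((n : ℝ) / 2)) := by
    have h1 : Summable fun n : ℕ => (Real.exp (-(1 / 2))) ^ n :=
      summable_geometric_of_lt_one (Real.exp_pos _).le (by
        rw [Real.exp_lt_one_iff]; norm_num)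
    refine h1.congr fun n => ?_
    rw [← Real.exp_nat_mul]
    congr 1
    ring
  refine Summable.of_nat_of_neg ?_ ?_
  · refine h.congr fun n => ?_
    simp
  · refine h.congr fun n => ?_
    simp

theorem node_summable (s : ℝ) (hs : 0 ≤ s) :
    (Summable fun n : ℕ => Real.exp (-(|(n : ℝ) - s| / 2))) ∧
    ∑' n : ℕ, Real.exp (-(|(n : ℝ) - s| / 2)) ≤
      Real.exp (1 / 2) * ∑' k : ℤ, Real.exp (-(|(k : ℝ)| / 2)) := by
  set m : ℕ := ⌊s⌋₊ with hm
  have h1 : (m : ℝ) ≤ s := Nat.floor_le hs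
  have h2 : s < m + 1 := Nat.lt_floor_add_one s
  have hinj : Function.Injective fun n : ℕ => (n : ℤ) - m := by
    intro p q hpq
    simp only at hpq
    omega
  have hbd : ∀ n : ℕ, Real.exp (-(|(n : ℝ) - s| / 2)) ≤
      Real.exp (1 / 2) * Real.exp (-(|(((n : ℤ) - m : ℤ) : ℝ)| / 2)) := by
    intro n
    rw [← Real.exp_add]
    refine Real.exp_le_exp.mpr ?_
    push_cast
    have h3 : |(n : ℝ) - m| ≤ |(n : ℝ) - s| + |s - m| := by
      have := abs_add_le ((n : ℝ) - s) (s - m)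
      simpa using this
    have h4 : |s - m| ≤ 1 := by
      rw [abs_le]; constructor <;> linarith
    linarith
  have hs1 : Summable fun n : ℕ => Real.exp (-(|(((n : ℤ) - m : ℤ) : ℝ)| / 2)) :=
    summable_exp_abs.comp_injective hinj
  have hs2 : Summable fun n : ℕ => Real.exp (-(|(n : ℝ) - s| / 2)) :=
    Summable.of_nonneg_of_le (fun n => (Real.exp_pos _).le) hbd (hs1.mul_left _)
  refine ⟨hs2, ?_⟩
  calc ∑' n : ℕ, Real.exp (-(|(n : ℝ) - s| / 2))
      ≤ ∑' n : ℕ, Real.exp (1 / 2) * Real.exp (-(|(((n : ℤ) - m : ℤ) : ℝ)| / 2)) :=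
        hs2.tsum_le_tsum hbd (hs1.mul_left _)
    _ = Real.exp (1 / 2) * ∑' n : ℕ, Real.exp (-(|(((n : ℤ) - m : ℤ) : ℝ)| / 2)) := tsum_mul_left
    _ ≤ Real.exp (1 / 2) * ∑' k : ℤ, Real.exp (-(|(k : ℝ)| / 2)) := by
        gcongr
        exact Summable.tsum_le_tsum_of_inj (fun n : ℕ => (n : ℤ) - m) hinj
          (fun _ _ => (Real.exp_pos _).le) (fun _ => le_rfl) hs1 summable_exp_abs

/-- the parameter `a` -/
noncomputable def aa (b : ℝ) : ℝ := √(1 + b ^ 2)

theorem aa_facts {b : ℝ} (hb : 1 ≤ b) : 0 < aa b ∧ b < aa b ∧ aa b ^ 2 - b ^ 2 = 1 ∧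
    1 / (3 * b) ≤ aa b - b ∧ aa b - b ≤ 1 / (2 * b) := by
  have hsq : aa b ^ 2 = 1 + b ^ 2 := Real.sq_sqrt (by positivity)
  have h0 : 0 < aa b := Real.sqrt_pos.mpr (by positivity)
  have h1 : b < aa b := by
    by_contra hcon
    push Not at hcon
    nlinarith
  have h2 : aa b ≤ 2 * b := by
    by_contra hcon
    push Not at hcon
    nlinarith
  have h3 : (aa b - b) * (aa b + b) = 1 := by nlinarith
  refine ⟨h0, h1, by linarith, ?_, ?_⟩
  · rw [div_le_iff₀ (by positivity)]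
    nlinarith
  · rw [le_div_iff₀ (by positivity)]
    nlinarith

/-- the node weight -/
noncomputable def Tm (b t : ℝ) (n : ℕ) : ℝ :=
  Real.exp (-(Real.pi * (aa b - b) * n)) * Real.exp (-(Real.pi * b / 2) * (t - √n) ^ 2)

theorem Tm_nonneg (b t : ℝ) (n : ℕ) : 0 ≤ Tm b t n := by
  unfold Tm; positivity

theorem Tm_le {b : ℝ} (hb : 1 ≤ b) (t : ℝ) (n : ℕ) :
    Tm b t n ≤ Real.exp (-(|(n : ℝ) - t ^ 2| / 2)) := by
  obtain ⟨-, -, -, h1, -⟩ := aa_facts hb
  have hpi := Real.pi_gt_three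
  have hsq : (√(n : ℝ)) ^ 2 = n := Real.sq_sqrt (Nat.cast_nonneg n)
  have hr0 : 0 ≤ √(n : ℝ) := Real.sqrt_nonneg _
  unfold Tm
  rw [← Real.exp_add]
  refine Real.exp_le_exp.mpr ?_
  set r : ℝ := √(n : ℝ) with hr
  have hb0 : 0 < b := by linarith
  -- lower bounds for the two terms
  have e1 : r ^ 2 / b ≤ Real.pi * (aa b - b) * n := by
    rw [← hsq]
    have : r ^ 2 / b = 3 * (1 / (3 * b)) * r ^ 2 := by field_simp
    rw [this]
    have h2 : 0 ≤ 1 / (3 * b) := by positivity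
    gcongr
  have e2 : (|t| - r) ^ 2 ≤ (t - r) ^ 2 := by
    have h3 : t * r ≤ |t| * r := mul_le_mul_of_nonneg_right (le_abs_self t) hr0
    have h4 : |t| ^ 2 = t ^ 2 := sq_abs t
    nlinarith
  have e3 : 3 / 2 * b * (|t| - r) ^ 2 ≤ Real.pi * b / 2 * (t - r) ^ 2 := by
    have : 3 / 2 * b ≤ Real.pi * b / 2 := by nlinarith
    exact mul_le_mul this e2 (sq_nonneg _) (by positivity)
  have e4 : |(n : ℝ) - t ^ 2| ≤ 2 * (abs (|t| - r)) * r + (|t| - r) ^ 2 := by
    have h5 : (n : ℝ) - t ^ 2 = -((|t| - r) * (2 * r) + (|t| - r) ^ 2) := by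
      rw [← hsq, ← sq_abs t]; ring
    rw [h5, abs_neg]
    refine (abs_add_le _ _).trans ?_
    rw [abs_mul, abs_of_nonneg (by positivity : 0 ≤ 2 * r), abs_of_nonneg (sq_nonneg (|t| - r))]
    linarith
  have e5 : 2 * (abs (|t| - r)) * r ≤ r ^ 2 / b + b * (|t| - r) ^ 2 := by
    have h6 : r ^ 2 / b * b = r ^ 2 := by field_simp
    have h7 : 0 ≤ (r / b - abs (|t| - r)) ^ 2 * b := by positivity
    have h8 : (r / b - abs (|t| - r)) ^ 2 * b = r ^ 2 / b - 2 * (abs (|t| - r)) * r +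
        b * (|t| - r) ^ 2 := by
      have h9 : (abs (|t| - r)) ^ 2 = (|t| - r) ^ 2 := sq_abs _
      field_simp
      rw [← h9]
      ring
    linarith
  have h10 : 0 ≤ (|t| - r) ^ 2 := sq_nonneg _
  have h11 : 0 ≤ r ^ 2 / b := by positivity
  nlinarith

theorem Tm_summable {b : ℝ} (hb : 1 ≤ b) (t : ℝ) : Summable (Tm b t) :=
  Summable.of_nonneg_of_le (Tm_nonneg b t) (Tm_le hb t) (node_summable (t ^ 2) (sq_nonneg t)).1

theorem Tm_tsum_le {b : ℝ} (hb : 1 ≤ b) (t : ℝ) : ∑' n, Tm b t n ≤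
    Real.exp (1 / 2) * ∑' k : ℤ, Real.exp (-(|(k : ℝ)| / 2)) :=
  ((Tm_summable hb t).tsum_le_tsum (Tm_le hb t) (node_summable (t ^ 2) (sq_nonneg t)).1).trans
    (node_summable (t ^ 2) (sq_nonneg t)).2

theorem Tm_continuous {b : ℝ} (hb : 1 ≤ b) : Continuous fun t => ∑' n, Tm b t n := by
  obtain ⟨-, h0, -, -, -⟩ := aa_facts hb
  have hpi := Real.pi_pos
  refine continuous_tsum (u := fun n : ℕ => Real.exp (-(Real.pi * (aa b - b) * n))) ?_ ?_ ?_
  · intro n
    unfold Tm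
    fun_prop
  · have h1 : Summable fun n : ℕ => (Real.exp (-(Real.pi * (aa b - b)))) ^ n :=
      summable_geometric_of_lt_one (Real.exp_pos _).le (by
        rw [Real.exp_lt_one_iff]
        have : 0 < Real.pi * (aa b - b) := mul_pos hpi (by linarith)
        linarith)
    refine h1.congr fun n => ?_
    rw [← Real.exp_nat_mul]
    congr 1
    ring
  · intro n t
    rw [Real.norm_eq_abs, abs_of_nonneg (Tm_nonneg b t n)]
    unfold Tm
    have h2 := gauss_le_one (c := Real.pi * b / 2) (by positivity) (t - √n)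
    calc _ ≤ Real.exp (-(Real.pi * (aa b - b) * n)) * 1 := by gcongr
      _ = _ := mul_one _

theorem Tm_tendsto {t : ℝ} (ht : ∀ n : ℕ, t ≠ √n) :
    Tendsto (fun b => ∑' n, Tm b t n) atTop (𝓝 0) := by
  have h := tendsto_tsum_of_dominated_convergence (𝓕 := atTop) (f := fun b n => Tm b t n)
    (g := fun _ : ℕ => (0 : ℝ)) (bound := fun n : ℕ => Real.exp (-(|(n : ℝ) - t ^ 2| / 2)))
    (node_summable (t ^ 2) (sq_nonneg t)).1 ?_ ?_
  · simpa using h
  · intro n
    have hpos : 0 < (t - √n) ^ 2 := by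
      have : t - √n ≠ 0 := sub_ne_zero.mpr (ht n)
      positivity
    have hpi := Real.pi_pos
    have h1 : Tendsto (fun b : ℝ => Real.exp (-(Real.pi * b / 2) * (t - √n) ^ 2)) atTop (𝓝 0) := by
      refine Real.tendsto_exp_atBot.comp ?_
      have h2 : Tendsto (fun b : ℝ => b * (-(Real.pi / 2 * (t - √n) ^ 2))) atTop atBot :=
        tendsto_id.atTop_mul_const_of_neg (by
          have : 0 < Real.pi / 2 * (t - √n) ^ 2 := by positivity
          linarith)
      refine h2.congr fun b => ?_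
      ring
    refine squeeze_zero' (Eventually.of_forall fun b => Tm_nonneg b t n) ?_ h1
    filter_upwards [eventually_ge_atTop (1 : ℝ)] with b hb
    obtain ⟨-, h0, -, -, -⟩ := aa_facts hb
    unfold Tm
    have h3 : Real.exp (-(Real.pi * (aa b - b) * n)) ≤ 1 := by
      rw [Real.exp_le_one_iff]
      have : 0 ≤ Real.pi * (aa b - b) * n :=
        mul_nonneg (mul_nonneg hpi.le (by linarith)) (Nat.cast_nonneg n)
      linarith
    calc _ ≤ 1 * Real.exp (-(Real.pi * b / 2) * (t - √n) ^ 2) := by gcongr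
      _ = _ := one_mul _
  · filter_upwards [eventually_ge_atTop (1 : ℝ)] with b hb n
    rw [Real.norm_eq_abs, abs_of_nonneg (Tm_nonneg b t n)]
    exact Tm_le hb t n

/-- the total energy at scale `b` -/
noncomputable def Db (h : ℝ → ℂ) (b : ℝ) : ℝ := ∫ t, ‖h t‖ ^ 2 * ∑' n, Tm b t n

theorem Db_integrable {h : ℝ → ℂ} (hl : Integrable fun t => ‖h t‖ ^ 2) {b : ℝ} (hb : 1 ≤ b) :
    Integrable fun t => ‖h t‖ ^ 2 * ∑' n, Tm b t n :=
  hl.mul_bdd (c := Real.exp (1 / 2) * ∑' k : ℤ, Real.exp (-(|(k : ℝ)| / 2)))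
    (Tm_continuous hb).aestronglyMeasurable (Eventually.of_forall fun t => by
      rw [Real.norm_eq_abs, abs_of_nonneg (tsum_nonneg (Tm_nonneg b t))]
      exact Tm_tsum_le hb t)

theorem Db_tendsto {h : ℝ → ℂ} (hl : Integrable fun t => ‖h t‖ ^ 2) :
    Tendsto (Db h) atTop (𝓝 0) := by
  have key := tendsto_integral_filter_of_dominated_convergence (μ := volume) (l := atTop)
    (F := fun b t => ‖h t‖ ^ 2 * ∑' n, Tm b t n) (f := fun _ => (0 : ℝ))
    (bound := fun t => ‖h t‖ ^ 2 *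
      (Real.exp (1 / 2) * ∑' k : ℤ, Real.exp (-(|(k : ℝ)| / 2)))) ?_ ?_ (hl.mul_const _) ?_
  · rw [integral_zero] at key
    exact key
  · filter_upwards [eventually_ge_atTop (1 : ℝ)] with b hb
    exact (Db_integrable hl hb).aestronglyMeasurable
  · filter_upwards [eventually_ge_atTop (1 : ℝ)] with b hb
    refine Eventually.of_forall fun t => ?_
    rw [norm_mul, Real.norm_eq_abs, Real.norm_eq_abs, abs_of_nonneg (by positivity),
      abs_of_nonneg (tsum_nonneg (Tm_nonneg b t))]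
    have := Tm_tsum_le hb t
    gcongr
  · have hc : (Set.range fun n : ℕ => √(n : ℝ)).Countable := Set.countable_range _
    filter_upwards [hc.ae_notMem volume] with t ht
    have h1 := Tm_tendsto (t := t) (fun n hn => ht ⟨n, hn.symm⟩)
    simpa using h1.const_mul (‖h t‖ ^ 2)

theorem node_energy {f h : ℝ → ℂ} (D : Dat f h) (hz : ∀ n : ℕ, f (√n) = 0) {b : ℝ}
    (hb : 1 ≤ b) :
    (Summable fun n : ℕ => Real.exp (Real.pi * (aa b - b) * n) * ‖Phi f (aa b) b (√n)‖ ^ 2) ∧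
    ∑' n : ℕ, Real.exp (Real.pi * (aa b - b) * n) * ‖Phi f (aa b) b (√n)‖ ^ 2 ≤
      2 / (b * √b) * Db h b := by
  obtain ⟨ha0, hab, -, -, -⟩ := aa_facts hb
  have hb0 : 0 < b := by linarith
  have hsb : 0 < √b := Real.sqrt_pos.mpr hb0
  have hterm : ∀ n : ℕ, Real.exp (Real.pi * (aa b - b) * n) * ‖Phi f (aa b) b (√n)‖ ^ 2 ≤
      2 / (b * √b) * ∫ t, ‖h t‖ ^ 2 * Tm b t n := by
    intro n
    have h1 := Phi_bound D hb0 hab.le (hz n)
    have hsq : (√(n : ℝ)) ^ 2 = n := Real.sq_sqrt (Nat.cast_nonneg n)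
    rw [hsq] at h1
    have e : ∀ t, ‖h t‖ ^ 2 * Tm b t n = Real.exp (-(Real.pi * (aa b - b) * n)) *
        (‖h t‖ ^ 2 * Real.exp (-(Real.pi * b / 2) * (t - √n) ^ 2)) := by
      intro t; unfold Tm; ring
    simp_rw [e]
    rw [integral_const_mul]
    have e2 : Real.exp (-(2 * Real.pi * (aa b - b) * n)) =
        Real.exp (-(Real.pi * (aa b - b) * n)) * Real.exp (-(Real.pi * (aa b - b) * n)) := by
      rw [← Real.exp_add]; congr 1; ring
    have e3 : Real.exp (Real.pi * (aa b - b) * n) * Real.exp (-(Real.pi * (aa b - b) * n)) = 1 := by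
      rw [← Real.exp_add]; simp
    calc Real.exp (Real.pi * (aa b - b) * n) * ‖Phi f (aa b) b (√n)‖ ^ 2
        ≤ Real.exp (Real.pi * (aa b - b) * n) * (Real.exp (-(2 * Real.pi * (aa b - b) * n)) *
          (2 / (b * √b) * En h b (√n))) := by gcongr
      _ = (Real.exp (Real.pi * (aa b - b) * n) * Real.exp (-(Real.pi * (aa b - b) * n))) *
          (Real.exp (-(Real.pi * (aa b - b) * n)) * (2 / (b * √b) * En h b (√n))) := by
          rw [e2]; ring
      _ = _ := by
          rw [e3, one_mul]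
          unfold En
          ring
  have hTi : ∀ n : ℕ, Integrable fun t => ‖h t‖ ^ 2 * Tm b t n := by
    intro n
    have h1 := (En_integrable D.l2 hb0.le (√n)).const_mul (Real.exp (-(Real.pi * (aa b - b) * n)))
    refine h1.congr (Eventually.of_forall fun t => ?_)
    simp only [Tm]
    ring
  have hpart : ∀ N : ℕ, ∑ n ∈ Finset.range N,
      Real.exp (Real.pi * (aa b - b) * n) * ‖Phi f (aa b) b (√n)‖ ^ 2 ≤
      2 / (b * √b) * Db h b := by
    intro N
    calc ∑ n ∈ Finset.range N,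
          Real.exp (Real.pi * (aa b - b) * n) * ‖Phi f (aa b) b (√n)‖ ^ 2
        ≤ ∑ n ∈ Finset.range N, 2 / (b * √b) * ∫ t, ‖h t‖ ^ 2 * Tm b t n :=
          Finset.sum_le_sum fun n _ => hterm n
      _ = 2 / (b * √b) * ∫ t, ∑ n ∈ Finset.range N, ‖h t‖ ^ 2 * Tm b t n := by
          rw [← Finset.mul_sum, integral_finsetSum _ fun n _ => hTi n]
      _ ≤ 2 / (b * √b) * Db h b := by
          refine mul_le_mul_of_nonneg_left ?_ (by positivity)
          refine integral_mono (integrable_finsetSum _ fun n _ => hTi n)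
            (Db_integrable D.l2 hb) fun t => ?_
          simp only
          rw [← Finset.mul_sum]
          refine mul_le_mul_of_nonneg_left ?_ (by positivity)
          exact (Tm_summable hb t).sum_le_tsum _ fun n _ => Tm_nonneg b t n
  have hnn : ∀ n : ℕ, 0 ≤ Real.exp (Real.pi * (aa b - b) * n) * ‖Phi f (aa b) b (√n)‖ ^ 2 :=
    fun n => by positivity
  exact ⟨summable_of_sum_range_le hnn hpart, Real.tsum_le_of_sum_range_le hnn hpart⟩

end Pool.Agent.Helper45.FU
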