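import Pool.Agent.Helper45.FU.Basic

/-!
# The inhomogeneity and the height function
-/

open Complex

namespace Pool.Agent.Helper45.FU

/-- the exponential minus a constant -/
noncomputable def Am (x : ℝ) (c : ℂ) (w : ℂ) : ℂ := cexp (Real.pi * I * w * x ^ 2) - c

/-- the inhomogeneity -/
noncomputable def Qt (ε : ℂ) (x : ℝ) (c : ℂ) (w : ℂ) : ℂ :=
  Am x c w + ε * J w * Am x c (-1 / w)

/-- the constant making the inhomogeneity vanish at one and minus one -/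
noncomputable def cz (ε : ℂ) (x : ℝ) : ℂ :=
  (cexp (Real.pi * I * x ^ 2) + ε * J 1 * cexp (-(Real.pi * I * x ^ 2))) / (1 + ε * J 1)

theorem J_one_sq : J 1 * J 1 = I := by
  rw [J_one, ← Complex.exp_add]
  have : ((Real.pi / 4 : ℝ) : ℂ) * I + ((Real.pi / 4 : ℝ) : ℂ) * I = Real.pi / 2 * I := by
    push_cast; ring
  rw [this, Complex.exp_pi_div_two_mul_I]

theorem one_add_ne {ε : ℂ} (hε : ε * ε = 1) : 1 + ε * J 1 ≠ 0 := by
  intro h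
  have h1 : ε * J 1 = -1 := by linear_combination h
  have h2 : (ε * J 1) * (ε * J 1) = 1 := by rw [h1]; ring
  have h3 : (ε * J 1) * (ε * J 1) = I := by
    calc (ε * J 1) * (ε * J 1) = (ε * ε) * (J 1 * J 1) := by ring
      _ = I := by rw [hε, J_one_sq, one_mul]
  rw [h3] at h2
  have := congrArg Complex.re h2
  simp at this

theorem Qt_one {ε : ℂ} (hε : ε * ε = 1) (x : ℝ) : Qt ε x (cz ε x) 1 = 0 := by
  have h := one_add_ne hε
  have hc : (1 + ε * J 1) * cz ε x =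
      cexp (Real.pi * I * x ^ 2) + ε * J 1 * cexp (-(Real.pi * I * x ^ 2)) := by
    unfold cz
    field_simp
  unfold Qt Am
  have e1 : (Real.pi * I * 1 * x ^ 2 : ℂ) = Real.pi * I * x ^ 2 := by ring
  have e2 : (Real.pi * I * (-1 / 1) * x ^ 2 : ℂ) = -(Real.pi * I * x ^ 2) := by ring
  rw [e1, e2]
  linear_combination -hc

theorem Qt_neg_one {ε : ℂ} (hε : ε * ε = 1) (x : ℝ) : Qt ε x (cz ε x) (-1) = 0 := by
  have h := Qt_one hε x
  unfold Qt at h ⊢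
  have e1 : (-1 : ℂ) / 1 = -1 := by ring
  have e2 : (-1 : ℂ) / -1 = 1 := by ring
  rw [e1] at h
  rw [e2]
  have h2 := congrArg (fun t => ε * J (-1) * t) h
  simp only [mul_zero] at h2
  have h3 := J_one_mul_J_neg_one
  calc Am x (cz ε x) (-1) + ε * J (-1) * Am x (cz ε x) 1
      = ε * J (-1) * (Am x (cz ε x) 1 + ε * J 1 * Am x (cz ε x) (-1)) +
        Am x (cz ε x) (-1) * (1 - (ε * ε) * (J 1 * J (-1))) := by ring
    _ = 0 := by rw [h2, hε, h3]; ring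

theorem sl_Qt {ε : ℂ} (hε : ε * ε = 1) (x : ℝ) (c : ℂ) {w : ℂ} (hw : 0 < w.im) :
    sl ε (Qt ε x c) w = -Qt ε x c w := by
  unfold sl Qt
  rw [neg_inv_neg_inv]
  have h := J_mul_J hw
  calc -(ε * J w * (Am x c (-1 / w) + ε * J (-1 / w) * Am x c w))
      = -(ε * J w * Am x c (-1 / w)) - (ε * ε) * (J w * J (-1 / w)) * Am x c w := by ring
    _ = -(Am x c w + ε * J w * Am x c (-1 / w)) := by rw [h, hε]; ring

theorem norm_exp_le {x : ℝ} {w : ℂ} (hw : 0 ≤ w.im) : ‖cexp (Real.pi * I * w * x ^ 2)‖ ≤ 1 := by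
  rw [Complex.norm_exp]
  have : (Real.pi * I * w * x ^ 2 : ℂ).re = -(Real.pi * w.im * x ^ 2) := by
    have : (Real.pi * I * w * x ^ 2 : ℂ) = ((Real.pi * x ^ 2 : ℝ) : ℂ) * (I * w) := by
      push_cast; ring
    rw [this, Complex.re_ofReal_mul]
    simp
    ring
  rw [this, Real.exp_le_one_iff]
  have := Real.pi_pos
  have : 0 ≤ Real.pi * w.im * x ^ 2 := by positivity
  linarith

theorem norm_Am_le {x : ℝ} {c : ℂ} {w : ℂ} (hw : 0 ≤ w.im) : ‖Am x c w‖ ≤ 1 + ‖c‖ :=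
  (norm_sub_le _ _).trans (add_le_add_left (norm_exp_le hw) _)

theorem norm_Qt_le {ε : ℂ} (hε : ‖ε‖ = 1) {x : ℝ} {c : ℂ} {w : ℂ} (hw : 0 < w.im) :
    ‖Qt ε x c w‖ ≤ (1 + ‖c‖) * (1 + ‖J w‖) := by
  have h1 : ‖Am x c w‖ ≤ 1 + ‖c‖ := norm_Am_le hw.le
  have h2 : ‖Am x c (-1 / w)‖ ≤ 1 + ‖c‖ := norm_Am_le (im_neg_inv_pos hw).le
  calc ‖Qt ε x c w‖ ≤ ‖Am x c w‖ + ‖ε * J w * Am x c (-1 / w)‖ := norm_add_le _ _
    _ = ‖Am x c w‖ + ‖J w‖ * ‖Am x c (-1 / w)‖ := by rw [norm_mul, norm_mul, hε, one_mul]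
    _ ≤ (1 + ‖c‖) + ‖J w‖ * (1 + ‖c‖) := by gcongr
    _ = _ := by ring

theorem differentiable_Am (x : ℝ) (c : ℂ) : Differentiable ℂ (Am x c) := by
  unfold Am
  fun_prop

theorem differentiableAt_Qt {ε : ℂ} {x : ℝ} {c : ℂ} {w : ℂ} (hw : -I * w ∈ slitPlane)
    (hw0 : w ≠ 0) : DifferentiableAt ℂ (Qt ε x c) w := by
  unfold Qt
  refine DifferentiableAt.add (differentiable_Am x c w) (DifferentiableAt.mul
    (DifferentiableAt.mul (differentiableAt_const _) (differentiableAt_J_of hw)) ?_)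
  exact ((differentiable_Am x c) _).comp w
    (DifferentiableAt.div (differentiableAt_const _) differentiableAt_id hw0)

theorem differentiableOn_Qt {ε : ℂ} {x : ℝ} {c : ℂ} : DifferentiableOn ℂ (Qt ε x c) HH :=
  fun w hw => (differentiableAt_Qt (slitPlane_of_im_pos hw)
    (ne_zero_of_im_pos hw)).differentiableWithinAt

/-- a function differentiable at a point `a` where it vanishes, and bounded by `B w`, is bounded by
`C * ‖w - a‖ * B w` -/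
theorem lin_bound {f : ℂ → ℂ} {a : ℂ} (hf : DifferentiableAt ℂ f a) (h0 : f a = 0)
    {B : ℂ → ℝ} (hB : ∀ w : ℂ, 0 < w.im → ‖f w‖ ≤ B w) (hB1 : ∀ w : ℂ, 1 ≤ B w) :
    ∃ C : ℝ, 0 < C ∧ ∀ w : ℂ, 0 < w.im → ‖f w‖ ≤ C * ‖w - a‖ * B w := by
  have h1 := hf.isBigO_sub
  obtain ⟨c, hc, h2⟩ := h1.exists_pos
  rw [Asymptotics.IsBigOWith] at h2
  rw [Metric.eventually_nhds_iff] at h2
  obtain ⟨δ, hδ, h3⟩ := h2
  refine ⟨c + 1 / δ, by positivity, fun w hw => ?_⟩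
  have hBw := hB1 w
  by_cases h : dist w a < δ
  · have h4 := h3 h
    rw [h0, sub_zero] at h4
    calc ‖f w‖ ≤ c * ‖w - a‖ := h4
      _ ≤ (c + 1 / δ) * ‖w - a‖ := by gcongr; linarith [show 0 < 1 / δ by positivity]
      _ = (c + 1 / δ) * ‖w - a‖ * 1 := by ring
      _ ≤ _ := by gcongr
  · push Not at h
    rw [Complex.dist_eq] at h
    have h5 : 1 ≤ (c + 1 / δ) * ‖w - a‖ := by
      calc (1 : ℝ) = (1 / δ) * δ := by field_simp
        _ ≤ (1 / δ) * ‖w - a‖ := by gcongr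
        _ ≤ _ := by gcongr; linarith
    calc ‖f w‖ ≤ B w := hB w hw
      _ = 1 * B w := by ring
      _ ≤ _ := by gcongr

theorem exists_norm_Qt_le {ε : ℂ} (hε : ε * ε = 1) (hε1 : ‖ε‖ = 1) (x : ℝ) :
    ∃ C : ℝ, 0 < C ∧ ∀ w : ℂ, 0 < w.im →
      ‖Qt ε x (cz ε x) w‖ ≤ C * ‖w - 1‖ * (1 + ‖J w‖) ∧
      ‖Qt ε x (cz ε x) w‖ ≤ C * ‖w + 1‖ * (1 + ‖J w‖) := by
  set c := cz ε x with hc
  have hB : ∀ w : ℂ, 0 < w.im → ‖Qt ε x c w‖ ≤ (1 + ‖c‖) * (1 + ‖J w‖) :=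
    fun w hw => norm_Qt_le hε1 hw
  have hB1 : ∀ w : ℂ, (1 : ℝ) ≤ (1 + ‖c‖) * (1 + ‖J w‖) := by
    intro w
    nlinarith [norm_nonneg c, norm_nonneg (J w), mul_nonneg (norm_nonneg c) (norm_nonneg (J w))]
  obtain ⟨C1, hC1, h1⟩ := lin_bound (differentiableAt_Qt (ε := ε) (x := x) (c := c) (w := 1)
    (by right; simp) one_ne_zero) (Qt_one hε x) hB hB1
  obtain ⟨C2, hC2, h2⟩ := lin_bound (differentiableAt_Qt (ε := ε) (x := x) (c := c) (w := -1)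
    (by right; simp) (by simp)) (Qt_neg_one hε x) hB hB1
  refine ⟨(C1 + C2) * (1 + ‖c‖), by positivity, fun w hw => ⟨?_, ?_⟩⟩
  · calc ‖Qt ε x c w‖ ≤ C1 * ‖w - 1‖ * ((1 + ‖c‖) * (1 + ‖J w‖)) := h1 w hw
      _ ≤ (C1 + C2) * ‖w - 1‖ * ((1 + ‖c‖) * (1 + ‖J w‖)) := by gcongr; linarith
      _ = _ := by ring
  · calc ‖Qt ε x c w‖ ≤ C2 * ‖w - -1‖ * ((1 + ‖c‖) * (1 + ‖J w‖)) := h2 w hw
      _ ≤ (C1 + C2) * ‖w - -1‖ * ((1 + ‖c‖) * (1 + ‖J w‖)) := by gcongr; linarith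
      _ = _ := by rw [sub_neg_eq_add]; ring

theorem exists_norm_Qt_le_sq {ε : ℂ} (hε : ε * ε = 1) (hε1 : ‖ε‖ = 1) (x : ℝ) :
    ∃ C : ℝ, 0 < C ∧ ∀ w : ℂ, 0 < w.im →
      ‖Qt ε x (cz ε x) w‖ ≤ C * ‖w ^ 2 - 1‖ * (1 + ‖J w‖) := by
  obtain ⟨C, hC, h⟩ := exists_norm_Qt_le hε hε1 x
  refine ⟨C, hC, fun w hw => ?_⟩
  have hf : ‖w ^ 2 - 1‖ = ‖w - 1‖ * ‖w + 1‖ := by rw [← norm_mul]; congr 1; ring
  have hJ := norm_nonneg (J w)
  rcases le_total 0 w.re with h0 | h0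
  · have h1 : 1 ≤ ‖w + 1‖ := by
      calc (1 : ℝ) ≤ |(w + 1).re| := by
            rw [Complex.add_re, Complex.one_re, abs_of_nonneg (by linarith)]; linarith
        _ ≤ _ := Complex.abs_re_le_norm _
    calc _ ≤ C * ‖w - 1‖ * (1 + ‖J w‖) := (h w hw).1
      _ = C * (‖w - 1‖ * 1) * (1 + ‖J w‖) := by ring
      _ ≤ C * (‖w - 1‖ * ‖w + 1‖) * (1 + ‖J w‖) := by gcongr
      _ = _ := by rw [hf]
  · have h1 : 1 ≤ ‖w - 1‖ := by
      calc (1 : ℝ) ≤ |(w - 1).re| := by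
            rw [Complex.sub_re, Complex.one_re, abs_of_nonpos (by linarith)]; linarith
        _ ≤ _ := Complex.abs_re_le_norm _
    calc _ ≤ C * ‖w + 1‖ * (1 + ‖J w‖) := (h w hw).2
      _ = C * (1 * ‖w + 1‖) * (1 + ‖J w‖) := by ring
      _ ≤ C * (‖w - 1‖ * ‖w + 1‖) * (1 + ‖J w‖) := by gcongr
      _ = _ := by rw [hf]

/-! ## The height function -/

/-- nonzero pairs of integers -/
abbrev NZ := {p : ℤ × ℤ // p ≠ 0}

/-- a height in the orbit -/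
noncomputable def ht (w : ℂ) (p : ℤ × ℤ) : ℝ := w.im / ‖(p.1 : ℂ) * w + p.2‖ ^ 2

/-- the maximal height over nonzero pairs -/
noncomputable def Hs (w : ℂ) : ℝ := ⨆ p : NZ, ht w p.1

theorem im_le_norm_lin (w : ℂ) (p : ℤ × ℤ) : |(p.1 : ℝ)| * |w.im| ≤ ‖(p.1 : ℂ) * w + p.2‖ := by
  calc |(p.1 : ℝ)| * |w.im| = |((p.1 : ℂ) * w + p.2).im| := by
        rw [← abs_mul]; congr 1; simp
    _ ≤ _ := Complex.abs_im_le_norm _

theorem lin_ne_zero {w : ℂ} (hw : 0 < w.im) {p : ℤ × ℤ} (hp : p ≠ 0) :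
    (p.1 : ℂ) * w + p.2 ≠ 0 := by
  intro h
  have h1 := im_le_norm_lin w p
  rw [h, norm_zero] at h1
  have h2 : (p.1 : ℝ) = 0 := by
    rw [abs_of_pos hw] at h1
    have := abs_nonneg (p.1 : ℝ)
    have h3 : |(p.1 : ℝ)| = 0 := by nlinarith
    exact abs_eq_zero.mp h3
  have h3 : p.1 = 0 := by exact_mod_cast h2
  rw [h3] at h
  simp at h
  exact hp (Prod.ext h3 h)

theorem min_le_norm_lin {w : ℂ} (hw : 0 < w.im) {p : ℤ × ℤ} (hp : p ≠ 0) :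
    min 1 w.im ≤ ‖(p.1 : ℂ) * w + p.2‖ := by
  by_cases h : p.1 = 0
  · have h2 : p.2 ≠ 0 := fun h' => hp (Prod.ext h h')
    rw [h]
    simp only [Int.cast_zero, zero_mul, zero_add, Complex.norm_intCast]
    have : (1 : ℝ) ≤ |(p.2 : ℝ)| := by exact_mod_cast Int.one_le_abs h2
    exact (min_le_left _ _).trans this
  · have h1 := im_le_norm_lin w p
    have : (1 : ℝ) ≤ |(p.1 : ℝ)| := by exact_mod_cast Int.one_le_abs h
    rw [abs_of_pos hw] at h1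
    calc min 1 w.im ≤ w.im := min_le_right _ _
      _ = 1 * w.im := by ring
      _ ≤ |(p.1 : ℝ)| * w.im := by gcongr
      _ ≤ _ := h1

theorem ht_le {w : ℂ} (hw : 0 < w.im) {p : ℤ × ℤ} (hp : p ≠ 0) : ht w p ≤ w.im + 1 / w.im := by
  have h1 := min_le_norm_lin hw hp
  have h0 : 0 < min 1 w.im := lt_min one_pos hw
  have h2 : (min 1 w.im) ^ 2 ≤ ‖(p.1 : ℂ) * w + p.2‖ ^ 2 := by gcongr
  unfold ht
  have h3 : w.im / ‖(p.1 : ℂ) * w + p.2‖ ^ 2 ≤ w.im / (min 1 w.im) ^ 2 := by gcongr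
  refine h3.trans ?_
  rcases le_total 1 w.im with h | h
  · rw [min_eq_left h]
    have : 0 < 1 / w.im := by positivity
    simpa using this.le
  · rw [min_eq_right h]
    have : w.im / w.im ^ 2 = 1 / w.im := by field_simp
    rw [this]
    linarith

theorem bddAbove_ht {w : ℂ} (hw : 0 < w.im) : BddAbove (Set.range fun p : NZ => ht w p.1) :=
  ⟨w.im + 1 / w.im, by rintro _ ⟨p, rfl⟩; exact ht_le hw p.2⟩

instance : Nonempty NZ := ⟨⟨(0, 1), by simp⟩⟩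

theorem Hs_le {w : ℂ} (hw : 0 < w.im) : Hs w ≤ w.im + 1 / w.im :=
  ciSup_le fun p => ht_le hw p.2

theorem ht_le_Hs {w : ℂ} (hw : 0 < w.im) {p : ℤ × ℤ} (hp : p ≠ 0) : ht w p ≤ Hs w :=
  le_ciSup (bddAbove_ht hw) (⟨p, hp⟩ : NZ)

theorem im_le_Hs {w : ℂ} (hw : 0 < w.im) : w.im ≤ Hs w := by
  have := ht_le_Hs hw (p := (0, 1)) (by simp)
  simpa [ht] using this

theorem Hs_pos {w : ℂ} (hw : 0 < w.im) : 0 < Hs w := hw.trans_le (im_le_Hs hw)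

theorem exists_lt_ht {w : ℂ} (hw : 0 < w.im) {r : ℝ} (hr : r < Hs w) :
    ∃ p : ℤ × ℤ, p ≠ 0 ∧ r < ht w p := by
  obtain ⟨p, hp⟩ := exists_lt_of_lt_ciSup hr
  exact ⟨p.1, p.2, hp⟩

/-- the equivalence of nonzero pairs given by a translation -/
def eT (k : ℤ) : ℤ × ℤ ≃ ℤ × ℤ where
  toFun p := (p.1, p.2 + k * p.1)
  invFun p := (p.1, p.2 - k * p.1)
  left_inv p := by simp
  right_inv p := by simp

/-- the equivalence of pairs given by the inversion -/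
def eS : ℤ × ℤ ≃ ℤ × ℤ where
  toFun p := (-p.2, p.1)
  invFun p := (p.2, -p.1)
  left_inv p := by simp
  right_inv p := by simp

theorem eT_zero (k : ℤ) : eT k 0 = 0 := by simp [eT]

theorem eS_zero : eS 0 = 0 := by simp [eS]

theorem ht_add (w : ℂ) (k : ℤ) (p : ℤ × ℤ) : ht (w + k) p = ht w (eT k p) := by
  unfold ht eT
  simp only [Complex.add_im, Complex.intCast_im, add_zero, Equiv.coe_fn_mk]
  congr 3
  push_cast
  ring

theorem ht_inv {w : ℂ} (hw : 0 < w.im) (p : ℤ × ℤ) : ht (-1 / w) (eS p) = ht w p := by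
  have h0 := ne_zero_of_im_pos hw
  have hn : ‖w‖ ≠ 0 := norm_ne_zero_iff.mpr h0
  unfold ht
  rw [im_neg_inv]
  simp only [eS, Equiv.coe_fn_mk]
  have h1 : ((-p.2 : ℤ) : ℂ) * (-1 / w) + (p.1 : ℤ) = (p.1 * w + p.2) / w := by
    push_cast
    field_simp
    ring
  rw [h1, norm_div, div_pow, div_div_div_cancel_right₀ (pow_ne_zero 2 hn)]

theorem Hs_add (w : ℂ) (k : ℤ) : Hs (w + k) = Hs w := by
  unfold Hs
  let e : NZ ≃ NZ := (eT k).subtypeEquiv (fun p => by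
    rw [Ne, Ne, not_iff_not]
    constructor
    · rintro rfl; exact eT_zero k
    · intro h; rw [← eT_zero k] at h; exact (eT k).injective h)
  rw [← e.iSup_comp (g := fun p : NZ => ht w p.1)]
  congr 1
  ext p
  rw [ht_add]
  rfl

theorem Hs_inv {w : ℂ} (hw : 0 < w.im) : Hs (-1 / w) = Hs w := by
  unfold Hs
  let e : NZ ≃ NZ := eS.subtypeEquiv (fun p => by
    rw [Ne, Ne, not_iff_not]
    constructor
    · rintro rfl; exact eS_zero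
    · intro h; rw [← eS_zero] at h; exact eS.injective h)
  rw [← e.iSup_comp (g := fun p : NZ => ht (-1 / w) p.1)]
  congr 1
  ext p
  rw [← ht_inv hw]
  rfl

theorem im_rpow_mul_norm_Qt_le {ε : ℂ} (hε : ‖ε‖ = 1) {x : ℝ} {c : ℂ} {w : ℂ} (hw : 0 < w.im) :
    w.im ^ (1 / 4 : ℝ) * ‖Qt ε x c w‖ ≤ (2 * (1 + ‖c‖)) * Hs w ^ (1 / 4 : ℝ) := by
  have h1 := norm_Qt_le (x := x) (c := c) hε hw
  have h2 : w.im ^ (1 / 4 : ℝ) ≤ Hs w ^ (1 / 4 : ℝ) :=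
    Real.rpow_le_rpow hw.le (im_le_Hs hw) (by norm_num)
  have h3 : (-1 / w).im ^ (1 / 4 : ℝ) ≤ Hs w ^ (1 / 4 : ℝ) := by
    rw [← Hs_inv hw]
    exact Real.rpow_le_rpow (im_neg_inv_pos hw).le (im_le_Hs (im_neg_inv_pos hw)) (by norm_num)
  have h4 : 0 ≤ w.im ^ (1 / 4 : ℝ) := Real.rpow_nonneg hw.le _
  calc w.im ^ (1 / 4 : ℝ) * ‖Qt ε x c w‖
      ≤ w.im ^ (1 / 4 : ℝ) * ((1 + ‖c‖) * (1 + ‖J w‖)) := by gcongr
    _ = (1 + ‖c‖) * (w.im ^ (1 / 4 : ℝ) + w.im ^ (1 / 4 : ℝ) * ‖J w‖) := by ring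
    _ = (1 + ‖c‖) * (w.im ^ (1 / 4 : ℝ) + (-1 / w).im ^ (1 / 4 : ℝ)) := by
        rw [im_rpow_mul_norm_J hw]
    _ ≤ (1 + ‖c‖) * (Hs w ^ (1 / 4 : ℝ) + Hs w ^ (1 / 4 : ℝ)) := by gcongr
    _ = _ := by ring

end Pool.Agent.Helper45.FU
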