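import Pool.Agent.Helper45.FU.Cocycle

/-!
# Lattice sums
-/

open Complex

namespace Pool.Agent.Helper45.FU

/-- the maximum norm of a pair -/
def mx (p : ℤ × ℤ) : ℝ := max |(p.1 : ℝ)| |(p.2 : ℝ)|

theorem mx_nonneg (p : ℤ × ℤ) : 0 ≤ mx p := le_max_of_le_left (abs_nonneg _)

theorem one_le_mx {p : ℤ × ℤ} (hp : p ≠ 0) : 1 ≤ mx p := by
  unfold mx
  by_cases h : p.1 = 0
  · have h2 : p.2 ≠ 0 := fun h' => hp (Prod.ext h h')
    exact le_max_of_le_right (by exact_mod_cast Int.one_le_abs h2)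
  · exact le_max_of_le_left (by exact_mod_cast Int.one_le_abs h)

theorem summable_mx : Summable fun p : ℤ × ℤ => ((mx p)⁻¹) ^ 3 := by
  have h := EisensteinSeries.summable_one_div_norm_rpow (k := 3) (by norm_num)
  rw [← (finTwoArrowEquiv ℤ).symm.summable_iff] at h
  refine h.congr fun p => ?_
  simp only [Function.comp_apply, finTwoArrowEquiv_symm_apply]
  rw [EisensteinSeries.norm_eq_max_natAbs]
  unfold mx
  have : ((max (![p.1, p.2] 0).natAbs (![p.1, p.2] 1).natAbs : ℕ) : ℝ) =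
      max |(p.1 : ℝ)| |(p.2 : ℝ)| := by
    push_cast
    simp
  rw [this]
  have h3 : (-3 : ℝ) = -((3 : ℕ) : ℝ) := by norm_num
  rw [h3, Real.rpow_neg (le_max_of_le_left (abs_nonneg _)), Real.rpow_natCast, inv_pow]

/-- a linear form -/
noncomputable def lin (w : ℂ) (p : ℤ × ℤ) : ℂ := (p.1 : ℂ) * w + p.2

theorem lin_ne {w : ℂ} (hw : 0 < w.im) {p : ℤ × ℤ} (hp : p ≠ 0) : lin w p ≠ 0 := lin_ne_zero hw hp

theorem lin_zero (w : ℂ) : lin w 0 = 0 := by simp [lin]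

/-- lower bound constant -/
noncomputable def rho (w : ℂ) : ℝ := min w.im (w.im / (w.im + ‖w‖))

theorem rho_pos {w : ℂ} (hw : 0 < w.im) : 0 < rho w := by
  unfold rho
  have := norm_nonneg w
  exact lt_min hw (by positivity)

theorem abs_fst_mul_im_le {w : ℂ} (hw : 0 < w.im) (p : ℤ × ℤ) :
    |(p.1 : ℝ)| * w.im ≤ ‖lin w p‖ := by
  have := im_le_norm_lin w p
  rwa [abs_of_pos hw] at this

theorem rho_mul_mx_le {w : ℂ} (hw : 0 < w.im) (p : ℤ × ℤ) : rho w * mx p ≤ ‖lin w p‖ := by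
  have hc := abs_fst_mul_im_le hw p
  have hn := norm_nonneg w
  have hl := norm_nonneg (lin w p)
  unfold mx
  rcases max_choice |(p.1 : ℝ)| |(p.2 : ℝ)| with h | h <;> rw [h]
  · calc rho w * |(p.1 : ℝ)| ≤ w.im * |(p.1 : ℝ)| := by
          gcongr; exact min_le_left _ _
      _ = |(p.1 : ℝ)| * w.im := by ring
      _ ≤ _ := hc
  · have h1 : |(p.2 : ℝ)| ≤ ‖lin w p‖ + |(p.1 : ℝ)| * ‖w‖ := by
      calc |(p.2 : ℝ)| = ‖(p.2 : ℂ)‖ := by simp
        _ = ‖lin w p - (p.1 : ℂ) * w‖ := by unfold lin; ring_nf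
        _ ≤ ‖lin w p‖ + ‖(p.1 : ℂ) * w‖ := norm_sub_le _ _
        _ = _ := by rw [norm_mul]; simp
    have h2 : |(p.2 : ℝ)| * w.im ≤ ‖lin w p‖ * (w.im + ‖w‖) := by
      calc |(p.2 : ℝ)| * w.im ≤ (‖lin w p‖ + |(p.1 : ℝ)| * ‖w‖) * w.im := by gcongr
        _ = ‖lin w p‖ * w.im + (|(p.1 : ℝ)| * w.im) * ‖w‖ := by ring
        _ ≤ ‖lin w p‖ * w.im + ‖lin w p‖ * ‖w‖ := by gcongr
        _ = _ := by ring
    calc rho w * |(p.2 : ℝ)| ≤ w.im / (w.im + ‖w‖) * |(p.2 : ℝ)| := by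
          gcongr; exact min_le_right _ _
      _ = (|(p.2 : ℝ)| * w.im) / (w.im + ‖w‖) := by ring
      _ ≤ _ := by rw [div_le_iff₀ (by positivity)]; exact h2

theorem inv_lin_le {w : ℂ} (hw : 0 < w.im) (p : ℤ × ℤ) :
    ‖lin w p‖⁻¹ ≤ (rho w)⁻¹ * (mx p)⁻¹ := by
  by_cases hp : p = 0
  · rw [hp, lin_zero, norm_zero, inv_zero]
    simp [mx]
  · rw [← mul_inv]
    have := rho_pos hw
    have h1 := one_le_mx hp
    exact inv_anti₀ (by positivity) (rho_mul_mx_le hw p)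

theorem inv_lin3_le {w : ℂ} (hw : 0 < w.im) (p : ℤ × ℤ) :
    (‖lin w p‖⁻¹) ^ 3 ≤ ((rho w)⁻¹) ^ 3 * ((mx p)⁻¹) ^ 3 := by
  rw [← mul_pow]
  gcongr
  exact inv_lin_le hw p

theorem summable_lin3 {w : ℂ} (hw : 0 < w.im) : Summable fun p : ℤ × ℤ => (‖lin w p‖⁻¹) ^ 3 :=
  Summable.of_nonneg_of_le (fun p => by positivity) (fun p => inv_lin3_le hw p)
    (summable_mx.mul_left _)

/-- the absolute cubic lattice sum -/
noncomputable def T3 (w : ℂ) : ℝ := ∑' p : ℤ × ℤ, (‖lin w p‖⁻¹) ^ 3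

theorem T3_nonneg (w : ℂ) : 0 ≤ T3 w := tsum_nonneg fun p => by positivity

theorem T3_le {w : ℂ} (hw : 0 < w.im) :
    T3 w ≤ ((rho w)⁻¹) ^ 3 * ∑' p : ℤ × ℤ, ((mx p)⁻¹) ^ 3 := by
  unfold T3
  rw [← tsum_mul_left]
  exact Summable.tsum_le_tsum (fun p => inv_lin3_le hw p) (summable_lin3 hw)
    (summable_mx.mul_left _)

theorem lin_add (w : ℂ) (k : ℤ) (p : ℤ × ℤ) : lin (w + k) p = lin w (eT k p) := by
  unfold lin eT
  simp only [Equiv.coe_fn_mk]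
  push_cast
  ring

theorem lin_inv {w : ℂ} (hw : 0 < w.im) (p : ℤ × ℤ) : lin (-1 / w) (eS p) = lin w p / w := by
  have h0 := ne_zero_of_im_pos hw
  unfold lin eS
  simp only [Equiv.coe_fn_mk]
  push_cast
  field_simp
  ring

theorem T3_add (w : ℂ) (k : ℤ) : T3 (w + k) = T3 w := by
  unfold T3
  rw [← (eT k).tsum_eq (fun p => (‖lin w p‖⁻¹) ^ 3)]
  exact tsum_congr fun p => by rw [lin_add]

theorem T3_inv {w : ℂ} (hw : 0 < w.im) : T3 (-1 / w) = ‖w‖ ^ 3 * T3 w := by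
  unfold T3
  rw [← eS.tsum_eq (fun p => (‖lin (-1 / w) p‖⁻¹) ^ 3), ← tsum_mul_left]
  refine tsum_congr fun p => ?_
  rw [lin_inv hw, norm_div, inv_div, div_eq_mul_inv, mul_pow]

/-- a point with real part in `[0,1)` -/
theorem exists_reduce (w : ℂ) : ∃ (k : ℤ) (v : ℂ), w = v + k ∧ v.im = w.im ∧ 0 ≤ v.re ∧ v.re < 1 := by
  refine ⟨⌊w.re⌋, w - ⌊w.re⌋, by ring, by simp, ?_, ?_⟩
  · simp only [Complex.sub_re, Complex.intCast_re]
    linarith [Int.floor_le w.re]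
  · simp only [Complex.sub_re, Complex.intCast_re]
    linarith [Int.lt_floor_add_one w.re]

theorem exists_T3_bound : ∃ K : ℝ, 0 < K ∧ ∀ w : ℂ, 1 / 2 ≤ w.im → T3 w ≤ K := by
  refine ⟨4 ^ 3 * (∑' p : ℤ × ℤ, ((mx p)⁻¹) ^ 3) + 1, ?_, fun w hw => ?_⟩
  · have : 0 ≤ ∑' p : ℤ × ℤ, ((mx p)⁻¹) ^ 3 := tsum_nonneg fun p => by
      have := mx_nonneg p
      positivity
    positivity
  · obtain ⟨k, v, hk, hv, h0, h1⟩ := exists_reduce w
    rw [hk, T3_add]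
    have hv0 : 0 < v.im := by linarith
    have hr : 1 / 4 ≤ rho v := by
      unfold rho
      apply le_min (by linarith)
      have hn : ‖v‖ ≤ 1 + v.im := by
        calc ‖v‖ ≤ |v.re| + |v.im| := Complex.norm_le_abs_re_add_abs_im v
          _ ≤ 1 + v.im := by rw [abs_of_nonneg h0, abs_of_pos hv0]; linarith
      rw [le_div_iff₀ (by positivity)]
      rw [← hv] at hw
      linarith
    have hri : (rho v)⁻¹ ≤ 4 := by
      rw [inv_le_comm₀ (by linarith) (by norm_num)]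
      linarith
    have hrp : 0 ≤ (rho v)⁻¹ := inv_nonneg.mpr (by linarith)
    have hs : 0 ≤ ∑' p : ℤ × ℤ, ((mx p)⁻¹) ^ 3 := tsum_nonneg fun p => by
      have := mx_nonneg p
      positivity
    calc T3 v ≤ ((rho v)⁻¹) ^ 3 * ∑' p : ℤ × ℤ, ((mx p)⁻¹) ^ 3 := T3_le hv0
      _ ≤ 4 ^ 3 * ∑' p : ℤ × ℤ, ((mx p)⁻¹) ^ 3 := by gcongr
      _ ≤ _ := by linarith

/-! ## Weighted sums of holomorphic functions -/

open Classical in
/-- the weighted sum over a set of pairs -/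
noncomputable def WS (R : ℤ × ℤ → Prop) (a : ℤ × ℤ → ℂ → ℂ) (w : ℂ) : ℂ :=
  ∑' p : ℤ × ℤ, if R p then a p w / lin w p ^ 4 else 0

/-- admissible coefficient functions -/
def Adm (R : ℤ × ℤ → Prop) (a : ℤ × ℤ → ℂ → ℂ) (q : ℝ) : Prop :=
  ∀ p, R p → p ≠ 0 ∧ DifferentiableOn ℂ (a p) HH ∧ ∀ w : ℂ, 0 < w.im →
    w.im ^ (1 / 4 : ℝ) * ‖a p w‖ ≤ q * mx p * Hs w ^ (1 / 4 : ℝ)

theorem Hs_div_le {w : ℂ} (hw : 0 < w.im) :
    Hs w ^ (1 / 4 : ℝ) / w.im ^ (1 / 4 : ℝ) ≤ 1 + 1 / w.im ^ 2 := by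
  rw [← Real.div_rpow (Hs_pos hw).le hw.le]
  have h1 : Hs w / w.im ≤ 1 + 1 / w.im ^ 2 := by
    rw [div_le_iff₀ hw]
    calc Hs w ≤ w.im + 1 / w.im := Hs_le hw
      _ = _ := by field_simp
  have h2 : (1 : ℝ) ≤ 1 + 1 / w.im ^ 2 := by
    have : 0 < 1 / w.im ^ 2 := by positivity
    linarith
  calc (Hs w / w.im) ^ (1 / 4 : ℝ) ≤ (1 + 1 / w.im ^ 2) ^ (1 / 4 : ℝ) :=
        Real.rpow_le_rpow (div_nonneg (Hs_pos hw).le hw.le) h1 (by norm_num)
    _ ≤ (1 + 1 / w.im ^ 2) ^ (1 : ℝ) := Real.rpow_le_rpow_of_exponent_le h2 (by norm_num)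
    _ = _ := Real.rpow_one _

theorem Adm.term_le {R : ℤ × ℤ → Prop} {a : ℤ × ℤ → ℂ → ℂ} {q : ℝ} (hq : 0 ≤ q) (h : Adm R a q)
    {w : ℂ} (hw : 0 < w.im) {p : ℤ × ℤ} (hp : R p) :
    ‖a p w / lin w p ^ 4‖ ≤ q * (1 + 1 / w.im ^ 2) * (rho w)⁻¹ * (‖lin w p‖⁻¹) ^ 3 := by
  obtain ⟨hp0, -, hb⟩ := h p hp
  have hy : 0 < w.im ^ (1 / 4 : ℝ) := Real.rpow_pos_of_pos hw _
  have hr := rho_pos hw
  have hm := mx_nonneg p
  have h1 : ‖a p w‖ ≤ q * mx p * (1 + 1 / w.im ^ 2) := by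
    calc ‖a p w‖ = (w.im ^ (1 / 4 : ℝ) * ‖a p w‖) / w.im ^ (1 / 4 : ℝ) := by field_simp
      _ ≤ (q * mx p * Hs w ^ (1 / 4 : ℝ)) / w.im ^ (1 / 4 : ℝ) :=
          div_le_div_of_nonneg_right (hb w hw) hy.le
      _ = q * mx p * (Hs w ^ (1 / 4 : ℝ) / w.im ^ (1 / 4 : ℝ)) := by ring
      _ ≤ _ := by gcongr; exact Hs_div_le hw
  have hl : 0 < ‖lin w p‖ := norm_pos_iff.mpr (lin_ne hw hp0)
  have h2 : mx p ≤ (rho w)⁻¹ * ‖lin w p‖ := by
    rw [inv_mul_eq_div, le_div_iff₀ hr, mul_comm]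
    exact rho_mul_mx_le hw p
  rw [norm_div, norm_pow]
  calc ‖a p w‖ / ‖lin w p‖ ^ 4 ≤ (q * mx p * (1 + 1 / w.im ^ 2)) / ‖lin w p‖ ^ 4 := by gcongr
    _ ≤ (q * ((rho w)⁻¹ * ‖lin w p‖) * (1 + 1 / w.im ^ 2)) / ‖lin w p‖ ^ 4 := by gcongr
    _ = _ := by field_simp

theorem Adm.summable {R : ℤ × ℤ → Prop} {a : ℤ × ℤ → ℂ → ℂ} {q : ℝ} (hq : 0 ≤ q) (h : Adm R a q)
    {w : ℂ} (hw : 0 < w.im) : open Classical in
    Summable fun p : ℤ × ℤ => if R p then a p w / lin w p ^ 4 else 0 := by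
  classical
  refine Summable.of_norm_bounded
    (g := fun p => q * (1 + 1 / w.im ^ 2) * (rho w)⁻¹ * (‖lin w p‖⁻¹) ^ 3)
    ((summable_lin3 hw).mul_left _) fun p => ?_
  have hr := rho_pos hw
  split_ifs with hp
  · exact h.term_le hq hw hp
  · rw [norm_zero]
    positivity

theorem Adm.differentiableOn {R : ℤ × ℤ → Prop} {a : ℤ × ℤ → ℂ → ℂ} {q : ℝ} (hq : 0 ≤ q)
    (h : Adm R a q) : DifferentiableOn ℂ (WS R a) HH := by
  classical
  intro w hw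
  have hw' : 0 < w.im := hw
  set δ : ℝ := w.im / 2 with hδ
  have hδ0 : 0 < δ := by rw [hδ]; linarith
  set A : ℝ := ‖w‖ + 1 with hA
  have hA0 : 0 < A := by rw [hA]; positivity
  set U : Set ℂ := {v | δ < v.im ∧ ‖v‖ < A} with hU
  have hUo : IsOpen U := (isOpen_lt continuous_const Complex.continuous_im).inter
    (isOpen_lt continuous_norm continuous_const)
  have hwU : w ∈ U := ⟨by rw [hδ]; linarith, by rw [hA]; linarith⟩
  set ρ : ℝ := min δ (δ / (δ + A)) with hρ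
  have hρ0 : 0 < ρ := lt_min hδ0 (by positivity)
  have hρle : ∀ v ∈ U, ρ ≤ rho v := by
    intro v hv
    have hv1 : δ < v.im := hv.1
    have hv2 : ‖v‖ < A := hv.2
    unfold rho
    apply min_le_min hv1.le
    have hv0 : 0 < v.im := by linarith
    rw [div_le_div_iff₀ (by positivity) (by positivity)]
    nlinarith [norm_nonneg v, mul_nonneg hδ0.le (sub_nonneg.mpr hv2.le),
      mul_nonneg (sub_nonneg.mpr hv1.le) hA0.le]
  have key : DifferentiableOn ℂ (WS R a) U := by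
    unfold WS
    refine Complex.differentiableOn_tsum_of_summable_norm
      (u := fun p => (q * (1 + 1 / δ ^ 2) * (ρ⁻¹)) * ((ρ⁻¹) ^ 3 * ((mx p)⁻¹) ^ 3))
      ((summable_mx.mul_left _).mul_left _) ?_ hUo ?_
    · intro p
      by_cases hp : R p
      · simp only [hp, if_true]
        intro v hv
        have hv0 : 0 < v.im := hδ0.trans hv.1
        obtain ⟨hp0, hd, -⟩ := h p hp
        have h1 : DifferentiableAt ℂ (a p) v := (hd v hv0).differentiableAt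
          (isOpen_HH.mem_nhds hv0)
        have h2 : DifferentiableAt ℂ (fun v => lin v p ^ 4) v := by
          unfold lin
          fun_prop
        exact (h1.fun_div h2 (pow_ne_zero 4 (lin_ne hv0 hp0))).differentiableWithinAt
      · simp only [hp, if_false]
        exact differentiableOn_const 0
    · intro p v hv
      have hv0 : 0 < v.im := hδ0.trans hv.1
      have hm := mx_nonneg p
      have hρv := hρle v hv
      split_ifs with hp
      · refine (h.term_le hq hv0 hp).trans ?_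
        have hr := rho_pos hv0
        have e1 : (rho v)⁻¹ ≤ ρ⁻¹ := inv_anti₀ hρ0 hρv
        have e2 : (‖lin v p‖⁻¹) ^ 3 ≤ (ρ⁻¹) ^ 3 * ((mx p)⁻¹) ^ 3 := by
          refine (inv_lin3_le hv0 p).trans ?_
          gcongr
        have e3 : 1 / v.im ^ 2 ≤ 1 / δ ^ 2 := by
          have : δ ≤ v.im := hv.1.le
          gcongr
        gcongr
      · rw [norm_zero]
        positivity
  exact ((key w hwU).differentiableAt (hUo.mem_nhds hwU)).differentiableWithinAt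

end Pool.Agent.Helper45.FU
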