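import Pool.Agent.Helper45.FU.MZero

/-!
# Theta functions and the homogeneous solutions
-/

open Complex Filter Topology

namespace Pool.Agent.Helper45.FU

/-- third theta constant -/
noncomputable def th3 (w : ℂ) : ℂ := jacobiTheta w
/-- fourth theta constant -/
noncomputable def th4 (w : ℂ) : ℂ := jacobiTheta (w + 1)
/-- second theta constant -/
noncomputable def th2 (w : ℂ) : ℂ := cexp (Real.pi * I * w / 4) * jacobiTheta₂ (w / 2) w

theorem th3_add_two (w : ℂ) : th3 (w + 2) = th3 w := by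
  unfold th3
  rw [add_comm, jacobiTheta_two_add]

theorem th3_add_one (w : ℂ) : th3 (w + 1) = th4 w := rfl

theorem th4_add_one (w : ℂ) : th4 (w + 1) = th3 w := by
  unfold th4 th3
  rw [show w + 1 + 1 = 2 + w by ring, jacobiTheta_two_add]

theorem th4_add_two (w : ℂ) : th4 (w + 2) = th4 w := by
  rw [show w + 2 = w + 1 + 1 by ring, th4_add_one, th3_add_one]

theorem exp_add_sq (n : ℤ) : cexp (Real.pi * I * (n + n ^ 2)) = 1 := by
  have h : Even (n + n ^ 2) := by
    have := Int.even_mul_succ_self n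
    have e : n + n ^ 2 = n * (n + 1) := by ring
    rwa [e]
  obtain ⟨m, hm⟩ := h
  have e2 : (Real.pi * I * (n + n ^ 2) : ℂ) = m * (2 * Real.pi * I) := by
    have : ((n : ℂ) + (n : ℂ) ^ 2) = (m : ℂ) + m := by exact_mod_cast hm
    rw [this]; ring
  rw [e2, Complex.exp_int_mul_two_pi_mul_I]

theorem th4_eq (w : ℂ) : th4 w = jacobiTheta₂ (1 / 2) w := by
  unfold th4
  rw [jacobiTheta_eq_jacobiTheta₂]
  refine tsum_congr fun n => ?_
  unfold jacobiTheta₂_term
  have e1 : (2 * Real.pi * I * n * 0 + Real.pi * I * n ^ 2 * (w + 1) : ℂ) =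
      (2 * Real.pi * I * n * (1 / 2) + Real.pi * I * n ^ 2 * w) +
      ((Real.pi * I * (n + n ^ 2)) + ((-n : ℤ) : ℂ) * (2 * Real.pi * I)) := by
    push_cast
    ring
  rw [e1, Complex.exp_add _ ((Real.pi * I * (n + n ^ 2)) + ((-n : ℤ) : ℂ) * (2 * Real.pi * I)),
    Complex.exp_add (Real.pi * I * (n + n ^ 2)), exp_add_sq, Complex.exp_int_mul_two_pi_mul_I]
  ring

theorem th2_add_one (w : ℂ) : th2 (w + 1) = J 1 * th2 w := by
  unfold th2
  have h : jacobiTheta₂ ((w + 1) / 2) (w + 1) = jacobiTheta₂ (w / 2) w := by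
    refine tsum_congr fun n => ?_
    unfold jacobiTheta₂_term
    have e1 : (2 * Real.pi * I * n * ((w + 1) / 2) + Real.pi * I * n ^ 2 * (w + 1) : ℂ) =
        (2 * Real.pi * I * n * (w / 2) + Real.pi * I * n ^ 2 * w) +
        (Real.pi * I * (n + n ^ 2)) := by
      ring
    rw [e1, Complex.exp_add, exp_add_sq, mul_one]
  rw [h, J_one, ← mul_assoc, ← Complex.exp_add]
  congr 2
  push_cast
  ring

theorem th2_eq (w : ℂ) (hw : 0 < w.im) : th2 w = J w * th4 (-1 / w) := by
  have h0 := ne_zero_of_im_pos hw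
  unfold th2
  rw [jacobiTheta₂_functional_equation, th4_eq]
  have e1 : (w / 2) / w = 1 / 2 := by field_simp
  rw [e1]
  unfold J
  have e2 : cexp (Real.pi * I * w / 4) * cexp (-Real.pi * I * (w / 2) ^ 2 / w) = 1 := by
    rw [← Complex.exp_add]
    have : (Real.pi * I * w / 4 + -Real.pi * I * (w / 2) ^ 2 / w : ℂ) = 0 := by
      field_simp
      ring
    rw [this, Complex.exp_zero]
  linear_combination (1 / (-I * w) ^ (1 / 2 : ℂ) * jacobiTheta₂ (1 / 2) (-1 / w)) * e2

theorem th3_eq (w : ℂ) (hw : 0 < w.im) : th3 w = J w * th3 (-1 / w) := by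
  have h0 := ne_zero_of_im_pos hw
  unfold th3
  rw [jacobiTheta_eq_jacobiTheta₂, jacobiTheta₂_functional_equation, jacobiTheta_eq_jacobiTheta₂]
  unfold J
  simp

/-- the principal square root of `-i w` -/
noncomputable def sr (w : ℂ) : ℂ := (-I * w) ^ (1 / 2 : ℂ)

theorem sr_ne_zero {w : ℂ} (hw : 0 < w.im) : sr w ≠ 0 := by
  unfold sr
  rw [Ne, cpow_eq_zero_iff]
  intro h
  exact negI_mul_ne_zero hw h.1

theorem J_eq_sr (w : ℂ) : J w = 1 / sr w := rfl

theorem sr_sq (w : ℂ) : sr w ^ 2 = -I * w := by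
  unfold sr
  rw [← Complex.cpow_nat_mul]
  norm_num

theorem sr_pow_four (w : ℂ) : sr w ^ 4 = -w ^ 2 := by
  have : sr w ^ 4 = (sr w ^ 2) ^ 2 := by ring
  rw [this, sr_sq, mul_pow]
  simp

theorem sr_pow_eight (w : ℂ) : sr w ^ 8 = w ^ 4 := by
  have : sr w ^ 8 = (sr w ^ 4) ^ 2 := by ring
  rw [this, sr_pow_four]
  ring

theorem th3_inv {w : ℂ} (hw : 0 < w.im) : th3 (-1 / w) = sr w * th3 w := by
  have h := th3_eq w hw
  have h1 := sr_ne_zero hw
  rw [J_eq_sr] at h
  rw [h]
  field_simp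

theorem th4_inv {w : ℂ} (hw : 0 < w.im) : th4 (-1 / w) = sr w * th2 w := by
  have h := th2_eq w hw
  have h1 := sr_ne_zero hw
  rw [J_eq_sr] at h
  rw [h]
  field_simp

theorem th2_inv {w : ℂ} (hw : 0 < w.im) : th2 (-1 / w) = sr w * th4 w := by
  have h := th2_eq (-1 / w) (im_neg_inv_pos hw)
  rw [neg_inv_neg_inv] at h
  have h1 := sr_ne_zero hw
  have h2 := J_mul_J hw
  rw [J_eq_sr w] at h2
  have h3 : J (-1 / w) = sr w := by
    rw [one_div, inv_mul_eq_one₀ h1] at h2
    exact h2.symm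
  rw [h, h3]

theorem th2_pow_four_add_two (w : ℂ) : th2 (w + 2) ^ 4 = th2 w ^ 4 := by
  have e : w + 2 = w + 1 + 1 := by ring
  rw [e, th2_add_one, th2_add_one]
  have h : J 1 ^ 8 = 1 := by
    have : J 1 ^ 8 = (J 1 * J 1) ^ 4 := by ring
    rw [this, J_one_sq, I_pow_four]
  calc (J 1 * (J 1 * th2 w)) ^ 4 = J 1 ^ 8 * th2 w ^ 4 := by ring
    _ = _ := by rw [h, one_mul]

theorem J_one_pow_four : J 1 ^ 4 = -1 := by
  have : J 1 ^ 4 = (J 1 * J 1) ^ 2 := by ring
  rw [this, J_one_sq, I_sq]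

theorem th3_diff : DifferentiableOn ℂ th3 HH := fun _ hw =>
  (differentiableAt_jacobiTheta hw).differentiableWithinAt

theorem th4_diff : DifferentiableOn ℂ th4 HH := by
  intro w hw
  unfold th4
  have h1 : 0 < (w + 1).im := by simpa [HH] using hw
  exact ((differentiableAt_jacobiTheta h1).comp w
    (differentiableAt_id.add (differentiableAt_const 1))).differentiableWithinAt

theorem th2_diff : DifferentiableOn ℂ th2 HH := by
  intro w hw
  apply DifferentiableAt.differentiableWithinAt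
  unfold th2
  refine DifferentiableAt.mul (by fun_prop) ?_
  have h1 := (hasFDerivAt_jacobiTheta₂ (w / 2) hw).differentiableAt
  have h2 : DifferentiableAt ℂ (fun v : ℂ => ((v / 2, v) : ℂ × ℂ)) w := by fun_prop
  exact DifferentiableAt.comp (g := fun p : ℂ × ℂ => jacobiTheta₂ p.1 p.2)
    (f := fun v : ℂ => ((v / 2, v) : ℂ × ℂ)) w h1 h2

theorem tendsto_th3 : Tendsto th3 Iinf (𝓝 1) := by
  have h := isBigO_at_im_infty_jacobiTheta_sub_one
  have h2 : Tendsto (fun τ : ℂ => Real.exp (-Real.pi * τ.im)) Iinf (𝓝 0) := by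
    have h3 : Tendsto Complex.im Iinf atTop := tendsto_comap
    have h4 : Tendsto (fun y : ℝ => -Real.pi * y) atTop atBot :=
      tendsto_id.const_mul_atTop_of_neg (by linarith [Real.pi_pos])
    exact (Real.tendsto_exp_atBot.comp h4).comp h3
  have h5 : Tendsto (fun τ => jacobiTheta τ - 1) Iinf (𝓝 0) := h.trans_tendsto h2
  have h6 := h5.add_const 1
  rw [zero_add] at h6
  refine h6.congr fun w => ?_
  unfold th3
  ring

theorem tendsto_add_one_Iinf : Tendsto (fun w : ℂ => w + 1) Iinf Iinf := by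
  unfold Iinf
  rw [tendsto_comap_iff]
  have : Complex.im ∘ (fun w : ℂ => w + 1) = Complex.im := by ext w; simp
  rw [this]
  exact tendsto_comap

theorem tendsto_th4 : Tendsto th4 Iinf (𝓝 1) := tendsto_th3.comp tendsto_add_one_Iinf

theorem tendsto_th2 : Tendsto (fun w => cexp (-(Real.pi * I * w / 4)) * th2 w) Iinf (𝓝 2) := by
  have e : ∀ w : ℂ, cexp (-(Real.pi * I * w / 4)) * th2 w = jacobiTheta₂ (w / 2) w := by
    intro w
    unfold th2
    rw [← mul_assoc, ← Complex.exp_add]
    simp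
  simp_rw [e]
  unfold jacobiTheta₂
  -- dominated convergence
  have hlim : ∀ n : ℤ, Tendsto (fun w : ℂ => jacobiTheta₂_term n (w / 2) w) Iinf
      (𝓝 (if n ∈ ({0, -1} : Finset ℤ) then 1 else 0)) := by
    intro n
    split_ifs with hn
    · have : ∀ w : ℂ, jacobiTheta₂_term n (w / 2) w = 1 := by
        intro w
        unfold jacobiTheta₂_term
        simp only [Finset.mem_insert, Finset.mem_singleton] at hn
        rcases hn with h | h
        · rw [h]; simp
        · rw [h]
          have : (2 * Real.pi * I * ((-1 : ℤ) : ℂ) * (w / 2) +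
              Real.pi * I * ((-1 : ℤ) : ℂ) ^ 2 * w : ℂ) = 0 := by
            push_cast; ring
          rw [this, Complex.exp_zero]
      simp_rw [this]
      exact tendsto_const_nhds
    · rw [tendsto_zero_iff_norm_tendsto_zero]
      have hpos : (1 : ℝ) ≤ (n : ℝ) ^ 2 + n := by
        have : (1 : ℤ) ≤ n ^ 2 + n := by
          simp only [Finset.mem_insert, Finset.mem_singleton, not_or] at hn
          rcases lt_or_gt_of_ne hn.1 with h | h
          · have h2 : n ≤ -2 := by omega
            nlinarith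
          · nlinarith
        exact_mod_cast this
      have e2 : ∀ w : ℂ, ‖jacobiTheta₂_term n (w / 2) w‖ =
          Real.exp (-(Real.pi * ((n : ℝ) ^ 2 + n)) * w.im) := by
        intro w
        rw [norm_jacobiTheta₂_term]
        congr 1
        have : (w / 2).im = w.im / 2 := by simp
        rw [this]; ring
      simp_rw [e2]
      have h3 : Tendsto Complex.im Iinf atTop := tendsto_comap
      have h4 : Tendsto (fun y : ℝ => -(Real.pi * ((n : ℝ) ^ 2 + n)) * y) atTop atBot :=
        tendsto_id.const_mul_atTop_of_neg (by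
          have := Real.pi_pos
          have : 0 < Real.pi * ((n : ℝ) ^ 2 + n) := by positivity
          linarith)
      exact (Real.tendsto_exp_atBot.comp h4).comp h3
  have hsum : ∑' n : ℤ, (if n ∈ ({0, -1} : Finset ℤ) then (1 : ℂ) else 0) = 2 := by
    rw [tsum_eq_sum (s := {0, -1}) (fun b hb => if_neg hb)]
    rw [Finset.sum_congr rfl (fun x hx => if_pos hx)]
    rw [Finset.sum_const, Finset.card_pair (by norm_num)]
    norm_num
  have hfin := tendsto_tsum_of_dominated_convergence (𝓕 := Iinf)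
    (f := fun (w : ℂ) (n : ℤ) => jacobiTheta₂_term n (w / 2) w)
    (bound := fun n : ℤ => Real.exp (-Real.pi * ((n : ℝ) ^ 2 + n))) ?_ hlim ?_
  · rwa [hsum] at hfin
  · have h := (summable_jacobiTheta₂_term_iff (I / 2) I).mpr (by simp)
    refine h.norm.congr fun n => ?_
    rw [norm_jacobiTheta₂_term]
    congr 1
    have h1 : (I : ℂ).im = 1 := by simp
    have h2 : (I / 2 : ℂ).im = 1 / 2 := by simp
    rw [h1, h2]; ring
  · rw [eventually_Iinf]
    refine ⟨1, fun w hw n => ?_⟩
    rw [norm_jacobiTheta₂_term]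
    apply Real.exp_le_exp.mpr
    have h2 : (w / 2).im = w.im / 2 := by simp
    rw [h2]
    have hpos : (0 : ℝ) ≤ (n : ℝ) ^ 2 + n := by
      have : (0 : ℤ) ≤ n ^ 2 + n := by
        rcases le_or_gt n (-1) with h | h
        · nlinarith
        · have : 0 ≤ n := by omega
          nlinarith
      exact_mod_cast this
    have hpi := Real.pi_pos
    nlinarith [mul_nonneg (mul_nonneg hpi.le hpos) (sub_nonneg.mpr hw)]

end Pool.Agent.Helper45.FU
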