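import Pool.Agent.Helper45.FU.Nodes

/-!
# Eigenfunctions vanishing on the nodes vanish identically
-/

open Complex Filter Topology MeasureTheory FourierTransform

namespace Pool.Agent.Helper45.FU

theorem Phi_small {ε : ℂ} (hε : ε = 1 ∨ ε = -1) {f h : ℝ → ℂ} (D : Dat f h)
    (hF : ∀ ξ, 𝓕 f ξ = ε * f ξ) (hz : ∀ n : ℕ, f (√n) = 0) (x : ℝ) :
    ∃ C : ℝ, 0 < C ∧ ∀ δ : ℝ, 0 < δ → ∀ b : ℝ, 1 ≤ b →
      √b * ‖Phi f (aa b) b x‖ ≤ C * δ + δ⁻¹ * Db h b := by
  obtain ⟨B, C, hC, hB, hid, hms⟩ := exists_dual hε x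
  refine ⟨C * √6 / 2, by positivity, fun δ hδ b hb => ?_⟩
  obtain ⟨ha0, hab, hab1, hlow, hup⟩ := aa_facts hb
  have hb0 : 0 < b := by linarith
  have hsb : 0 < √b := Real.sqrt_pos.mpr hb0
  have hsum := phi_ident hε hB hid D.integ hF ha0 hb0.le hab hab1
  obtain ⟨hes, hel⟩ := node_energy D hz hb
  set v : ℝ := (aa b - b) / 2 with hv
  have hv0 : 0 < v := by rw [hv]; linarith
  have hv1 : v ≤ 1 := by
    have : 1 / (2 * b) ≤ 1 := by
      rw [div_le_one (by positivity)]; linarith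
    rw [hv]; linarith
  obtain ⟨hms1, hms2⟩ := hms v hv0 hv1
  have hvl : 1 / (6 * b) ≤ v := by
    have : 1 / (6 * b) = 1 / (3 * b) / 2 := by field_simp; norm_num
    rw [this, hv]; linarith
  have hvp : v ^ (-(1 / 2) : ℝ) ≤ √6 * √b := by
    have h1 : v ^ (-(1 / 2) : ℝ) ≤ (1 / (6 * b)) ^ (-(1 / 2) : ℝ) :=
      Real.rpow_le_rpow_of_nonpos (by positivity) hvl (by norm_num)
    have h2 : (1 / (6 * b)) ^ (-(1 / 2) : ℝ) = √6 * √b := by
      rw [Real.rpow_neg (by positivity), ← Real.sqrt_eq_rpow, one_div, Real.sqrt_inv, inv_inv,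
        Real.sqrt_mul (by norm_num)]
    rwa [h2] at h1
  set lam : ℝ := δ / b with hlam
  have hlam0 : 0 < lam := by positivity
  have hterm : ∀ n : ℕ, ‖B n * Phi f (aa b) b (√n)‖ ≤
      1 / 2 * (lam * (‖B n‖ ^ 2 * Real.exp (-(2 * Real.pi * n * v))) +
        lam⁻¹ * (Real.exp (Real.pi * (aa b - b) * n) * ‖Phi f (aa b) b (√n)‖ ^ 2)) := by
    intro n
    set p := ‖B n‖ * Real.exp (-(Real.pi * n * v)) with hp
    set q := ‖Phi f (aa b) b (√n)‖ * Real.exp (Real.pi * n * v) with hq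
    have e1 : ‖B n * Phi f (aa b) b (√n)‖ = p * q := by
      rw [norm_mul, hp, hq]
      have : Real.exp (-(Real.pi * n * v)) * Real.exp (Real.pi * n * v) = 1 := by
        rw [← Real.exp_add]; simp
      linear_combination (-(‖B n‖ * ‖Phi f (aa b) b (√n)‖)) * this
    have e2 : ‖B n‖ ^ 2 * Real.exp (-(2 * Real.pi * n * v)) = p ^ 2 := by
      rw [hp, mul_pow, ← Real.exp_nat_mul]
      congr 2
      push_cast
      ring
    have e3 : Real.exp (Real.pi * (aa b - b) * n) * ‖Phi f (aa b) b (√n)‖ ^ 2 = q ^ 2 := by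
      rw [hq, mul_pow, ← Real.exp_nat_mul, mul_comm]
      congr 2
      rw [hv]
      push_cast
      ring
    rw [e1, e2, e3]
    have h1 : 0 ≤ (lam * p - q) ^ 2 * lam⁻¹ := by positivity
    have h2 : (lam * p - q) ^ 2 * lam⁻¹ = lam * p ^ 2 - 2 * (p * q) + lam⁻¹ * q ^ 2 := by
      field_simp
      ring
    linarith
  have hsr : Summable fun n : ℕ =>
      1 / 2 * (lam * (‖B n‖ ^ 2 * Real.exp (-(2 * Real.pi * n * v))) +
        lam⁻¹ * (Real.exp (Real.pi * (aa b - b) * n) * ‖Phi f (aa b) b (√n)‖ ^ 2)) :=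
    ((hms1.mul_left lam).add (hes.mul_left lam⁻¹)).mul_left (1 / 2)
  have hnorm : Summable fun n : ℕ => ‖B n * Phi f (aa b) b (√n)‖ :=
    Summable.of_nonneg_of_le (fun n => norm_nonneg _) hterm hsr
  have h1 : ‖Phi f (aa b) b x‖ ≤ 1 / 2 * (lam * (C * (√6 * √b)) +
      lam⁻¹ * (2 / (b * √b) * Db h b)) := by
    rw [← hsum.tsum_eq]
    calc ‖∑' n : ℕ, B n * Phi f (aa b) b (√n)‖ ≤ ∑' n : ℕ, ‖B n * Phi f (aa b) b (√n)‖ :=
          norm_tsum_le_tsum_norm hnorm
      _ ≤ ∑' n : ℕ, 1 / 2 * (lam * (‖B n‖ ^ 2 * Real.exp (-(2 * Real.pi * n * v))) +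
        lam⁻¹ * (Real.exp (Real.pi * (aa b - b) * n) * ‖Phi f (aa b) b (√n)‖ ^ 2)) :=
          hnorm.tsum_le_tsum hterm hsr
      _ = 1 / 2 * (lam * (∑' n : ℕ, ‖B n‖ ^ 2 * Real.exp (-(2 * Real.pi * n * v))) +
        lam⁻¹ * ∑' n : ℕ, Real.exp (Real.pi * (aa b - b) * n) * ‖Phi f (aa b) b (√n)‖ ^ 2) := by
          rw [tsum_mul_left, (hms1.mul_left lam).tsum_add (hes.mul_left lam⁻¹), tsum_mul_left,
            tsum_mul_left]
      _ ≤ _ := by
          gcongr
          exact hms2.trans (by gcongr)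
  have hbb : √b * √b = b := Real.mul_self_sqrt hb0.le
  calc √b * ‖Phi f (aa b) b x‖ ≤ √b * (1 / 2 * (lam * (C * (√6 * √b)) +
      lam⁻¹ * (2 / (b * √b) * Db h b))) := by gcongr
    _ = 1 / 2 * (lam * (C * √6) * (√b * √b)) + lam⁻¹ * (1 / b * Db h b) := by
        field_simp
    _ = C * √6 / 2 * δ + δ⁻¹ * Db h b := by
        rw [hbb, hlam]
        field_simp

theorem Phi_tendsto {f : ℝ → ℂ} (hf : Integrable f) (hc : Continuous f)
    (heven : ∀ x, f (-x) = f x) {M : ℝ} (hM : ∀ x, ‖f x‖ ≤ M) (x : ℝ) :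
    Tendsto (fun b : ℝ => (√b : ℂ) * Phi f (aa b) b x) atTop (𝓝 (f x)) := by
  have hpi := Real.pi_pos
  have key := tendsto_integral_filter_of_dominated_convergence (μ := volume)
    (l := (atTop : Filter ℝ))
    (F := fun (b : ℝ) (u : ℝ) => f (x + (√b)⁻¹ * u) *
      ((Real.exp (-(Real.pi * (aa b - b) * (x ^ 2 + (x + (√b)⁻¹ * u) ^ 2))) *
        Real.exp (-Real.pi * u ^ 2) : ℝ) : ℂ))
    (f := fun u => f x * (Real.exp (-Real.pi * u ^ 2) : ℂ))
    (bound := fun u => M * Real.exp (-Real.pi * u ^ 2)) ?_ ?_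
    ((integrable_exp_neg_mul_sq hpi).const_mul M) ?_
  · have e1 : ∫ u : ℝ, f x * (Real.exp (-Real.pi * u ^ 2) : ℂ) = f x := by
      rw [integral_const_mul]
      have : ∫ u : ℝ, ((Real.exp (-Real.pi * u ^ 2) : ℝ) : ℂ) = 1 := by
        rw [integral_complex_ofReal, integral_gaussian, div_self hpi.ne']
        simp
      rw [this, mul_one]
    rw [e1] at key
    refine key.congr' ?_
    filter_upwards [eventually_ge_atTop (1 : ℝ)] with b hb
    obtain ⟨ha0, hab, -, -, -⟩ := aa_facts hb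
    have hb0 : 0 < b := by linarith
    have hsb : 0 < √b := Real.sqrt_pos.mpr hb0
    rw [Phi_eq hf heven hb0.le hab.le]
    have h1 := Measure.integral_comp_mul_left (fun z : ℝ => f (x + z) * (Kg (aa b) b x (x + z) : ℂ))
      (√b)⁻¹
    rw [integral_add_left_eq_self (fun z : ℝ => f z * (Kg (aa b) b x z : ℂ)) x, inv_inv,
      abs_of_pos hsb, Complex.real_smul] at h1
    rw [← h1]
    refine integral_congr_ae (Eventually.of_forall fun u => ?_)
    simp only
    rw [Kg_eq]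
    congr 3
    congr 1
    have h2 : (x + (√b)⁻¹ * u - x) ^ 2 = u ^ 2 / b := by
      have h3 : √b ^ 2 = b := Real.sq_sqrt hb0.le
      have : x + (√b)⁻¹ * u - x = (√b)⁻¹ * u := by ring
      rw [this, mul_pow, inv_pow, h3]
      field_simp
    rw [h2]
    field_simp
  · refine Eventually.of_forall fun b => ?_
    have : Continuous fun u : ℝ => f (x + (√b)⁻¹ * u) *
      ((Real.exp (-(Real.pi * (aa b - b) * (x ^ 2 + (x + (√b)⁻¹ * u) ^ 2))) *
        Real.exp (-Real.pi * u ^ 2) : ℝ) : ℂ) := by fun_prop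
    exact this.aestronglyMeasurable
  · filter_upwards [eventually_ge_atTop (1 : ℝ)] with b hb
    obtain ⟨ha0, hab, -, -, -⟩ := aa_facts hb
    refine Eventually.of_forall fun u => ?_
    rw [norm_mul, Complex.norm_real, Real.norm_eq_abs, abs_of_pos (by positivity)]
    have h1 : Real.exp (-(Real.pi * (aa b - b) * (x ^ 2 + (x + (√b)⁻¹ * u) ^ 2))) ≤ 1 := by
      rw [Real.exp_le_one_iff]
      have h0 : 0 ≤ aa b - b := by linarith
      have : 0 ≤ Real.pi * (aa b - b) * (x ^ 2 + (x + (√b)⁻¹ * u) ^ 2) := by positivity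
      linarith
    have hM0 : 0 ≤ M := (norm_nonneg _).trans (hM 0)
    calc _ ≤ M * (1 * Real.exp (-Real.pi * u ^ 2)) := by
          have := hM (x + (√b)⁻¹ * u)
          gcongr
      _ = _ := by rw [one_mul]
  · refine Eventually.of_forall fun u => ?_
    have hs : Tendsto (fun b : ℝ => (√b)⁻¹) atTop (𝓝 0) :=
      tendsto_inv_atTop_zero.comp Real.tendsto_sqrt_atTop
    have hy : Tendsto (fun b : ℝ => x + (√b)⁻¹ * u) atTop (𝓝 x) := by
      simpa using (hs.mul_const u).const_add x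
    have hd : Tendsto (fun b : ℝ => aa b - b) atTop (𝓝 0) := by
      have h1 : Tendsto (fun b : ℝ => 1 / (2 * b)) atTop (𝓝 0) := by
        have := (tendsto_inv_atTop_zero (𝕜 := ℝ)).const_mul (1 / 2 : ℝ)
        simp only [mul_zero] at this
        refine this.congr fun b => ?_
        rw [one_div, one_div, mul_inv]
      refine squeeze_zero' ?_ ?_ h1
      · filter_upwards [eventually_ge_atTop (1 : ℝ)] with b hb
        obtain ⟨ha0, hab, -, -, -⟩ := aa_facts hb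
        linarith
      · filter_upwards [eventually_ge_atTop (1 : ℝ)] with b hb
        exact (aa_facts hb).2.2.2.2
    have h1 : Tendsto (fun b : ℝ => f (x + (√b)⁻¹ * u)) atTop (𝓝 (f x)) :=
      (hc.tendsto x).comp hy
    have h2 : Tendsto (fun b : ℝ => Real.exp (-(Real.pi * (aa b - b) *
        (x ^ 2 + (x + (√b)⁻¹ * u) ^ 2))) * Real.exp (-Real.pi * u ^ 2)) atTop
        (𝓝 (Real.exp (-(Real.pi * 0 * (x ^ 2 + x ^ 2))) * Real.exp (-Real.pi * u ^ 2))) := by
      refine Tendsto.mul_const _ ?_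
      refine (Real.continuous_exp.tendsto _).comp ?_
      exact (((hd.const_mul Real.pi).mul ((hy.pow 2).const_add (x ^ 2)))).neg
    have h3 : Real.exp (-(Real.pi * 0 * (x ^ 2 + x ^ 2))) * Real.exp (-Real.pi * u ^ 2) =
        Real.exp (-Real.pi * u ^ 2) := by simp
    rw [h3] at h2
    exact h1.mul ((Complex.continuous_ofReal.tendsto _).comp h2)

theorem vanish {ε : ℂ} (hε : ε = 1 ∨ ε = -1) {f h : ℝ → ℂ} (D : Dat f h)
    (hF : ∀ ξ, 𝓕 f ξ = ε * f ξ) (hz : ∀ n : ℕ, f (√n) = 0) (x : ℝ) : f x = 0 := by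
  obtain ⟨C, hC, hbd⟩ := Phi_small hε D hF hz x
  obtain ⟨M, hM⟩ := D.bdd
  have h1 := (Phi_tendsto D.integ D.cont D.even hM x).norm
  have h2 : Tendsto (fun b : ℝ => ‖(√b : ℂ) * Phi f (aa b) b x‖) atTop (𝓝 0) := by
    rw [Metric.tendsto_atTop]
    intro η hη
    set δ : ℝ := η / (4 * C) with hδ
    have hδ0 : 0 < δ := by positivity
    have h3 := (Db_tendsto D.l2).const_mul δ⁻¹
    rw [mul_zero, Metric.tendsto_atTop] at h3
    obtain ⟨N, hN⟩ := h3 (η / 2) (by positivity)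
    refine ⟨max N 1, fun b hb => ?_⟩
    have hb1 : 1 ≤ b := le_trans (le_max_right _ _) hb
    have hbN : N ≤ b := le_trans (le_max_left _ _) hb
    have h4 := hbd δ hδ0 b hb1
    have h5 := hN b hbN
    rw [Real.dist_eq, sub_zero] at h5
    have h6 := le_abs_self (δ⁻¹ * Db h b)
    have h7 : C * δ = η / 4 := by rw [hδ]; field_simp
    rw [Real.dist_eq, sub_zero, abs_norm, norm_mul, Complex.norm_real, Real.norm_eq_abs,
      abs_of_nonneg (Real.sqrt_nonneg b)]
    linarith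
  exact norm_eq_zero.mp (tendsto_nhds_unique h1 h2)

end Pool.Agent.Helper45.FU
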